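import Pool.Agent.P8H51.MSTD.Checker

/-!
The region (a list of linear forms) and, for each of its facets, a certificate.
-/

namespace Pool.Agent.P8H51.MSTD

/-- the forms defining the region -/
def K : List Form := [
  [0, 1, 0, 0, 0, 0, 0, 0, 0],
  [0, 0, 0, 1, 0, 0, 0, 0, 0],
  [0, 0, 0, 0, 0, 1, 0, 0, 0],
  [0, 0, 0, 0, 0, 0, 0, 1, 0],
  [-3, -1, -1, -1, 0, 2, 2, 3, 1],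
  [-3, -1, -1, -1, 0, 2, 3, 2, 1],
  [-3, -1, -1, -1, 1, 1, 2, 3, 1],
  [-3, -1, -1, -1, 1, 1, 3, 2, 1],
  [-2, -2, -1, -1, 0, 2, 2, 3, 1],
  [-2, -2, -1, -1, 1, 1, 2, 3, 1],
  [-2, -2, -1, 1, 0, 0, 0, 1, 1],
  [-2, -2, -1, 1, 0, 0, 1, 0, 1],
  [-2, -2, -1, 1, 1, -1, 0, 1, 1],
  [-1, -2, 0, -1, 0, 1, 2, 2, 1],
  [-1, 1, 2, -1, 0, 2, 0, 0, -1],
  [0, 0, -1, 1, 0, 0, 0, -1, -1],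
  [0, 0, 0, -1, 1, 1, 3, -1, -1],
  [0, 0, 1, -1, 0, 2, 0, 1, -1],
  [0, 0, 1, 1, -2, -2, -2, 1, 1],
  [0, 0, 2, -1, -1, -1, 0, 2, 1],
  [0, 0, 2, 1, 0, 0, -1, -3, -1],
  [1, 0, 2, 1, 0, -1, -2, -2, -1],
  [1, 0, 2, 1, 1, -2, -2, -2, -1],
  [1, 3, 1, -1, -2, 0, 0, 1, -1],
  [2, 2, 1, -1, -2, 0, 0, 1, -1],
  [2, 2, 1, -1, -1, -1, 1, 0, -1],
  [2, 2, 1, -1, 0, 2, 1, -2, -3],
  [2, 2, 1, -1, 1, 1, 0, -1, -3],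
  [2, 2, 1, 1, 1, -1, -2, -3, -3],
  [2, 2, 2, 1, -2, -2, -1, -3, -1],
  [0, -1, 0, 0, 0, 0, 1, 0, 0]]

def cert0 : Cert :=
  (.leaf [(2, [([0, 0, 0, 0, 0, 0, 0, 0, 0], [2, 2, 2, 0, 0, 0, 0, 0, 0], [1]), ([1, 1, 1, 1, 0, 0, 0, 0, 0], [2, 2, 2, 2, 2, 0, 0, 0, 0], [1]), ([2, 2, 2, 2, 1, 1, 0, 0, 0], [2, 2, 2, 2, 2, 2, 2, 1, 1], [1]), ([2, 2, 2, 2, 2, 2, 2, 2, 0], [2, 2, 2, 2, 2, 2, 2, 2, 2], [1])],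
    [(0, [1], [1]), (0, [1], [1]), (1, [1], [1]), (1, [1], [2, 10, 1, 22, 1]), (1, [1], [2, 12, 1, 28, 1]), (0, [1], [1]), (1, [1], [1]), (1, [1], [2, 12, 1, 28, 1]), (1, [1], [2, 12, 1, 28, 1]), (1, [1], [1]), (2, [1], [1]), (2, [1], [1]), (2, [1], [1]), (2, [1], [1]), (3, [1], [1])],
    [(0, [1], [1], []), (4, [2, 10, 1, 15, 1], [1], [(5, [14, 7, 2, 11, 1, 12, 1, 19, 3, 22, 4, 25, 2, 29, 1]), (6, [4, 7, 1, 14, 1, 28, 1, 29, 1, 31, 4]), (3, [1, 31, 1])])])] [1, 17, 1, 23, 1, 31, 5])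

def cert1 : Cert :=
  (.leaf [(1, [([0, 0, 0, 0, 0, 0, 0, 0, 0], [2, 2, 2, 2, 2, 2, 2, 2, 2], [1])],
    [(0, [1], [1]), (0, [1], [1]), (0, [1], [1]), (0, [1], [1]), (0, [1], [1]), (0, [1], [1]), (0, [1], [1]), (0, [1], [1]), (0, [1], [1]), (0, [1], [1]), (0, [1], [1]), (0, [1], [1]), (0, [1], [1]), (0, [1], [1]), (0, [1], [1])],
    [])] [1, 10, 1, 15, 4, 18, 1, 31, 8])

def cert2 : Cert :=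
  (.split [0, 0, 0, -1, 0, 0, 1, 1, 1]
   (.leaf [(1, [([0, 0, 0, 0, 0, 0, 0, 0, 0], [2, 0, 0, 0, 0, 0, 0, 0, 0], [1]), ([1, 1, 0, 0, 0, 0, 0, 0, 0], [2, 2, 2, 0, 0, 0, 0, 0, 0], [1]), ([1, 1, 1, 1, 0, 0, 0, 0, 0], [2, 2, 2, 2, 2, 2, 2, 1, 1], [1]), ([2, 2, 2, 2, 2, 2, 2, 2, 0], [2, 2, 2, 2, 2, 2, 2, 2, 2], [1])],
     [(0, [1], [1]), (1, [1], [1]), (2, [1], [1]), (2, [1], [1]), (2, [1], [1]), (1, [1], [1]), (2, [1], [1]), (2, [1], [1]), (2, [1], [1]), (2, [1], [1]), (2, [1], [1]), (2, [1], [1]), (2, [1], [1]), (2, [1], [1]), (3, [1], [1])],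
     [(7, [1], [1], [(9, [2, 11, 1, 26, 1]), (8, [1, 31, 1]), (4, [2, 9, 1, 27, 1]), (5, [1, 31, 1]), (6, [7, 8, 1, 17, 1, 20, 3, 26, 1, 31, 6])]), (3, [4, 6, 1, 15, 1, 23, 1, 28, 1], [1], [])])] [1, 10, 1, 31, 2])
   (.leaf [(1, [([0, 0, 0, 0, 0, 0, 0, 0, 0], [2, 0, 0, 0, 0, 0, 0, 0, 0], [1]), ([1, 1, 0, 0, 0, 0, 0, 0, 0], [2, 2, 2, 0, 0, 0, 0, 0, 0], [1]), ([1, 1, 1, 1, 0, 0, 0, 0, 0], [2, 2, 2, 2, 2, 2, 2, 1, 1], [1]), ([2, 2, 2, 2, 2, 2, 2, 2, 0], [2, 2, 2, 2, 2, 2, 2, 2, 2], [1])],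
     [(0, [1], [1]), (1, [1], [1]), (2, [1], [1]), (2, [1], [1]), (2, [1], [1]), (1, [1], [1]), (2, [1], [1]), (2, [1], [1]), (2, [1], [1]), (2, [1], [1]), (2, [1], [1]), (2, [1], [1]), (2, [1], [1]), (2, [1], [1]), (3, [1], [1])],
     [(7, [1], [1], [(9, [2, 11, 1, 26, 1]), (4, [1, 32, 1]), (5, [1, 31, 1]), (6, [2, 20, 1, 32, 1])]), (3, [4, 6, 1, 15, 1, 23, 1, 28, 1], [1], [])])] [1, 10, 1, 31, 2]))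

def cert3 : Cert :=
  (.leaf [(1, [([0, 0, 0, 0, 0, 0, 0, 0, 0], [2, 2, 2, 2, 2, 2, 2, 0, 0], [1])],
    [(0, [1], [1]), (0, [1], [1]), (0, [1], [1]), (0, [1], [1]), (0, [1], [1, 15, 1]), (0, [1], [1]), (0, [1], [1]), (0, [1], [1]), (0, [1], [1, 15, 1]), (0, [1], [1]), (0, [1], [1]), (0, [1], [2, 11, 1, 26, 1]), (0, [1], [1]), (0, [1], [2, 9, 1, 10, 1, 12, 2, 17, 1, 23, 2, 28, 1, 31, 8]), (0, [1], [1, 9, 1, 10, 1, 12, 2, 17, 1, 23, 2, 28, 1, 31, 8])],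
    [(0, [1], [1, 30, 1], [(5, [2, 9, 8, 15, 7, 17, 3, 18, 8, 23, 6, 31, 34])])])] [1, 9, 8, 15, 8, 17, 4, 18, 8, 23, 4, 31, 32])

def cert4 : Cert :=
  (.leaf [(1, [([0, 0, 0, 0, 0, 0, 0, 0, 0], [2, 2, 2, 0, 0, 0, 0, 0, 0], [1]), ([1, 1, 1, 1, 0, 0, 0, 0, 0], [2, 2, 2, 2, 2, 2, 2, 1, 1], [1]), ([2, 2, 2, 2, 2, 2, 2, 2, 0], [2, 2, 2, 2, 2, 2, 2, 2, 2], [1])],
    [(0, [1], [1]), (0, [1], [1]), (1, [1], [1]), (1, [1], [1]), (1, [1], [1]), (0, [1], [1]), (1, [1], [1]), (1, [1], [1]), (1, [1], [1]), (1, [1], [1]), (1, [1], [1]), (1, [1], [1]), (1, [1], [1]), (1, [1], [1]), (2, [1], [1])],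
    [(11, [1], [1], [(0, [2, 13, 1, 21, 1])]), (8, [2, 8, 1, 15, 1], [1, 15, 1], [(4, [2, 9, 1, 27, 1]), (5, [14, 7, 2, 11, 1, 12, 1, 19, 3, 22, 4, 25, 2, 29, 1]), (2, [1, 30, 1])]), (3, [4, 4, 1, 6, 1, 18, 1, 28, 1], [1], [])])] [1, 31, 1])

def cert5 : Cert :=
  (.split [0, 0, 1, 0, 0, 0, 0, -1, 0]
   (.leaf [(1, [([0, 0, 0, 0, 0, 0, 0, 0, 0], [2, 2, 2, 0, 0, 0, 0, 0, 0], [1]), ([1, 1, 1, 1, 0, 0, 0, 0, 0], [2, 2, 2, 1, 1, 1, 1, 0, 0], [1]), ([2, 2, 1, 1, 1, 1, 1, 1, 0], [2, 2, 2, 2, 2, 2, 2, 0, 0], [1, 15, 1]), ([2, 2, 2, 2, 2, 2, 1, 1, 0], [2, 2, 2, 2, 2, 2, 2, 1, 1], [1]), ([2, 2, 2, 2, 2, 2, 2, 2, 0], [2, 2, 2, 2, 2, 2, 2, 2, 2], [1])],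
     [(0, [1], [1]), (0, [1], [1]), (1, [1], [1]), (1, [1], [1]), (1, [1], [4, 7, 1, 14, 1, 28, 1, 29, 1]), (0, [1], [1]), (1, [1], [1]), (1, [1], [1]), (2, [1], [1, 15, 1]), (2, [4, 10, 1, 18, 1, 20, 1, 29, 1], [1]), (2, [1, 20, 1, 32, 1], [1]), (2, [1], [2, 11, 1, 26, 1]), (2, [2, 10, 1, 28, 1], [1]), (3, [1], [1]), (4, [1], [1])],
     [(11, [1], [1], [(0, [2, 13, 1, 21, 1])]), (8, [2, 8, 1, 15, 1], [1, 15, 1], [(4, [2, 9, 1, 27, 1]), (5, [14, 7, 2, 11, 1, 12, 1, 19, 3, 22, 4, 25, 2, 29, 1]), (2, [1, 30, 1])]), (3, [4, 4, 1, 6, 1, 18, 1, 28, 1], [1], [])])] [1, 31, 1, 32, 1])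
   (.leaf [(1, [([0, 0, 0, 0, 0, 0, 0, 0, 0], [2, 2, 2, 0, 0, 0, 0, 0, 0], [1]), ([1, 1, 1, 1, 0, 0, 0, 0, 0], [2, 2, 2, 2, 2, 2, 2, 0, 0], [1]), ([2, 2, 2, 2, 2, 2, 1, 1, 0], [2, 2, 2, 2, 2, 2, 2, 1, 1], [1]), ([2, 2, 2, 2, 2, 2, 2, 2, 0], [2, 2, 2, 2, 2, 2, 2, 2, 2], [1])],
     [(0, [1], [1]), (0, [1], [1]), (1, [1], [1]), (1, [1], [1]), (1, [1], [1, 15, 1]), (0, [1], [1]), (1, [1], [1]), (1, [1], [1]), (1, [1], [1, 15, 1]), (1, [1], [1]), (1, [1], [1]), (1, [1], [2, 11, 1, 26, 1]), (1, [1], [1]), (2, [1], [1]), (3, [1], [1])],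
     [(11, [1], [1], [(0, [2, 13, 1, 21, 1])]), (8, [2, 8, 1, 15, 1], [1, 15, 1], [(4, [2, 9, 1, 27, 1]), (5, [14, 7, 2, 11, 1, 12, 1, 19, 3, 22, 4, 25, 2, 29, 1]), (2, [1, 30, 1])]), (3, [4, 4, 1, 6, 1, 18, 1, 28, 1], [1], [])])] [1, 31, 1]))

def cert6 : Cert :=
  (.split [0, 0, 1, 0, 0, 0, 0, -1, 0]
   (.leaf [(1, [([0, 0, 0, 0, 0, 0, 0, 0, 0], [2, 2, 2, 0, 0, 0, 0, 0, 0], [1]), ([1, 1, 1, 1, 0, 0, 0, 0, 0], [2, 2, 2, 1, 1, 1, 1, 0, 0], [1]), ([2, 2, 1, 1, 1, 1, 1, 1, 0], [2, 2, 2, 2, 2, 0, 0, 0, 0], [2, 12, 1, 28, 1]), ([2, 2, 2, 2, 1, 1, 0, 0, 0], [2, 2, 2, 2, 2, 2, 2, 1, 1], [1]), ([2, 2, 2, 2, 2, 2, 2, 2, 0], [2, 2, 2, 2, 2, 2, 2, 2, 2], [1])],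
     [(0, [1], [1]), (0, [1], [1]), (1, [1], [1]), (1, [1], [1]), (1, [1], [4, 7, 1, 14, 1, 28, 1, 29, 1]), (0, [1], [1]), (1, [1], [1]), (1, [1], [1]), (2, [1], [2, 12, 1, 28, 1]), (2, [4, 10, 1, 18, 1, 20, 1, 29, 1], [1]), (3, [1], [1]), (3, [1], [1]), (3, [1], [1]), (3, [1], [1]), (4, [1], [1])],
     [(13, [1], [1], [(0, [1, 30, 1])]), (8, [2, 8, 1, 15, 1], [1, 15, 1], [(4, [2, 9, 1, 27, 1]), (5, [14, 7, 2, 11, 1, 12, 1, 19, 3, 22, 4, 25, 2, 29, 1]), (2, [1, 30, 1])]), (3, [4, 4, 1, 6, 1, 18, 1, 28, 1], [1], [])])] [1, 31, 1, 32, 1])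
   (.leaf [(1, [([0, 0, 0, 0, 0, 0, 0, 0, 0], [2, 2, 2, 0, 0, 0, 0, 0, 0], [1]), ([1, 1, 1, 1, 0, 0, 0, 0, 0], [2, 2, 2, 2, 2, 0, 0, 0, 0], [1]), ([2, 2, 2, 2, 1, 1, 0, 0, 0], [2, 2, 2, 2, 2, 2, 2, 1, 1], [1]), ([2, 2, 2, 2, 2, 2, 2, 2, 0], [2, 2, 2, 2, 2, 2, 2, 2, 2], [1])],
     [(0, [1], [1]), (0, [1], [1]), (1, [1], [1]), (1, [1], [2, 10, 1, 22, 1]), (1, [1], [2, 12, 1, 28, 1]), (0, [1], [1]), (1, [1], [1]), (1, [1], [2, 12, 1, 28, 1]), (1, [1], [2, 12, 1, 28, 1]), (1, [1], [1]), (2, [1], [1]), (2, [1], [1]), (2, [1], [1]), (2, [1], [1]), (3, [1], [1])],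
     [(13, [1], [1], [(0, [1, 30, 1])]), (8, [2, 8, 1, 15, 1], [1, 15, 1], [(4, [2, 9, 1, 27, 1]), (5, [14, 7, 2, 11, 1, 12, 1, 19, 3, 22, 4, 25, 2, 29, 1]), (2, [1, 30, 1])]), (3, [4, 4, 1, 6, 1, 18, 1, 28, 1], [1], [])])] [1, 31, 1]))

def cert7 : Cert :=
  (.split [0, 0, 0, 0, 0, -1, 1, 0, 0]
   (.split [0, 0, 1, 0, 0, 0, 0, -1, 0]
    (.leaf [(1, [([0, 0, 0, 0, 0, 0, 0, 0, 0], [2, 0, 0, 0, 0, 0, 0, 0, 0], [1]), ([1, 1, 0, 0, 0, 0, 0, 0, 0], [2, 2, 2, 0, 0, 0, 0, 0, 0], [1]), ([1, 1, 1, 1, 0, 0, 0, 0, 0], [2, 2, 2, 1, 1, 1, 1, 0, 0], [1]), ([2, 2, 1, 1, 1, 1, 1, 1, 0], [2, 2, 2, 2, 2, 0, 0, 0, 0], [2, 12, 1, 28, 1]), ([2, 2, 2, 2, 1, 1, 0, 0, 0], [2, 2, 2, 2, 2, 1, 1, 0, 0], [1]), ([2, 2, 2, 2, 2, 2, 0, 0, 0], [2, 2, 2, 2, 2, 2, 2, 0, 0], [1]),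 ([2, 2, 2, 2, 2, 2, 1, 1, 0], [2, 2, 2, 2, 2, 2, 2, 1, 1], [1]), ([2, 2, 2, 2, 2, 2, 2, 2, 0], [2, 2, 2, 2, 2, 2, 2, 2, 2], [1])],
      [(0, [1], [1]), (1, [1], [1]), (2, [1], [1]), (2, [1], [1]), (2, [1], [4, 7, 1, 14, 1, 28, 1, 29, 1]), (1, [1], [1]), (2, [1], [1]), (2, [1], [1]), (3, [1], [2, 12, 1, 28, 1]), (3, [4, 10, 1, 18, 1, 20, 1, 29, 1], [1]), (4, [1], [1]), (5, [1, 10, 1, 25, 1], [2, 11, 1, 26, 1]), (5, [1], [1]), (6, [1], [1]), (7, [1], [1])],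
      [(11, [1], [1], [(0, [2, 13, 1, 21, 1])]), (4, [2, 10, 1, 15, 1], [1], [(5, [14, 7, 2, 11, 1, 12, 1, 19, 3, 22, 4, 25, 2, 29, 1]), (2, [1, 30, 1])]), (3, [4, 4, 1, 6, 1, 18, 1, 28, 1], [1], [])])] [1, 25, 1, 32, 3, 33, 1])
    (.leaf [(1, [([0, 0, 0, 0, 0, 0, 0, 0, 0], [2, 0, 0, 0, 0, 0, 0, 0, 0], [1]), ([1, 1, 0, 0, 0, 0, 0, 0, 0], [2, 2, 2, 0, 0, 0, 0, 0, 0], [1]), ([1, 1, 1, 1, 0, 0, 0, 0, 0], [2, 2, 2, 2, 2, 0, 0, 0, 0], [1]), ([2, 2, 2, 2, 1, 1, 0, 0, 0], [2, 2, 2, 2, 2, 1, 1, 0, 0], [1]), ([2, 2, 2, 2, 2, 2, 0, 0, 0], [2, 2, 2, 2, 2, 2, 2, 0, 0], [1]), ([2, 2, 2, 2, 2, 2, 1, 1, 0], [2, 2, 2, 2, 2, 2, 2, 1, 1], [1]), ([2, 2, 2, 2, 2, 2, 2, 2, 0], [2, 2, 2, 2, 2, 2, 2, 2, 2], [1])],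
      [(0, [1], [1]), (1, [1], [1]), (2, [1], [1]), (2, [1], [2, 10, 1, 22, 1]), (2, [1], [2, 12, 1, 28, 1]), (1, [1], [1]), (2, [1], [1]), (2, [1], [2, 12, 1, 28, 1]), (2, [1], [2, 12, 1, 28, 1]), (2, [1], [1]), (3, [1], [1]), (4, [1, 10, 1, 25, 1], [2, 11, 1, 26, 1]), (4, [1], [1]), (5, [1], [1]), (6, [1], [1])],
      [(11, [1], [1], [(0, [2, 13, 1, 21, 1])]), (4, [2, 10, 1, 15, 1], [1], [(5, [14, 7, 2, 11, 1, 12, 1, 19, 3, 22, 4, 25, 2, 29, 1]), (2, [1, 30, 1])]), (3, [4, 4, 1, 6, 1, 18, 1, 28, 1], [1], [])])] [1, 25, 1, 32, 3]))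
   (.split [0, 0, 1, 0, 0, 0, 0, -1, 0]
    (.leaf [(1, [([0, 0, 0, 0, 0, 0, 0, 0, 0], [2, 2, 2, 0, 0, 0, 0, 0, 0], [1]), ([1, 1, 1, 1, 0, 0, 0, 0, 0], [2, 2, 2, 1, 1, 1, 1, 0, 0], [1]), ([2, 2, 1, 1, 1, 1, 1, 1, 0], [2, 2, 2, 2, 2, 0, 0, 0, 0], [2, 12, 1, 28, 1]), ([2, 2, 2, 2, 1, 1, 0, 0, 0], [2, 2, 2, 2, 2, 2, 2, 0, 0], [1]), ([2, 2, 2, 2, 2, 2, 1, 1, 0], [2, 2, 2, 2, 2, 2, 2, 1, 1], [1]), ([2, 2, 2, 2, 2, 2, 2, 2, 0], [2, 2, 2, 2, 2, 2, 2, 2, 2], [1])],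
      [(0, [1], [1]), (0, [1], [1]), (1, [1], [1]), (1, [1], [1]), (1, [1], [4, 7, 1, 14, 1, 28, 1, 29, 1]), (0, [1], [1]), (1, [1], [1]), (1, [1], [1]), (2, [1], [2, 12, 1, 28, 1]), (2, [4, 10, 1, 18, 1, 20, 1, 29, 1], [1]), (3, [1], [1]), (3, [1], [2, 11, 1, 26, 1]), (3, [1], [1]), (4, [1], [1]), (5, [1], [1])],
      [(13, [1], [1], [(0, [1, 30, 1])]), (8, [2, 8, 1, 15, 1], [1, 15, 1], [(4, [2, 9, 1, 27, 1]), (5, [14, 7, 2, 11, 1, 12, 1, 19, 3, 22, 4, 25, 2, 29, 1]), (2, [1, 30, 1])]), (3, [4, 4, 1, 6, 1, 18, 1, 28, 1], [1], [])])] [1, 31, 1, 33, 1])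
    (.split [-1, -1, 0, 0, 1, 1, 0, 0, 0]
     (.leaf [(1, [([0, 0, 0, 0, 0, 0, 0, 0, 0], [2, 2, 2, 0, 0, 0, 0, 0, 0], [1]), ([1, 1, 1, 1, 0, 0, 0, 0, 0], [2, 2, 2, 2, 2, 0, 0, 0, 0], [1]), ([2, 2, 2, 2, 1, 1, 0, 0, 0], [2, 2, 2, 2, 2, 2, 2, 0, 0], [1]), ([2, 2, 2, 2, 2, 2, 1, 1, 0], [2, 2, 2, 2, 2, 2, 2, 1, 1], [1]), ([2, 2, 2, 2, 2, 2, 2, 2, 0], [2, 2, 2, 2, 2, 2, 2, 2, 2], [1])],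
       [(0, [1], [1]), (0, [1], [1]), (1, [1], [1]), (1, [1], [2, 10, 1, 22, 1]), (1, [1], [2, 12, 1, 28, 1]), (0, [1], [1]), (1, [1], [1]), (1, [1], [2, 12, 1, 28, 1]), (1, [1], [2, 12, 1, 28, 1]), (1, [1], [1]), (2, [1], [1]), (2, [1], [2, 11, 1, 26, 1]), (2, [1], [1]), (3, [1], [1]), (4, [1], [1])],
       [(11, [1], [1], [(0, [2, 13, 1, 21, 1])]), (8, [2, 8, 1, 15, 1], [1, 15, 1], [(4, [2, 9, 1, 27, 1]), (5, [14, 7, 2, 11, 1, 12, 1, 19, 3, 22, 4, 25, 2, 29, 1]), (2, [1, 30, 1])]), (3, [4, 4, 1, 6, 1, 18, 1, 28, 1], [1], [])])] [1, 31, 1])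
     (.leaf [(1, [([0, 0, 0, 0, 0, 0, 0, 0, 0], [2, 2, 2, 0, 0, 0, 0, 0, 0], [1]), ([1, 1, 1, 1, 0, 0, 0, 0, 0], [2, 2, 2, 2, 2, 0, 0, 0, 0], [1]), ([2, 2, 2, 2, 1, 1, 0, 0, 0], [2, 2, 2, 2, 2, 2, 2, 0, 0], [1]), ([2, 2, 2, 2, 2, 2, 1, 1, 0], [2, 2, 2, 2, 2, 2, 2, 1, 1], [1]), ([2, 2, 2, 2, 2, 2, 2, 2, 0], [2, 2, 2, 2, 2, 2, 2, 2, 2], [1])],
       [(0, [1], [1]), (0, [1], [1]), (1, [1], [1]), (1, [1], [2, 10, 1, 22, 1]), (1, [1], [2, 12, 1, 28, 1]), (0, [1], [1]), (1, [1], [1]), (1, [1], [2, 12, 1, 28, 1]), (1, [1], [2, 12, 1, 28, 1]), (1, [1], [1]), (2, [1], [1]), (2, [1], [2, 11, 1, 26, 1]), (2, [1], [1]), (3, [1], [1]), (4, [1], [1])],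
       [(11, [1], [1], [(0, [2, 13, 1, 21, 1])]), (8, [2, 8, 1, 15, 1], [1, 15, 1], [(4, [2, 9, 1, 27, 1]), (5, [14, 7, 2, 11, 1, 12, 1, 19, 3, 22, 4, 25, 2, 29, 1]), (2, [1, 30, 1])]), (3, [4, 4, 1, 6, 1, 18, 1, 28, 1], [1], [])])] [1, 31, 1]))))

def cert8 : Cert :=
  (.leaf [(1, [([0, 0, 0, 0, 0, 0, 0, 0, 0], [2, 0, 0, 0, 0, 0, 0, 0, 0], [1]), ([1, 1, 0, 0, 0, 0, 0, 0, 0], [2, 2, 2, 0, 0, 0, 0, 0, 0], [1]), ([1, 1, 1, 1, 0, 0, 0, 0, 0], [2, 2, 2, 2, 2, 2, 2, 1, 1], [1]), ([2, 2, 2, 2, 2, 2, 2, 2, 0], [2, 2, 2, 2, 2, 2, 2, 2, 2], [1])],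
    [(0, [1], [1]), (1, [1], [1]), (2, [1], [1]), (2, [1], [1]), (2, [1], [1]), (1, [1], [1]), (2, [1], [1]), (2, [1], [1]), (2, [1], [1]), (2, [1], [1]), (2, [1], [1]), (2, [1], [1]), (2, [1], [1]), (2, [1], [1]), (3, [1], [1])],
    [(11, [1], [1], [(0, [2, 13, 1, 21, 1])]), (8, [2, 8, 1, 15, 1], [1, 15, 1], [(4, [2, 9, 1, 27, 1]), (5, [14, 7, 2, 11, 1, 12, 1, 19, 3, 22, 4, 25, 2, 29, 1]), (2, [1, 30, 1])]), (3, [4, 4, 1, 6, 1, 18, 1, 28, 1], [1], [])])] [1, 31, 1])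

def cert9 : Cert :=
  (.leaf [(1, [([0, 0, 0, 0, 0, 0, 0, 0, 0], [2, 0, 0, 0, 0, 0, 0, 0, 0], [1]), ([1, 1, 0, 0, 0, 0, 0, 0, 0], [2, 2, 2, 0, 0, 0, 0, 0, 0], [1]), ([1, 1, 1, 1, 0, 0, 0, 0, 0], [2, 2, 2, 2, 2, 0, 0, 0, 0], [1]), ([2, 2, 2, 2, 1, 1, 0, 0, 0], [2, 2, 2, 2, 2, 2, 2, 1, 1], [1]), ([2, 2, 2, 2, 2, 2, 2, 2, 0], [2, 2, 2, 2, 2, 2, 2, 2, 2], [1])],
    [(0, [1], [1]), (1, [1], [1]), (2, [1], [1]), (2, [1], [2, 10, 1, 22, 1]), (2, [1], [2, 12, 1, 28, 1]), (1, [1], [1]), (2, [1], [1]), (2, [1], [2, 12, 1, 28, 1]), (2, [1], [2, 12, 1, 28, 1]), (2, [1], [1]), (3, [1], [1]), (3, [1], [1]), (3, [1], [1]), (3, [1], [1]), (4, [1], [1])],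
    [(13, [1], [1], [(0, [1, 30, 1])]), (8, [2, 8, 1, 15, 1], [1, 15, 1], [(4, [2, 9, 1, 27, 1]), (5, [14, 7, 2, 11, 1, 12, 1, 19, 3, 22, 4, 25, 2, 29, 1]), (2, [1, 30, 1])]), (3, [4, 4, 1, 6, 1, 18, 1, 28, 1], [1], [])])] [1, 31, 1])

def cert10 : Cert :=
  (.leaf [(1, [([0, 0, 0, 0, 0, 0, 0, 0, 0], [2, 0, 0, 0, 0, 0, 0, 0, 0], [1]), ([1, 1, 0, 0, 0, 0, 0, 0, 0], [2, 2, 2, 0, 0, 0, 0, 0, 0], [1]), ([1, 1, 1, 1, 0, 0, 0, 0, 0], [2, 2, 2, 2, 2, 2, 2, 1, 1], [1]), ([2, 2, 2, 2, 2, 2, 2, 2, 0], [2, 2, 2, 2, 2, 2, 2, 2, 2], [1])],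
    [(0, [1], [1]), (1, [1], [1]), (2, [1], [1]), (2, [1], [1]), (2, [1], [1]), (1, [1], [1]), (2, [1], [1]), (2, [1], [1]), (2, [1], [1]), (2, [1], [1]), (2, [1], [1]), (2, [1], [1]), (2, [1], [1]), (2, [1], [1]), (3, [1], [1])],
    [(13, [1], [1], [(0, [1, 30, 1])]), (4, [2, 10, 1, 15, 1], [1], [(5, [14, 7, 2, 11, 1, 12, 1, 19, 3, 22, 4, 25, 2, 29, 1]), (2, [1, 30, 1])]), (3, [4, 4, 1, 6, 1, 18, 1, 28, 1], [1], [])])] [1, 31, 1])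

def cert11 : Cert :=
  (.split [0, 0, 1, 0, 0, 0, 0, -1, 0]
   (.leaf [(1, [([0, 0, 0, 0, 0, 0, 0, 0, 0], [2, 0, 0, 0, 0, 0, 0, 0, 0], [1]), ([1, 1, 0, 0, 0, 0, 0, 0, 0], [2, 2, 2, 0, 0, 0, 0, 0, 0], [1]), ([1, 1, 1, 1, 0, 0, 0, 0, 0], [2, 2, 2, 1, 1, 1, 1, 0, 0], [1]), ([2, 2, 1, 1, 1, 1, 1, 1, 0], [2, 2, 2, 2, 2, 2, 2, 0, 0], [1, 15, 1]), ([2, 2, 2, 2, 2, 2, 1, 1, 0], [2, 2, 2, 2, 2, 2, 2, 1, 1], [1]), ([2, 2, 2, 2, 2, 2, 2, 2, 0], [2, 2, 2, 2, 2, 2, 2, 2, 2], [1])],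
     [(0, [1], [1]), (1, [1], [1]), (2, [1], [1]), (2, [1], [1]), (2, [1], [4, 7, 1, 14, 1, 28, 1, 29, 1]), (1, [1], [1]), (2, [1], [1]), (2, [1], [1]), (3, [1], [1, 15, 1]), (3, [4, 10, 1, 18, 1, 20, 1, 29, 1], [1]), (3, [1, 20, 1, 32, 1], [1]), (3, [1], [2, 11, 1, 26, 1]), (3, [2, 10, 1, 28, 1], [1]), (4, [1], [1]), (5, [1], [1])],
     [(11, [1], [1], [(0, [2, 13, 1, 21, 1])]), (4, [2, 10, 1, 15, 1], [1], [(5, [14, 7, 2, 11, 1, 12, 1, 19, 3, 22, 4, 25, 2, 29, 1]), (2, [1, 30, 1])]), (3, [4, 4, 1, 6, 1, 18, 1, 28, 1], [1], [])])] [1, 31, 1, 32, 1])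
   (.split [-1, -1, 0, 0, 1, 1, 0, 0, 0]
    (.leaf [(1, [([0, 0, 0, 0, 0, 0, 0, 0, 0], [2, 0, 0, 0, 0, 0, 0, 0, 0], [1]), ([1, 1, 0, 0, 0, 0, 0, 0, 0], [2, 2, 2, 0, 0, 0, 0, 0, 0], [1]), ([1, 1, 1, 1, 0, 0, 0, 0, 0], [2, 2, 2, 2, 2, 2, 2, 0, 0], [1]), ([2, 2, 2, 2, 2, 2, 1, 1, 0], [2, 2, 2, 2, 2, 2, 2, 1, 1], [1]), ([2, 2, 2, 2, 2, 2, 2, 2, 0], [2, 2, 2, 2, 2, 2, 2, 2, 2], [1])],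
      [(0, [1], [1]), (1, [1], [1]), (2, [1], [1]), (2, [1], [1]), (2, [1], [1, 15, 1]), (1, [1], [1]), (2, [1], [1]), (2, [1], [1]), (2, [1], [1, 15, 1]), (2, [1], [1]), (2, [1], [1]), (2, [1], [2, 11, 1, 26, 1]), (2, [1], [1]), (3, [1], [1]), (4, [1], [1])],
      [(11, [1], [1], [(0, [2, 13, 1, 21, 1])]), (4, [2, 10, 1, 15, 1], [1], [(5, [14, 7, 2, 11, 1, 12, 1, 19, 3, 22, 4, 25, 2, 29, 1]), (2, [1, 30, 1])]), (3, [4, 4, 1, 6, 1, 18, 1, 28, 1], [1], [])])] [1, 31, 1])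
    (.leaf [(1, [([0, 0, 0, 0, 0, 0, 0, 0, 0], [2, 0, 0, 0, 0, 0, 0, 0, 0], [1]), ([1, 1, 0, 0, 0, 0, 0, 0, 0], [2, 2, 2, 0, 0, 0, 0, 0, 0], [1]), ([1, 1, 1, 1, 0, 0, 0, 0, 0], [2, 2, 2, 2, 2, 2, 2, 0, 0], [1]), ([2, 2, 2, 2, 2, 2, 1, 1, 0], [2, 2, 2, 2, 2, 2, 2, 1, 1], [1]), ([2, 2, 2, 2, 2, 2, 2, 2, 0], [2, 2, 2, 2, 2, 2, 2, 2, 2], [1])],
      [(0, [1], [1]), (1, [1], [1]), (2, [1], [1]), (2, [1], [1]), (2, [1], [1, 15, 1]), (1, [1], [1]), (2, [1], [1]), (2, [1], [1]), (2, [1], [1, 15, 1]), (2, [1], [1]), (2, [1], [1]), (2, [1], [2, 11, 1, 26, 1]), (2, [1], [1]), (3, [1], [1]), (4, [1], [1])],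
      [(11, [1], [1], [(0, [2, 13, 1, 21, 1])]), (4, [2, 10, 1, 15, 1], [1], [(5, [14, 7, 2, 11, 1, 12, 1, 19, 3, 22, 4, 25, 2, 29, 1]), (2, [1, 30, 1])]), (3, [4, 4, 1, 6, 1, 18, 1, 28, 1], [1], [])])] [1, 31, 1])))

def cert12 : Cert :=
  (.split [1, 1, 0, 0, -1, -1, 0, 0, 0]
   (.split [0, 0, 1, 0, 0, 0, 0, -1, 0]
    (.leaf [(2, [([0, 0, 0, 0, 0, 0, 0, 0, 0], [2, 2, 2, 0, 0, 0, 0, 0, 0], [1]), ([1, 1, 1, 1, 0, 0, 0, 0, 0], [2, 2, 2, 2, 2, 0, 0, 0, 0], [1]), ([2, 2, 2, 2, 1, 1, 0, 0, 0], [2, 2, 2, 2, 2, 2, 2, 1, 1], [1]), ([2, 2, 2, 2, 2, 2, 2, 2, 0], [2, 2, 2, 2, 2, 2, 2, 2, 2], [1])],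
      [(0, [1], [1]), (0, [1], [1]), (1, [1], [1]), (1, [1], [2, 10, 1, 22, 1]), (1, [1], [2, 12, 1, 28, 1]), (0, [1], [1]), (1, [1], [1]), (1, [1], [2, 12, 1, 28, 1]), (1, [1], [2, 12, 1, 28, 1]), (1, [1], [1]), (2, [1], [1]), (2, [1], [1]), (2, [1], [1]), (2, [1], [1]), (3, [1], [1])],
      [(11, [1], [1], [(0, [2, 13, 1, 21, 1])]), (4, [2, 10, 1, 15, 1], [1], [(5, [14, 7, 2, 11, 1, 12, 1, 19, 3, 22, 4, 25, 2, 29, 1]), (2, [1, 30, 1])]), (3, [4, 4, 1, 6, 1, 18, 1, 28, 1], [1], [])]),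
     (3, [([0, 0, 0, 0, 0, 0, 0, 0, 0], [2, 0, 0, 0, 0, 0, 0, 0, 0], [1]), ([1, 1, 0, 0, 0, 0, 0, 0, 0], [2, 2, 2, 0, 0, 0, 0, 0, 0], [1]), ([1, 1, 1, 1, 0, 0, 0, 0, 0], [2, 1, 1, 1, 1, 0, 0, 0, 0], [1]), ([2, 2, 1, 1, 0, 0, 0, 0, 0], [2, 2, 2, 1, 1, 1, 1, 0, 0], [1]), ([2, 2, 1, 1, 1, 1, 1, 1, 0], [2, 2, 2, 2, 2, 0, 0, 0, 0], [2, 12, 1, 28, 1]), ([2, 2, 2, 2, 1, 1, 0, 0, 0], [2, 2, 2, 2, 2, 2, 2, 0, 0], [1]), ([2, 2, 2, 2, 2, 2, 1, 1, 0], [2, 2, 2, 2, 2, 2, 2, 1, 1], [1]), ([2, 2, 2, 2, 2, 2, 2, 2, 0], [2, 2, 2, 2, 2, 2, 2, 2, 2], [1])],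
      [(0, [1], [1]), (1, [1], [1]), (2, [1], [1]), (3, [1, 32, 1], [1]), (3, [1, 32, 1], [4, 7, 1, 14, 1, 28, 1, 29, 1]), (1, [1], [1]), (3, [1], [1]), (3, [1], [1]), (4, [1], [2, 12, 1, 28, 1]), (4, [4, 10, 1, 18, 1, 20, 1, 29, 1], [1]), (5, [1], [1]), (5, [1], [2, 11, 1, 26, 1]), (5, [1], [1]), (6, [1], [1]), (7, [1], [1])],
      [(11, [1], [1], [(7, [14, 7, 2, 11, 1, 12, 1, 19, 3, 22, 4, 25, 2, 29, 1])]), (4, [2, 15, 1, 18, 1], [1], [(5, [14, 7, 2, 11, 1, 12, 1, 19, 3, 22, 4, 25, 2, 29, 1]), (2, [1, 30, 1])]), (3, [4, 4, 1, 6, 1, 18, 1, 28, 1], [1], [])]),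
     (1, [([0, 0, 0, 0, 0, 0, 0, 0, 0], [2, 0, 0, 0, 0, 0, 0, 0, 0], [1]), ([1, 1, 0, 0, 0, 0, 0, 0, 0], [2, 2, 2, 0, 0, 0, 0, 0, 0], [1]), ([1, 1, 1, 1, 0, 0, 0, 0, 0], [2, 1, 1, 1, 1, 0, 0, 0, 0], [1]), ([2, 2, 1, 1, 0, 0, 0, 0, 0], [2, 2, 2, 1, 1, 1, 1, 0, 0], [1]), ([2, 2, 1, 1, 1, 1, 1, 1, 0], [2, 2, 2, 2, 2, 0, 0, 0, 0], [2, 12, 1, 28, 1]), ([2, 2, 2, 2, 1, 1, 0, 0, 0], [2, 2, 2, 2, 2, 2, 2, 0, 0], [1]), ([2, 2, 2, 2, 2, 2, 1, 1, 0], [2, 2, 2, 2, 2, 2, 2, 1, 1], [1]), ([2, 2, 2, 2, 2, 2, 2, 2, 0], [2, 2, 2, 2, 2, 2, 2, 2, 2], [1])],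
      [(0, [1], [1]), (1, [1], [1]), (2, [1], [1]), (3, [1, 32, 1], [1]), (3, [1, 32, 1], [4, 7, 1, 14, 1, 28, 1, 29, 1]), (1, [1], [1]), (3, [1], [1]), (3, [1], [1]), (4, [1], [2, 12, 1, 28, 1]), (4, [4, 10, 1, 18, 1, 20, 1, 29, 1], [1]), (5, [1], [1]), (5, [1], [2, 11, 1, 26, 1]), (5, [1], [1]), (6, [1], [1]), (7, [1], [1])],
      [(11, [1], [1], [(0, [2, 13, 1, 21, 1])]), (4, [2, 10, 1, 15, 1], [1], [(5, [14, 7, 2, 11, 1, 12, 1, 19, 3, 22, 4, 25, 2, 29, 1]), (2, [1, 30, 1])]), (3, [4, 4, 1, 6, 1, 18, 1, 28, 1], [1], [])])] [1, 11, 2, 31, 8, 32, 4, 33, 10])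
    (.leaf [(1, [([0, 0, 0, 0, 0, 0, 0, 0, 0], [2, 0, 0, 0, 0, 0, 0, 0, 0], [1]), ([1, 1, 0, 0, 0, 0, 0, 0, 0], [2, 2, 2, 0, 0, 0, 0, 0, 0], [1]), ([1, 1, 1, 1, 0, 0, 0, 0, 0], [2, 2, 2, 2, 2, 0, 0, 0, 0], [1]), ([2, 2, 2, 2, 1, 1, 0, 0, 0], [2, 2, 2, 2, 2, 2, 2, 1, 1], [1]), ([2, 2, 2, 2, 2, 2, 2, 2, 0], [2, 2, 2, 2, 2, 2, 2, 2, 2], [1])],
      [(0, [1], [1]), (1, [1], [1]), (2, [1], [1]), (2, [1], [2, 10, 1, 22, 1]), (2, [1], [2, 12, 1, 28, 1]), (1, [1], [1]), (2, [1], [1]), (2, [1], [2, 12, 1, 28, 1]), (2, [1], [2, 12, 1, 28, 1]), (2, [1], [1]), (3, [1], [1]), (3, [1], [1]), (3, [1], [1]), (3, [1], [1]), (4, [1], [1])],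
      [(11, [1], [1], [(0, [2, 13, 1, 21, 1])]), (4, [2, 10, 1, 15, 1], [1], [(5, [14, 7, 2, 11, 1, 12, 1, 19, 3, 22, 4, 25, 2, 29, 1]), (2, [1, 30, 1])]), (3, [4, 4, 1, 6, 1, 18, 1, 28, 1], [1], [])])] [1, 31, 1]))
   (.leaf [(1, [([0, 0, 0, 0, 0, 0, 0, 0, 0], [2, 0, 0, 0, 0, 0, 0, 0, 0], [1]), ([1, 1, 0, 0, 0, 0, 0, 0, 0], [2, 2, 2, 0, 0, 0, 0, 0, 0], [1]), ([1, 1, 1, 1, 0, 0, 0, 0, 0], [2, 2, 2, 2, 2, 0, 0, 0, 0], [1]), ([2, 2, 2, 2, 1, 1, 0, 0, 0], [2, 2, 2, 2, 2, 2, 2, 1, 1], [1]), ([2, 2, 2, 2, 2, 2, 2, 2, 0], [2, 2, 2, 2, 2, 2, 2, 2, 2], [1])],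
     [(0, [1], [1]), (1, [1], [1]), (2, [1], [1]), (2, [1], [2, 10, 1, 22, 1]), (2, [1], [2, 12, 1, 28, 1]), (1, [1], [1]), (2, [1], [1]), (2, [1], [2, 12, 1, 28, 1]), (2, [1], [2, 12, 1, 28, 1]), (2, [1], [1]), (3, [1], [1]), (3, [1], [1]), (3, [1], [1]), (3, [1], [1]), (4, [1], [1])],
     [(13, [1], [1], [(0, [1, 30, 1])]), (4, [2, 10, 1, 15, 1], [1], [(5, [14, 7, 2, 11, 1, 12, 1, 19, 3, 22, 4, 25, 2, 29, 1]), (2, [1, 30, 1])]), (3, [4, 4, 1, 6, 1, 18, 1, 28, 1], [1], [])])] [1, 31, 1]))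

def cert13 : Cert :=
  (.split [1, 1, 0, 0, -1, -1, 0, 0, 0]
   (.split [0, 0, 1, 0, 0, 0, 0, -1, 0]
    (.leaf [(1, [([0, 0, 0, 0, 0, 0, 0, 0, 0], [2, 0, 0, 0, 0, 0, 0, 0, 0], [1]), ([1, 1, 0, 0, 0, 0, 0, 0, 0], [2, 2, 2, 0, 0, 0, 0, 0, 0], [1]), ([1, 1, 1, 1, 0, 0, 0, 0, 0], [2, 1, 1, 1, 1, 0, 0, 0, 0], [1]), ([2, 2, 1, 1, 0, 0, 0, 0, 0], [2, 2, 2, 1, 1, 1, 1, 0, 0], [1]), ([2, 2, 1, 1, 1, 1, 1, 1, 0], [2, 2, 2, 2, 2, 2, 2, 0, 0], [1, 15, 1]), ([2, 2, 2, 2, 2, 2, 1, 1, 0], [2, 2, 2, 2, 2, 2, 2, 1, 1], [1]), ([2, 2, 2, 2, 2, 2, 2, 2, 0], [2, 2, 2, 2, 2, 2, 2, 2, 2], [1])],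
      [(0, [1], [1]), (1, [1], [1]), (2, [1], [1]), (3, [1, 32, 1], [1]), (3, [1, 32, 1], [4, 7, 1, 14, 1, 28, 1, 29, 1]), (1, [1], [1]), (3, [1], [1]), (3, [1], [1]), (4, [1], [1, 15, 1]), (4, [4, 10, 1, 18, 1, 20, 1, 29, 1], [1]), (4, [1, 20, 1, 33, 1], [1]), (4, [1], [2, 11, 1, 26, 1]), (4, [2, 10, 1, 28, 1], [1]), (5, [1], [1]), (6, [1], [1])],
      [(11, [1], [1], [(7, [14, 7, 2, 11, 1, 12, 1, 19, 3, 22, 4, 25, 2, 29, 1])]), (8, [2, 10, 1, 24, 1], [1, 15, 1], [(4, [2, 9, 1, 27, 1]), (5, [14, 7, 2, 11, 1, 12, 1, 19, 3, 22, 4, 25, 2, 29, 1]), (2, [1, 30, 1])]), (3, [4, 4, 1, 6, 1, 18, 1, 28, 1], [1], [])]),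
     (1, [([0, 0, 0, 0, 0, 0, 0, 0, 0], [2, 0, 0, 0, 0, 0, 0, 0, 0], [1]), ([1, 1, 0, 0, 0, 0, 0, 0, 0], [2, 2, 2, 0, 0, 0, 0, 0, 0], [1]), ([1, 1, 1, 1, 0, 0, 0, 0, 0], [2, 1, 1, 1, 1, 0, 0, 0, 0], [1]), ([2, 2, 1, 1, 0, 0, 0, 0, 0], [2, 2, 2, 1, 1, 1, 1, 0, 0], [1]), ([2, 2, 1, 1, 1, 1, 1, 1, 0], [2, 2, 2, 2, 2, 2, 2, 0, 0], [1, 15, 1]), ([2, 2, 2, 2, 2, 2, 1, 1, 0], [2, 2, 2, 2, 2, 2, 2, 1, 1], [1]), ([2, 2, 2, 2, 2, 2, 2, 2, 0], [2, 2, 2, 2, 2, 2, 2, 2, 2], [1])],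
      [(0, [1], [1]), (1, [1], [1]), (2, [1], [1]), (3, [1, 32, 1], [1]), (3, [1, 32, 1], [4, 7, 1, 14, 1, 28, 1, 29, 1]), (1, [1], [1]), (3, [1], [1]), (3, [1], [1]), (4, [1], [1, 15, 1]), (4, [4, 10, 1, 18, 1, 20, 1, 29, 1], [1]), (4, [1, 20, 1, 33, 1], [1]), (4, [1], [2, 11, 1, 26, 1]), (4, [2, 10, 1, 28, 1], [1]), (5, [1], [1]), (6, [1], [1])],
      [(11, [1], [1], [(0, [2, 13, 1, 21, 1])]), (8, [2, 8, 1, 15, 1], [1, 15, 1], [(4, [2, 9, 1, 27, 1]), (5, [14, 7, 2, 11, 1, 12, 1, 19, 3, 22, 4, 25, 2, 29, 1]), (2, [1, 30, 1])]), (3, [4, 4, 1, 6, 1, 18, 1, 28, 1], [1], [])])] [1, 31, 2, 33, 2])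
    (.leaf [(1, [([0, 0, 0, 0, 0, 0, 0, 0, 0], [2, 0, 0, 0, 0, 0, 0, 0, 0], [1]), ([1, 1, 0, 0, 0, 0, 0, 0, 0], [2, 2, 2, 0, 0, 0, 0, 0, 0], [1]), ([1, 1, 1, 1, 0, 0, 0, 0, 0], [2, 1, 1, 1, 1, 0, 0, 0, 0], [1]), ([2, 2, 1, 1, 0, 0, 0, 0, 0], [2, 2, 2, 2, 2, 2, 2, 0, 0], [1]), ([2, 2, 2, 2, 2, 2, 1, 1, 0], [2, 2, 2, 2, 2, 2, 2, 1, 1], [1]), ([2, 2, 2, 2, 2, 2, 2, 2, 0], [2, 2, 2, 2, 2, 2, 2, 2, 2], [1])],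
      [(0, [1], [1]), (1, [1], [1]), (2, [1], [1]), (3, [1, 32, 1], [1]), (3, [1, 32, 1], [1, 15, 1]), (1, [1], [1]), (3, [1], [1]), (3, [1], [1]), (3, [1], [1, 15, 1]), (3, [1], [1]), (3, [1], [1]), (3, [1], [2, 11, 1, 26, 1]), (3, [1], [1]), (4, [1], [1]), (5, [1], [1])],
      [(11, [1], [1], [(0, [2, 13, 1, 21, 1])]), (8, [2, 8, 1, 15, 1], [1, 15, 1], [(4, [2, 9, 1, 27, 1]), (5, [14, 7, 2, 11, 1, 12, 1, 19, 3, 22, 4, 25, 2, 29, 1]), (2, [1, 30, 1])]), (3, [4, 4, 1, 6, 1, 18, 1, 28, 1], [1], [])]),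
     (1, [([0, 0, 0, 0, 0, 0, 0, 0, 0], [2, 0, 0, 0, 0, 0, 0, 0, 0], [1]), ([1, 1, 0, 0, 0, 0, 0, 0, 0], [2, 2, 2, 0, 0, 0, 0, 0, 0], [1]), ([1, 1, 1, 1, 0, 0, 0, 0, 0], [2, 1, 1, 1, 1, 0, 0, 0, 0], [1]), ([2, 2, 1, 1, 0, 0, 0, 0, 0], [2, 2, 2, 2, 2, 2, 2, 0, 0], [1]), ([2, 2, 2, 2, 2, 2, 1, 1, 0], [2, 2, 2, 2, 2, 2, 2, 1, 1], [1]), ([2, 2, 2, 2, 2, 2, 2, 2, 0], [2, 2, 2, 2, 2, 2, 2, 2, 2], [1])],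
      [(0, [1], [1]), (1, [1], [1]), (2, [1], [1]), (3, [1, 32, 1], [1]), (3, [1, 32, 1], [1, 15, 1]), (1, [1], [1]), (3, [1], [1]), (3, [1], [1]), (3, [1], [1, 15, 1]), (3, [1], [1]), (3, [1], [1]), (3, [1], [2, 11, 1, 26, 1]), (3, [1], [1]), (4, [1], [1]), (5, [1], [1])],
      [(11, [1], [1], [(7, [14, 7, 2, 11, 1, 12, 1, 19, 3, 22, 4, 25, 2, 29, 1])]), (8, [2, 10, 1, 24, 1], [1, 15, 1], [(4, [2, 9, 1, 27, 1]), (5, [14, 7, 2, 11, 1, 12, 1, 19, 3, 22, 4, 25, 2, 29, 1]), (2, [1, 30, 1])]), (3, [4, 4, 1, 6, 1, 18, 1, 28, 1], [1], [])])] [1, 31, 2]))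
   (.split [0, 0, 0, 0, 0, 0, 1, -1, 0]
    (.leaf [(1, [([0, 0, 0, 0, 0, 0, 0, 0, 0], [2, 0, 0, 0, 0, 0, 0, 0, 0], [1]), ([1, 1, 0, 0, 0, 0, 0, 0, 0], [2, 2, 2, 0, 0, 0, 0, 0, 0], [1]), ([1, 1, 1, 1, 0, 0, 0, 0, 0], [2, 1, 1, 1, 1, 0, 0, 0, 0], [1]), ([1, 1, 1, 1, 1, 1, 0, 0, 0], [2, 2, 2, 1, 1, 1, 1, 0, 0], [1]), ([2, 2, 1, 1, 1, 1, 1, 1, 0], [2, 2, 2, 2, 2, 2, 2, 0, 0], [1, 15, 1]), ([2, 2, 2, 2, 2, 2, 1, 1, 0], [2, 2, 2, 2, 2, 2, 2, 1, 1], [1]), ([2, 2, 2, 2, 2, 2, 2, 2, 0], [2, 2, 2, 2, 2, 2, 2, 2, 2], [1])],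
      [(0, [1], [1]), (1, [1], [1]), (2, [1], [1]), (3, [1], [1]), (3, [1], [4, 7, 1, 14, 1, 28, 1, 29, 1]), (1, [1], [1]), (3, [1, 32, 1], [1]), (3, [1], [1]), (4, [1], [1, 15, 1]), (4, [4, 10, 1, 18, 1, 20, 1, 29, 1], [1]), (4, [2, 20, 1, 33, 1], [1]), (4, [1], [2, 11, 1, 26, 1]), (4, [2, 10, 1, 28, 1], [1]), (5, [1], [1]), (6, [1], [1])],
      [(13, [1], [1], [(0, [1, 30, 1])]), (8, [2, 8, 1, 15, 1], [1, 15, 1], [(4, [2, 9, 1, 27, 1]), (5, [14, 7, 2, 11, 1, 12, 1, 19, 3, 22, 4, 25, 2, 29, 1]), (2, [1, 30, 1])]), (3, [4, 4, 1, 6, 1, 18, 1, 28, 1], [1], [])])] [1, 31, 1, 33, 1])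
    (.leaf [(1, [([0, 0, 0, 0, 0, 0, 0, 0, 0], [2, 0, 0, 0, 0, 0, 0, 0, 0], [1]), ([1, 1, 0, 0, 0, 0, 0, 0, 0], [2, 2, 2, 0, 0, 0, 0, 0, 0], [1]), ([1, 1, 1, 1, 0, 0, 0, 0, 0], [2, 1, 1, 1, 1, 0, 0, 0, 0], [1]), ([1, 1, 1, 1, 1, 1, 0, 0, 0], [2, 2, 2, 1, 1, 1, 1, 0, 0], [1]), ([2, 2, 1, 1, 1, 1, 1, 1, 0], [2, 2, 2, 2, 2, 2, 2, 1, 1], [1]), ([2, 2, 2, 2, 2, 2, 2, 2, 0], [2, 2, 2, 2, 2, 2, 2, 2, 2], [1])],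
      [(0, [1], [1]), (1, [1], [1]), (2, [1], [1]), (3, [1], [1]), (3, [1], [4, 7, 1, 14, 1, 28, 1, 29, 1]), (1, [1], [1]), (3, [1, 32, 1], [1]), (3, [1], [1]), (4, [1], [1]), (4, [4, 10, 1, 18, 1, 20, 1, 29, 1], [1]), (4, [3, 15, 1, 18, 1, 20, 1], [1]), (4, [1], [1]), (4, [2, 10, 1, 28, 1], [1]), (4, [1], [1]), (5, [1], [1])],
      [(13, [1], [1], [(0, [1, 30, 1])]), (8, [2, 8, 1, 15, 1], [1, 15, 1], [(4, [2, 9, 1, 27, 1]), (5, [14, 7, 2, 11, 1, 12, 1, 19, 3, 22, 4, 25, 2, 29, 1]), (2, [1, 30, 1])]), (3, [4, 4, 1, 6, 1, 18, 1, 28, 1], [1], [])])] [1, 31, 1])))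

def cert14 : Cert :=
  (.split [0, 0, 0, 0, 0, 0, 1, -1, 0]
   (.leaf [(1, [([0, 0, 0, 0, 0, 0, 0, 0, 0], [2, 2, 2, 0, 0, 0, 0, 0, 0], [1]), ([1, 1, 1, 1, 0, 0, 0, 0, 0], [2, 2, 2, 1, 1, 1, 1, 0, 0], [1]), ([2, 2, 1, 1, 1, 1, 1, 1, 0], [2, 2, 2, 2, 2, 2, 2, 0, 0], [1, 15, 1]), ([2, 2, 2, 2, 2, 2, 1, 1, 0], [2, 2, 2, 2, 2, 2, 2, 1, 1], [1]), ([2, 2, 2, 2, 2, 2, 2, 2, 0], [2, 2, 2, 2, 2, 2, 2, 2, 2], [1])],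
     [(0, [1], [1]), (0, [1], [1]), (1, [1], [1]), (1, [1], [1]), (1, [1], [4, 7, 1, 14, 1, 28, 1, 29, 1]), (0, [1], [1]), (1, [1], [1]), (1, [1], [1]), (2, [1], [1, 15, 1]), (2, [4, 10, 1, 18, 1, 20, 1, 29, 1], [1]), (2, [2, 20, 1, 32, 1], [1]), (2, [1], [2, 11, 1, 26, 1]), (2, [2, 10, 1, 28, 1], [1]), (3, [1], [1]), (4, [1], [1])],
     [(13, [1], [1], [(7, [120, 7, 19, 12, 37, 16, 18, 19, 4, 22, 4, 25, 36, 29, 19, 31, 17]), (9, [2, 11, 1, 26, 1])]), (8, [2, 15, 1, 17, 1], [1, 15, 1], [(4, [2, 9, 1, 27, 1]), (5, [14, 7, 2, 11, 1, 12, 1, 19, 3, 22, 4, 25, 2, 29, 1]), (2, [1, 30, 1])]), (3, [4, 4, 1, 6, 1, 18, 1, 28, 1], [1], [])])] [1, 31, 1, 32, 1])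
   (.split [0, 0, 0, 1, 0, 0, -1, -1, -1]
    (.leaf [(2, [([0, 0, 0, 0, 0, 0, 0, 0, 0], [2, 2, 2, 0, 0, 0, 0, 0, 0], [1]), ([1, 1, 1, 1, 0, 0, 0, 0, 0], [2, 2, 2, 2, 2, 2, 2, 1, 1], [1]), ([2, 2, 2, 2, 2, 2, 2, 2, 0], [2, 2, 2, 2, 2, 2, 2, 2, 2], [1])],
      [(0, [1], [1]), (0, [1], [1]), (1, [1], [1]), (1, [1], [1]), (1, [1], [1]), (0, [1], [1]), (1, [1], [1]), (1, [1], [1]), (1, [1], [1]), (1, [1], [1]), (1, [1], [1]), (1, [1], [1]), (1, [1], [1]), (1, [1], [1]), (2, [1], [1])],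
      [(13, [1], [1], [(9, [1, 32, 1]), (4, [1, 33, 1]), (5, [14, 7, 2, 11, 1, 12, 1, 19, 3, 22, 4, 25, 2, 29, 1]), (6, [2, 20, 1, 33, 1])]), (3, [4, 6, 1, 15, 1, 23, 1, 28, 1], [1], [])])] [1, 10, 2, 17, 2, 20, 1, 31, 2, 33, 1])
    (.leaf [(1, [([0, 0, 0, 0, 0, 0, 0, 0, 0], [2, 2, 2, 0, 0, 0, 0, 0, 0], [1]), ([1, 1, 1, 1, 0, 0, 0, 0, 0], [2, 2, 2, 1, 1, 1, 1, 0, 0], [1]), ([2, 2, 1, 1, 1, 1, 1, 1, 0], [2, 2, 2, 2, 2, 2, 2, 1, 1], [1]), ([2, 2, 2, 2, 2, 2, 2, 2, 0], [2, 2, 2, 2, 2, 2, 2, 2, 2], [1])],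
      [(0, [1], [1]), (0, [1], [1]), (1, [1], [1]), (1, [1], [1]), (1, [1], [4, 7, 1, 14, 1, 28, 1, 29, 1]), (0, [1], [1]), (1, [1], [1]), (1, [1], [1]), (2, [1], [1]), (2, [4, 10, 1, 18, 1, 20, 1, 29, 1], [1]), (2, [1, 33, 1], [1]), (2, [1], [1]), (2, [1, 33, 1], [1]), (2, [1], [1]), (3, [1], [1])],
      [(13, [1], [1], [(9, [1, 32, 1])]), (8, [2, 15, 1, 17, 1], [1, 15, 1], [(4, [2, 9, 1, 27, 1]), (5, [14, 7, 2, 11, 1, 12, 1, 19, 3, 22, 4, 25, 2, 29, 1]), (2, [1, 30, 1])]), (3, [4, 4, 1, 6, 1, 18, 1, 28, 1], [1], [])])] [1, 31, 1])))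

def cert15 : Cert :=
  (.split [0, 0, 1, 0, 0, 0, 0, -1, 0]
   (.leaf [(1, [([0, 0, 0, 0, 0, 0, 0, 0, 0], [2, 0, 0, 0, 0, 0, 0, 0, 0], [1]), ([1, 1, 0, 0, 0, 0, 0, 0, 0], [2, 2, 2, 0, 0, 0, 0, 0, 0], [1]), ([1, 1, 1, 1, 0, 0, 0, 0, 0], [2, 2, 2, 1, 1, 1, 1, 0, 0], [1]), ([2, 2, 1, 1, 1, 1, 1, 1, 0], [2, 2, 2, 2, 2, 2, 2, 0, 0], [1, 15, 1]), ([2, 2, 2, 2, 2, 2, 1, 1, 0], [2, 2, 2, 2, 2, 2, 2, 1, 1], [1]), ([2, 2, 2, 2, 2, 2, 2, 2, 0], [2, 2, 2, 2, 2, 2, 2, 2, 2], [1])],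
     [(0, [1], [1]), (1, [1], [1]), (2, [1], [1]), (2, [1], [1]), (2, [1], [4, 7, 1, 14, 1, 28, 1, 29, 1]), (1, [1], [1]), (2, [1], [1]), (2, [1], [1]), (3, [1], [1, 15, 1]), (3, [4, 10, 1, 18, 1, 20, 1, 29, 1], [1]), (3, [1, 20, 1, 32, 1], [1]), (3, [1], [2, 11, 1, 26, 1]), (3, [2, 10, 1, 28, 1], [1]), (4, [1], [1]), (5, [1], [1])],
     [(11, [1], [1], [(0, [2, 13, 1, 21, 1])]), (4, [2, 10, 1, 15, 1], [1], [(5, [14, 7, 2, 11, 1, 12, 1, 19, 3, 22, 4, 25, 2, 29, 1]), (2, [1, 30, 1]), (6, [3, 20, 1, 25, 1])]), (3, [4, 6, 1, 15, 1, 23, 1, 28, 1], [1], [])])] [1, 20, 1, 31, 2, 32, 4])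
   (.leaf [(1, [([0, 0, 0, 0, 0, 0, 0, 0, 0], [2, 0, 0, 0, 0, 0, 0, 0, 0], [1]), ([1, 1, 0, 0, 0, 0, 0, 0, 0], [2, 2, 2, 0, 0, 0, 0, 0, 0], [1]), ([1, 1, 1, 1, 0, 0, 0, 0, 0], [2, 2, 2, 2, 2, 2, 2, 1, 1], [1]), ([2, 2, 2, 2, 2, 2, 2, 2, 0], [2, 2, 2, 2, 2, 2, 2, 2, 2], [1])],
     [(0, [1], [1]), (1, [1], [1]), (2, [1], [1]), (2, [1], [1]), (2, [1], [1]), (1, [1], [1]), (2, [1], [1]), (2, [1], [1]), (2, [1], [1]), (2, [1], [1]), (2, [1], [1]), (2, [1], [1]), (2, [1], [1]), (2, [1], [1]), (3, [1], [1])],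
     [(11, [1], [1], [(0, [2, 13, 1, 21, 1])]), (4, [2, 10, 1, 15, 1], [1], [(5, [14, 7, 2, 11, 1, 12, 1, 19, 3, 22, 4, 25, 2, 29, 1]), (6, [1, 32, 1])]), (3, [4, 6, 1, 15, 1, 23, 1, 28, 1], [1], [])])] [1, 31, 1]))

def cert16 : Cert :=
  (.split [0, 0, 1, 0, 0, 0, 0, -1, 0]
   (.split [-1, -1, 0, 0, 1, 1, 0, 0, 0]
    (.leaf [(1, [([0, 0, 0, 0, 0, 0, 0, 0, 0], [2, 0, 0, 0, 0, 0, 0, 0, 0], [1]), ([1, 1, 0, 0, 0, 0, 0, 0, 0], [2, 2, 2, 0, 0, 0, 0, 0, 0], [1]), ([1, 1, 1, 1, 0, 0, 0, 0, 0], [2, 2, 2, 1, 1, 1, 1, 0, 0], [1]), ([2, 2, 1, 1, 1, 1, 1, 1, 0], [2, 2, 2, 2, 2, 0, 0, 0, 0], [2, 12, 1, 28, 1]), ([2, 2, 2, 2, 1, 1, 0, 0, 0], [2, 2, 2, 2, 2, 2, 2, 0, 0], [1]), ([2, 2, 2, 2, 2, 2, 1, 1, 0], [2, 2, 2, 2, 2, 2, 2, 1, 1], [1]), ([2, 2, 2, 2,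 2, 2, 2, 2, 0], [2, 2, 2, 2, 2, 2, 2, 2, 2], [1])],
      [(0, [1], [1]), (1, [1], [1]), (2, [1], [1]), (2, [1], [1]), (2, [1], [4, 7, 1, 14, 1, 28, 1, 29, 1]), (1, [1], [1]), (2, [1], [1]), (2, [1], [1]), (3, [1], [2, 12, 1, 28, 1]), (3, [4, 10, 1, 18, 1, 20, 1, 29, 1], [1]), (4, [1], [1]), (4, [1], [2, 11, 1, 26, 1]), (4, [1], [1]), (5, [1], [1]), (6, [1], [1])],
      [(11, [1], [1], [(0, [2, 13, 1, 21, 1])]), (8, [2, 8, 1, 15, 1], [1], [(4, [2, 9, 1, 27, 1]), (5, [14, 7, 2, 11, 1, 12, 1, 19, 3, 22, 4, 25, 2, 29, 1]), (2, [1, 30, 1]), (6, [3, 20, 1, 25, 1])]), (3, [4, 6, 1, 15, 1, 23, 1, 28, 1], [1], [])])] [1, 31, 1])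
    (.leaf [(1, [([0, 0, 0, 0, 0, 0, 0, 0, 0], [2, 0, 0, 0, 0, 0, 0, 0, 0], [1]), ([1, 1, 0, 0, 0, 0, 0, 0, 0], [2, 2, 2, 0, 0, 0, 0, 0, 0], [1]), ([1, 1, 1, 1, 0, 0, 0, 0, 0], [2, 2, 2, 1, 1, 1, 1, 0, 0], [1]), ([2, 2, 1, 1, 1, 1, 1, 1, 0], [2, 2, 2, 2, 2, 0, 0, 0, 0], [2, 12, 1, 28, 1]), ([2, 2, 2, 2, 1, 1, 0, 0, 0], [2, 2, 2, 2, 2, 2, 2, 0, 0], [1]), ([2, 2, 2, 2, 2, 2, 1, 1, 0], [2, 2, 2, 2, 2, 2, 2, 1, 1], [1]), ([2, 2, 2, 2, 2, 2, 2, 2, 0], [2, 2, 2, 2, 2, 2, 2, 2, 2], [1])],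
      [(0, [1], [1]), (1, [1], [1]), (2, [1], [1]), (2, [1], [1]), (2, [1], [4, 7, 1, 14, 1, 28, 1, 29, 1]), (1, [1], [1]), (2, [1], [1]), (2, [1], [1]), (3, [1], [2, 12, 1, 28, 1]), (3, [4, 10, 1, 18, 1, 20, 1, 29, 1], [1]), (4, [1], [1]), (4, [1], [2, 11, 1, 26, 1]), (4, [1], [1]), (5, [1], [1]), (6, [1], [1])],
      [(11, [1], [1], [(0, [2, 13, 1, 21, 1])]), (8, [2, 8, 1, 15, 1], [1], [(4, [2, 9, 1, 27, 1]), (5, [14, 7, 2, 11, 1, 12, 1, 19, 3, 22, 4, 25, 2, 29, 1]), (2, [1, 30, 1]), (6, [3, 20, 1, 25, 1])]), (3, [4, 6, 1, 15, 1, 23, 1, 28, 1], [1], [])])] [1, 31, 1]))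
   (.split [-1, -1, 0, 0, 1, 1, 0, 0, 0]
    (.leaf [(1, [([0, 0, 0, 0, 0, 0, 0, 0, 0], [2, 0, 0, 0, 0, 0, 0, 0, 0], [1]), ([1, 1, 0, 0, 0, 0, 0, 0, 0], [2, 2, 2, 0, 0, 0, 0, 0, 0], [1]), ([1, 1, 1, 1, 0, 0, 0, 0, 0], [2, 2, 2, 2, 2, 0, 0, 0, 0], [1]), ([2, 2, 2, 2, 1, 1, 0, 0, 0], [2, 2, 2, 2, 2, 2, 2, 0, 0], [1]), ([2, 2, 2, 2, 2, 2, 1, 1, 0], [2, 2, 2, 2, 2, 2, 2, 1, 1], [1]), ([2, 2, 2, 2, 2, 2, 2, 2, 0], [2, 2, 2, 2, 2, 2, 2, 2, 2], [1])],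
      [(0, [1], [1]), (1, [1], [1]), (2, [1], [1]), (2, [1], [2, 10, 1, 22, 1]), (2, [1], [2, 12, 1, 28, 1]), (1, [1], [1]), (2, [1], [1]), (2, [1], [2, 12, 1, 28, 1]), (2, [1], [2, 12, 1, 28, 1]), (2, [1], [1]), (3, [1], [1]), (3, [1], [2, 11, 1, 26, 1]), (3, [1], [1]), (4, [1], [1]), (5, [1], [1])],
      [(11, [1], [1], [(0, [2, 13, 1, 21, 1])]), (8, [2, 8, 1, 15, 1], [1], [(4, [2, 9, 1, 27, 1]), (5, [14, 7, 2, 11, 1, 12, 1, 19, 3, 22, 4, 25, 2, 29, 1]), (6, [1, 32, 1])]), (3, [4, 6, 1, 15, 1, 23, 1, 28, 1], [1], [])])] [1, 31, 1, 32, 1])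
    (.leaf [(1, [([0, 0, 0, 0, 0, 0, 0, 0, 0], [2, 0, 0, 0, 0, 0, 0, 0, 0], [1]), ([1, 1, 0, 0, 0, 0, 0, 0, 0], [2, 2, 2, 0, 0, 0, 0, 0, 0], [1]), ([1, 1, 1, 1, 0, 0, 0, 0, 0], [2, 2, 2, 2, 2, 0, 0, 0, 0], [1]), ([2, 2, 2, 2, 1, 1, 0, 0, 0], [2, 2, 2, 2, 2, 2, 2, 0, 0], [1]), ([2, 2, 2, 2, 2, 2, 1, 1, 0], [2, 2, 2, 2, 2, 2, 2, 1, 1], [1]), ([2, 2, 2, 2, 2, 2, 2, 2, 0], [2, 2, 2, 2, 2, 2, 2, 2, 2], [1])],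
      [(0, [1], [1]), (1, [1], [1]), (2, [1], [1]), (2, [1], [2, 10, 1, 22, 1]), (2, [1], [2, 12, 1, 28, 1]), (1, [1], [1]), (2, [1], [1]), (2, [1], [2, 12, 1, 28, 1]), (2, [1], [2, 12, 1, 28, 1]), (2, [1], [1]), (3, [1], [1]), (3, [1], [2, 11, 1, 26, 1]), (3, [1], [1]), (4, [1], [1]), (5, [1], [1])],
      [(11, [1], [1], [(0, [2, 13, 1, 21, 1])]), (8, [2, 8, 1, 15, 1], [1], [(4, [2, 9, 1, 27, 1]), (5, [14, 7, 2, 11, 1, 12, 1, 19, 3, 22, 4, 25, 2, 29, 1]), (6, [1, 32, 1])]), (3, [4, 6, 1, 15, 1, 23, 1, 28, 1], [1], [])])] [1, 31, 1, 32, 1])))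

def cert17 : Cert :=
  (.split [0, 0, 0, 0, 0, 0, 1, -1, 0]
   (.leaf [(2, [([0, 0, 0, 0, 0, 0, 0, 0, 0], [2, 0, 0, 0, 0, 0, 0, 0, 0], [1]), ([1, 1, 0, 0, 0, 0, 0, 0, 0], [2, 2, 2, 0, 0, 0, 0, 0, 0], [1]), ([1, 1, 1, 1, 0, 0, 0, 0, 0], [2, 2, 2, 1, 1, 1, 1, 0, 0], [1]), ([2, 2, 1, 1, 1, 1, 1, 1, 0], [2, 2, 2, 2, 2, 2, 2, 0, 0], [1, 15, 1]), ([2, 2, 2, 2, 2, 2, 1, 1, 0], [2, 2, 2, 2, 2, 2, 2, 1, 1], [1]), ([2, 2, 2, 2, 2, 2, 2, 2, 0], [2, 2, 2, 2, 2, 2, 2, 2, 2], [1])],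
     [(0, [1], [1]), (1, [1], [1]), (2, [1], [1]), (2, [1], [1]), (2, [1], [4, 7, 1, 14, 1, 28, 1, 29, 1]), (1, [1], [1]), (2, [1], [1]), (2, [1], [1]), (3, [1], [1, 15, 1]), (3, [4, 10, 1, 18, 1, 20, 1, 29, 1], [1]), (3, [2, 20, 1, 32, 1], [1]), (3, [1], [2, 11, 1, 26, 1]), (3, [2, 10, 1, 28, 1], [1]), (4, [1], [1]), (5, [1], [1])],
     [(13, [1], [1], [(0, [1, 30, 1]), (9, [1, 14, 1, 31, 1])]), (8, [2, 15, 1, 17, 1], [1, 15, 1], [(4, [2, 9, 1, 27, 1]), (5, [14, 7, 2, 11, 1, 12, 1, 19, 3, 22, 4, 25, 2, 29, 1]), (2, [1, 30, 1])]), (3, [4, 4, 1, 6, 1, 18, 1, 28, 1], [1], [])])] [1, 8, 1, 26, 1, 31, 4, 32, 5])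
   (.leaf [(1, [([0, 0, 0, 0, 0, 0, 0, 0, 0], [2, 0, 0, 0, 0, 0, 0, 0, 0], [1]), ([1, 1, 0, 0, 0, 0, 0, 0, 0], [2, 2, 2, 0, 0, 0, 0, 0, 0], [1]), ([1, 1, 1, 1, 0, 0, 0, 0, 0], [2, 2, 2, 2, 2, 2, 2, 1, 1], [1]), ([2, 2, 2, 2, 2, 2, 2, 2, 0], [2, 2, 2, 2, 2, 2, 2, 2, 2], [1])],
     [(0, [1], [1]), (1, [1], [1]), (2, [1], [1]), (2, [1], [1]), (2, [1], [1]), (1, [1], [1]), (2, [1], [1]), (2, [1], [1]), (2, [1], [1]), (2, [1], [1]), (2, [1], [1]), (2, [1], [1]), (2, [1], [1]), (2, [1], [1]), (3, [1], [1])],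
     [(13, [1], [1], [(9, [1, 32, 1])]), (8, [2, 15, 1, 17, 1], [1, 15, 1], [(4, [2, 9, 1, 27, 1]), (5, [14, 7, 2, 11, 1, 12, 1, 19, 3, 22, 4, 25, 2, 29, 1]), (2, [1, 30, 1])]), (3, [4, 4, 1, 6, 1, 18, 1, 28, 1], [1], [])])] [1, 31, 1]))

def cert18 : Cert :=
  (.split [0, 0, 0, 0, 0, -1, 1, 0, 0]
   (.split [0, 0, 1, 0, 0, 0, 0, -1, 0]
    (.leaf [(4, [([0, 0, 0, 0, 0, 0, 0, 0, 0], [2, 0, 0, 0, 0, 0, 0, 0, 0], [1]), ([1, 1, 0, 0, 0, 0, 0, 0, 0], [2, 2, 2, 0, 0, 0, 0, 0, 0], [1]), ([1, 1, 1, 1, 0, 0, 0, 0, 0], [2, 1, 1, 1, 1, 0, 0, 0, 0], [1]), ([2, 2, 1, 1, 0, 0, 0, 0, 0], [2, 2, 2, 1, 1, 1, 1, 0, 0], [1]), ([2, 2, 1, 1, 1, 1, 1, 1, 0], [2, 2, 2, 2, 2, 0, 0, 0, 0], [2, 12, 1, 28, 1]), ([2, 2, 2, 2, 1, 1, 0, 0, 0], [2, 2, 2, 2, 2, 2, 2, 0, 0],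 [1]), ([2, 2, 2, 2, 2, 2, 1, 1, 0], [2, 2, 2, 2, 2, 2, 2, 1, 1], [1]), ([2, 2, 2, 2, 2, 2, 2, 2, 0], [2, 2, 2, 2, 2, 2, 2, 2, 2], [1])],
      [(0, [1], [1]), (1, [1], [1]), (2, [1], [1]), (3, [11, 7, 1, 12, 5, 16, 5, 19, 1, 21, 1, 22, 1, 32, 14], [1]), (3, [2, 8, 1, 15, 1], [4, 7, 1, 14, 1, 28, 1, 29, 1]), (1, [1], [1]), (3, [1], [1]), (3, [1], [1]), (4, [1], [2, 12, 1, 28, 1]), (4, [4, 10, 1, 18, 1, 20, 1, 29, 1], [1]), (5, [1], [1]), (5, [1], [2, 11, 1, 26, 1]), (5, [1], [1]), (6, [1], [1]), (7, [1], [1])],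
      [(11, [1], [1], [(7, [14, 7, 2, 11, 1, 12, 1, 19, 3, 22, 4, 25, 2, 29, 1])]), (4, [2, 15, 1, 18, 1], [1], [(5, [14, 7, 2, 11, 1, 12, 1, 19, 3, 22, 4, 25, 2, 29, 1]), (2, [1, 30, 1])]), (3, [4, 4, 1, 6, 1, 18, 1, 28, 1], [1], [])])] [1, 5, 1, 11, 2, 23, 1, 25, 2, 29, 1, 31, 3, 32, 8, 33, 7])
    (.leaf [(1, [([0, 0, 0, 0, 0, 0, 0, 0, 0], [2, 0, 0, 0, 0, 0, 0, 0, 0], [1]), ([1, 1, 0, 0, 0, 0, 0, 0, 0], [2, 2, 2, 0, 0, 0, 0, 0, 0], [1]), ([1, 1, 1, 1, 0, 0, 0, 0, 0], [2, 2, 2, 2, 2, 0, 0, 0, 0], [1]), ([2, 2, 2, 2, 1, 1, 0, 0, 0], [2, 2, 2, 2, 2, 1, 1, 0, 0], [1]), ([2, 2, 2, 2, 2, 2, 0, 0, 0], [2, 2, 2, 2, 2, 2, 2, 0, 0], [1]), ([2, 2, 2, 2, 2, 2, 1, 1, 0], [2, 2, 2, 2, 2, 2, 2, 1, 1], [1]), ([2, 2, 2, 2, 2, 2, 2, 2, 0], [2, 2, 2, 2, 2, 2,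 2, 2, 2], [1])],
      [(0, [1], [1]), (1, [1], [1]), (2, [1], [1]), (2, [1], [2, 10, 1, 22, 1]), (2, [1], [2, 12, 1, 28, 1]), (1, [1], [1]), (2, [1], [1]), (2, [1], [2, 12, 1, 28, 1]), (2, [1], [2, 12, 1, 28, 1]), (2, [1], [1]), (3, [1], [1]), (4, [1, 10, 1, 25, 1], [2, 11, 1, 26, 1]), (4, [1], [1]), (5, [1], [1]), (6, [1], [1])],
      [(11, [1], [1], [(7, [14, 7, 2, 11, 1, 12, 1, 19, 3, 22, 4, 25, 2, 29, 1])]), (4, [2, 15, 1, 18, 1], [1], [(5, [14, 7, 2, 11, 1, 12, 1, 19, 3, 22, 4, 25, 2, 29, 1]), (6, [1, 33, 1])]), (3, [4, 6, 1, 15, 1, 23, 1, 28, 1], [1], [])]),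
     (1, [([0, 0, 0, 0, 0, 0, 0, 0, 0], [2, 0, 0, 0, 0, 0, 0, 0, 0], [1]), ([1, 1, 0, 0, 0, 0, 0, 0, 0], [2, 2, 2, 0, 0, 0, 0, 0, 0], [1]), ([1, 1, 1, 1, 0, 0, 0, 0, 0], [2, 2, 2, 2, 2, 0, 0, 0, 0], [1]), ([2, 2, 2, 2, 1, 1, 0, 0, 0], [2, 2, 2, 2, 2, 1, 1, 0, 0], [1]), ([2, 2, 2, 2, 2, 2, 0, 0, 0], [2, 2, 2, 2, 2, 2, 2, 0, 0], [1]), ([2, 2, 2, 2, 2, 2, 1, 1, 0], [2, 2, 2, 2, 2, 2, 2, 1, 1], [1]), ([2, 2, 2, 2, 2, 2, 2, 2, 0], [2, 2, 2, 2, 2, 2, 2, 2, 2], [1])],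
      [(0, [1], [1]), (1, [1], [1]), (2, [1], [1]), (2, [1], [2, 10, 1, 22, 1]), (2, [1], [2, 12, 1, 28, 1]), (1, [1], [1]), (2, [1], [1]), (2, [1], [2, 12, 1, 28, 1]), (2, [1], [2, 12, 1, 28, 1]), (2, [1], [1]), (3, [1], [1]), (4, [1, 10, 1, 25, 1], [2, 11, 1, 26, 1]), (4, [1], [1]), (5, [1], [1]), (6, [1], [1])],
      [(11, [1], [1], [(7, [14, 7, 2, 11, 1, 12, 1, 19, 3, 22, 4, 25, 2, 29, 1])]), (8, [2, 10, 1, 24, 1], [1, 15, 1], [(4, [2, 9, 1, 27, 1]), (5, [14, 7, 2, 11, 1, 12, 1, 19, 3, 22, 4, 25, 2, 29, 1]), (2, [1, 30, 1])]), (3, [4, 4, 1, 6, 1, 18, 1, 28, 1], [1], [])])] [1, 10, 1, 31, 1, 32, 4]))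
   (.split [-1, -1, 0, 0, 1, 1, 0, 0, 0]
    (.split [0, 0, 0, 1, 0, 0, -1, -1, -1]
     (.leaf [(1, [([0, 0, 0, 0, 0, 0, 0, 0, 0], [2, 0, 0, 0, 0, 0, 0, 0, 0], [1]), ([1, 1, 0, 0, 0, 0, 0, 0, 0], [2, 2, 2, 0, 0, 0, 0, 0, 0], [1]), ([1, 1, 1, 1, 0, 0, 0, 0, 0], [2, 2, 2, 2, 2, 2, 2, 1, 1], [1]), ([2, 2, 2, 2, 2, 2, 2, 2, 0], [2, 2, 2, 2, 2, 2, 2, 2, 2], [1])],
       [(0, [1], [1]), (1, [1], [1]), (2, [1], [1]), (2, [1], [1]), (2, [1], [1]), (1, [1], [1]), (2, [1], [1]), (2, [1], [1]), (2, [1], [1]), (2, [1], [1]), (2, [1], [1]), (2, [1], [1]), (2, [1], [1]), (2, [1], [1]), (3, [1], [1])],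
       [(13, [1], [1], [(9, [3, 11, 1, 29, 1, 31, 1, 34, 1]), (4, [1, 34, 1]), (5, [14, 7, 2, 11, 1, 12, 1, 19, 3, 22, 4, 25, 2, 29, 1]), (2, [1, 30, 1])]), (3, [4, 4, 1, 6, 1, 18, 1, 28, 1], [1], [])])] [1, 15, 1])
     (.split [0, 0, 0, 0, 0, 0, 1, -1, 0]
      (.leaf [(2, [([0, 0, 0, 0, 0, 0, 0, 0, 0], [2, 0, 0, 0, 0, 0, 0, 0, 0], [1]), ([1, 1, 0, 0, 0, 0, 0, 0, 0], [2, 2, 2, 0, 0, 0, 0, 0, 0], [1]), ([1, 1, 1, 1, 0, 0, 0, 0, 0], [2, 2, 2, 1, 1, 1, 1, 0, 0], [1]), ([2, 2, 1, 1, 1, 1, 1, 1, 0], [2, 2, 2, 2, 2, 2, 2, 0, 0], [1, 15, 1]), ([2, 2, 2, 2, 2, 2, 1, 1, 0], [2, 2, 2, 2, 2, 2, 2, 1, 1], [1]), ([2, 2, 2, 2, 2, 2, 2, 2, 0], [2, 2, 2, 2, 2, 2, 2, 2, 2], [1])],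
        [(0, [1], [1]), (1, [1], [1]), (2, [1], [1]), (2, [1], [1]), (2, [1], [4, 7, 1, 14, 1, 28, 1, 29, 1]), (1, [1], [1]), (2, [1], [1]), (2, [1], [1]), (3, [1], [1, 15, 1]), (3, [4, 10, 1, 18, 1, 20, 1, 29, 1], [1]), (3, [1, 34, 1], [1]), (3, [1], [2, 11, 1, 26, 1]), (3, [1, 34, 1], [1]), (4, [1], [1]), (5, [1], [1])],
        [(13, [1], [1], [(7, [1, 32, 1])]), (4, [2, 15, 1, 18, 1], [1], [(5, [14, 7, 2, 11, 1, 12, 1, 19, 3, 22, 4, 25, 2, 29, 1]), (2, [1, 30, 1])]), (3, [4, 4, 1, 6, 1, 18, 1, 28, 1], [1], [])])] [1, 10, 1, 31, 3, 33, 2, 35, 4])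
      (.leaf [(1, [([0, 0, 0, 0, 0, 0, 0, 0, 0], [2, 0, 0, 0, 0, 0, 0, 0, 0], [1]), ([1, 1, 0, 0, 0, 0, 0, 0, 0], [2, 2, 2, 0, 0, 0, 0, 0, 0], [1]), ([1, 1, 1, 1, 0, 0, 0, 0, 0], [2, 2, 2, 2, 2, 2, 2, 1, 1], [1]), ([2, 2, 2, 2, 2, 2, 2, 2, 0], [2, 2, 2, 2, 2, 2, 2, 2, 2], [1])],
        [(0, [1], [1]), (1, [1], [1]), (2, [1], [1]), (2, [1], [1]), (2, [1], [1]), (1, [1], [1]), (2, [1], [1]), (2, [1], [1]), (2, [1], [1]), (2, [1], [1]), (2, [1], [1]), (2, [1], [1]), (2, [1], [1]), (2, [1], [1]), (3, [1], [1])],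
        [(13, [1], [1], [(7, [1, 32, 1])]), (4, [2, 15, 1, 18, 1], [1], [(5, [14, 7, 2, 11, 1, 12, 1, 19, 3, 22, 4, 25, 2, 29, 1]), (2, [1, 30, 1])]), (3, [4, 4, 1, 6, 1, 18, 1, 28, 1], [1], [])])] [1, 31, 1])))
    (.leaf [(1, [([0, 0, 0, 0, 0, 0, 0, 0, 0], [2, 0, 0, 0, 0, 0, 0, 0, 0], [1]), ([1, 1, 0, 0, 0, 0, 0, 0, 0], [2, 2, 2, 0, 0, 0, 0, 0, 0], [1]), ([1, 1, 1, 1, 0, 0, 0, 0, 0], [2, 2, 2, 2, 2, 2, 2, 1, 1], [1]), ([2, 2, 2, 2, 2, 2, 2, 2, 0], [2, 2, 2, 2, 2, 2, 2, 2, 2], [1])],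
      [(0, [1], [1]), (1, [1], [1]), (2, [1], [1]), (2, [1], [1]), (2, [1], [1]), (1, [1], [1]), (2, [1], [1]), (2, [1], [1]), (2, [1], [1]), (2, [1], [1]), (2, [1], [1]), (2, [1], [1]), (2, [1], [1]), (2, [1], [1]), (3, [1], [1])],
      [(11, [1], [1], [(7, [14, 7, 2, 11, 1, 12, 1, 19, 3, 22, 4, 25, 2, 29, 1])]), (4, [2, 15, 1, 18, 1], [1], [(5, [14, 7, 2, 11, 1, 12, 1, 19, 3, 22, 4, 25, 2, 29, 1]), (2, [1, 30, 1])]), (3, [4, 4, 1, 6, 1, 18, 1, 28, 1], [1], [])])] [1, 31, 1])))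

def cert19 : Cert :=
  (.split [0, 0, 0, 0, 0, -1, 1, 0, 0]
   (.leaf [(9, [([0, 0, 0, 0, 0, 0, 0, 0, 0], [2, 0, 0, 0, 0, 0, 0, 0, 0], [1]), ([1, 1, 0, 0, 0, 0, 0, 0, 0], [2, 2, 2, 0, 0, 0, 0, 0, 0], [1]), ([1, 1, 1, 1, 0, 0, 0, 0, 0], [2, 1, 1, 1, 1, 0, 0, 0, 0], [1]), ([2, 2, 1, 1, 0, 0, 0, 0, 0], [2, 2, 2, 2, 2, 0, 0, 0, 0], [1]), ([2, 2, 2, 2, 1, 1, 0, 0, 0], [2, 2, 2, 2, 2, 1, 1, 0, 0], [1]), ([2, 2, 2, 2, 2, 2, 0, 0, 0], [2, 2, 2, 2, 2, 2, 2, 0, 0], [1]), ([2, 2, 2, 2, 2, 2, 1, 1, 0], [2, 2, 2, 2, 2, 2, 2, 1, 1], [1]), ([2, 2, 2, 2, 2, 2, 2, 2, 0], [2, 2, 2, 2, 2, 2, 2, 2, 2], [1])],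
     [(0, [1], [1]), (1, [1], [1]), (2, [1], [1]), (3, [11, 7, 1, 12, 5, 16, 5, 19, 1, 21, 1, 22, 1, 32, 14], [2, 10, 1, 22, 1]), (3, [2, 8, 1, 15, 1], [2, 12, 1, 28, 1]), (1, [1], [1]), (3, [1], [1]), (3, [1], [2, 12, 1, 28, 1]), (3, [1], [2, 12, 1, 28, 1]), (3, [1], [1]), (4, [1], [1]), (5, [1, 10, 1, 25, 1], [2, 11, 1, 26, 1]), (5, [1], [1]), (6, [1], [1]), (7, [1], [1])],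
     [(11, [1], [1], [(7, [14, 7, 2, 11, 1, 12, 1, 19, 3, 22, 4, 25, 2, 29, 1])]), (4, [2, 15, 1, 18, 1], [1], [(5, [14, 7, 2, 11, 1, 12, 1, 19, 3, 22, 4, 25, 2, 29, 1]), (2, [1, 30, 1])]), (3, [4, 4, 1, 6, 1, 18, 1, 28, 1], [1], [])])] [1, 5, 3, 7, 2, 13, 1, 16, 1, 24, 1, 25, 7, 31, 6, 32, 27])
   (.split [-1, -1, 0, 0, 1, 1, 0, 0, 0]
    (.split [0, 0, 0, 0, 0, 0, 1, -1, 0]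
     (.leaf [(1, [([0, 0, 0, 0, 0, 0, 0, 0, 0], [2, 0, 0, 0, 0, 0, 0, 0, 0], [1]), ([1, 1, 0, 0, 0, 0, 0, 0, 0], [2, 2, 2, 0, 0, 0, 0, 0, 0], [1]), ([1, 1, 1, 1, 0, 0, 0, 0, 0], [2, 2, 2, 1, 1, 1, 1, 0, 0], [1]), ([2, 2, 1, 1, 1, 1, 1, 1, 0], [2, 2, 2, 2, 2, 0, 0, 0, 0], [2, 12, 1, 28, 1]), ([2, 2, 2, 2, 1, 1, 0, 0, 0], [2, 2, 2, 2, 2, 2, 2, 0, 0], [1]), ([2, 2, 2, 2, 2, 2, 1, 1, 0], [2, 2, 2, 2, 2, 2, 2, 1, 1], [1]), ([2, 2, 2, 2, 2, 2, 2, 2, 0], [2, 2, 2, 2, 2, 2, 2, 2, 2], [1])],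
       [(0, [1], [1]), (1, [1], [1]), (2, [1], [1]), (2, [1], [1]), (2, [1], [4, 7, 1, 14, 1, 28, 1, 29, 1]), (1, [1], [1]), (2, [1], [1]), (2, [1], [1]), (3, [1], [2, 12, 1, 28, 1]), (3, [4, 10, 1, 18, 1, 20, 1, 29, 1], [1]), (4, [1], [1]), (4, [1], [2, 11, 1, 26, 1]), (4, [1], [1]), (5, [1], [1]), (6, [1], [1])],
       [(13, [1], [1], [(7, [1, 32, 1])]), (8, [2, 10, 1, 24, 1], [1, 15, 1], [(4, [2, 9, 1, 27, 1]), (5, [14, 7, 2, 11, 1, 12, 1, 19, 3, 22, 4, 25, 2, 29, 1]), (2, [1, 30, 1])]), (3, [4, 4, 1, 6, 1, 18, 1, 28, 1], [1], [])])] [1, 31, 1, 34, 1])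
     (.leaf [(1, [([0, 0, 0, 0, 0, 0, 0, 0, 0], [2, 0, 0, 0, 0, 0, 0, 0, 0], [1]), ([1, 1, 0, 0, 0, 0, 0, 0, 0], [2, 2, 2, 0, 0, 0, 0, 0, 0], [1]), ([1, 1, 1, 1, 0, 0, 0, 0, 0], [2, 2, 2, 1, 1, 1, 1, 0, 0], [1]), ([2, 2, 1, 1, 1, 1, 1, 1, 0], [2, 2, 2, 2, 2, 0, 0, 0, 0], [2, 12, 1, 28, 1]), ([2, 2, 2, 2, 1, 1, 0, 0, 0], [2, 2, 2, 2, 2, 2, 2, 1, 1], [1]), ([2, 2, 2, 2, 2, 2, 2, 2, 0], [2, 2, 2, 2, 2, 2, 2, 2, 2], [1])],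
       [(0, [1], [1]), (1, [1], [1]), (2, [1], [1]), (2, [1], [1]), (2, [1], [4, 7, 1, 14, 1, 28, 1, 29, 1]), (1, [1], [1]), (2, [1], [1]), (2, [1], [1]), (3, [1], [2, 12, 1, 28, 1]), (3, [4, 10, 1, 18, 1, 20, 1, 29, 1], [1]), (4, [1], [1]), (4, [1], [1]), (4, [1], [1]), (4, [1], [1]), (5, [1], [1])],
       [(13, [1], [1], [(7, [1, 32, 1])]), (8, [2, 10, 1, 24, 1], [1, 15, 1], [(4, [2, 9, 1, 27, 1]), (5, [14, 7, 2, 11, 1, 12, 1, 19, 3, 22, 4, 25, 2, 29, 1]), (2, [1, 30, 1])]), (3, [4, 4, 1, 6, 1, 18, 1, 28, 1], [1], [])])] [1, 31, 1]))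
    (.split [0, 0, 0, 0, 0, 0, 1, -1, 0]
     (.leaf [(1, [([0, 0, 0, 0, 0, 0, 0, 0, 0], [2, 0, 0, 0, 0, 0, 0, 0, 0], [1]), ([1, 1, 0, 0, 0, 0, 0, 0, 0], [2, 2, 2, 0, 0, 0, 0, 0, 0], [1]), ([1, 1, 1, 1, 0, 0, 0, 0, 0], [2, 2, 2, 1, 1, 1, 1, 0, 0], [1]), ([2, 2, 1, 1, 1, 1, 1, 1, 0], [2, 2, 2, 2, 2, 0, 0, 0, 0], [2, 12, 1, 28, 1]), ([2, 2, 2, 2, 1, 1, 0, 0, 0], [2, 2, 2, 2, 2, 2, 2, 0, 0], [1]), ([2, 2, 2, 2, 2, 2, 1, 1, 0], [2, 2, 2, 2, 2, 2, 2, 1, 1], [1]), ([2, 2, 2, 2, 2, 2, 2, 2, 0], [2, 2, 2, 2, 2, 2, 2, 2, 2], [1])],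
       [(0, [1], [1]), (1, [1], [1]), (2, [1], [1]), (2, [1], [1]), (2, [1], [4, 7, 1, 14, 1, 28, 1, 29, 1]), (1, [1], [1]), (2, [1], [1]), (2, [1], [1]), (3, [1], [2, 12, 1, 28, 1]), (3, [4, 10, 1, 18, 1, 20, 1, 29, 1], [1]), (4, [1], [1]), (4, [1], [2, 11, 1, 26, 1]), (4, [1], [1]), (5, [1], [1]), (6, [1], [1])],
       [(13, [1], [1], [(7, [1, 32, 1])]), (8, [2, 10, 1, 24, 1], [1, 15, 1], [(4, [2, 9, 1, 27, 1]), (5, [14, 7, 2, 11, 1, 12, 1, 19, 3, 22, 4, 25, 2, 29, 1]), (2, [1, 30, 1])]), (3, [4, 4, 1, 6, 1, 18, 1, 28, 1], [1], [])])] [1, 31, 1, 34, 1])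
     (.leaf [(1, [([0, 0, 0, 0, 0, 0, 0, 0, 0], [2, 0, 0, 0, 0, 0, 0, 0, 0], [1]), ([1, 1, 0, 0, 0, 0, 0, 0, 0], [2, 2, 2, 0, 0, 0, 0, 0, 0], [1]), ([1, 1, 1, 1, 0, 0, 0, 0, 0], [2, 2, 2, 1, 1, 1, 1, 0, 0], [1]), ([2, 2, 1, 1, 1, 1, 1, 1, 0], [2, 2, 2, 2, 2, 0, 0, 0, 0], [2, 12, 1, 28, 1]), ([2, 2, 2, 2, 1, 1, 0, 0, 0], [2, 2, 2, 2, 2, 2, 2, 1, 1], [1]), ([2, 2, 2, 2, 2, 2, 2, 2, 0], [2, 2, 2, 2, 2, 2, 2, 2, 2], [1])],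
       [(0, [1], [1]), (1, [1], [1]), (2, [1], [1]), (2, [1], [1]), (2, [1], [4, 7, 1, 14, 1, 28, 1, 29, 1]), (1, [1], [1]), (2, [1], [1]), (2, [1], [1]), (3, [1], [2, 12, 1, 28, 1]), (3, [4, 10, 1, 18, 1, 20, 1, 29, 1], [1]), (4, [1], [1]), (4, [1], [1]), (4, [1], [1]), (4, [1], [1]), (5, [1], [1])],
       [(13, [1], [1], [(7, [1, 32, 1])]), (8, [2, 10, 1, 24, 1], [1, 15, 1], [(4, [2, 9, 1, 27, 1]), (5, [14, 7, 2, 11, 1, 12, 1, 19, 3, 22, 4, 25, 2, 29, 1]), (2, [1, 30, 1])]), (3, [4, 4, 1, 6, 1, 18, 1, 28, 1], [1], [])])] [1, 31, 1]))))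

def cert20 : Cert :=
  (.split [0, 0, 0, 1, 0, 0, -1, -1, -1]
   (.leaf [(1, [([0, 0, 0, 0, 0, 0, 0, 0, 0], [2, 0, 0, 0, 0, 0, 0, 0, 0], [1]), ([1, 1, 0, 0, 0, 0, 0, 0, 0], [2, 2, 2, 0, 0, 0, 0, 0, 0], [1]), ([1, 1, 1, 1, 0, 0, 0, 0, 0], [2, 2, 2, 2, 2, 2, 2, 1, 1], [1]), ([2, 2, 2, 2, 2, 2, 2, 2, 0], [2, 2, 2, 2, 2, 2, 2, 2, 2], [1])],
     [(0, [1], [1]), (1, [1], [1]), (2, [1], [1]), (2, [1], [1]), (2, [1], [1]), (1, [1], [1]), (2, [1], [1]), (2, [1], [1]), (2, [1], [1]), (2, [1], [1]), (2, [1], [1]), (2, [1], [1]), (2, [1], [1]), (2, [1], [1]), (3, [1], [1])],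
     [(13, [1], [1], [(9, [2, 15, 2, 20, 1, 32, 3]), (4, [1, 32, 1]), (5, [14, 7, 2, 11, 1, 12, 1, 19, 3, 22, 4, 25, 2, 29, 1]), (6, [2, 20, 1, 32, 1])]), (3, [4, 6, 1, 15, 1, 23, 1, 28, 1], [1], [])])] [1, 10, 1])
   (.split [0, 0, 0, 0, 0, 0, 1, -1, 0]
    (.leaf [(1, [([0, 0, 0, 0, 0, 0, 0, 0, 0], [2, 0, 0, 0, 0, 0, 0, 0, 0], [1]), ([1, 1, 0, 0, 0, 0, 0, 0, 0], [2, 2, 2, 0, 0, 0, 0, 0, 0], [1]), ([1, 1, 1, 1, 0, 0, 0, 0, 0], [2, 2, 2, 1, 1, 1, 1, 0, 0], [1]), ([2, 2, 1, 1, 1, 1, 1, 1, 0], [2, 2, 2, 2, 2, 2, 2, 0, 0], [1, 15, 1]), ([2, 2, 2, 2, 2, 2, 1, 1, 0], [2, 2, 2, 2, 2, 2, 2, 1, 1], [1]), ([2, 2, 2, 2, 2, 2, 2, 2, 0], [2, 2, 2, 2, 2, 2, 2, 2, 2], [1])],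
      [(0, [1], [1]), (1, [1], [1]), (2, [1], [1]), (2, [1], [1]), (2, [1], [4, 7, 1, 14, 1, 28, 1, 29, 1]), (1, [1], [1]), (2, [1], [1]), (2, [1], [1]), (3, [1], [1, 15, 1]), (3, [4, 10, 1, 18, 1, 20, 1, 29, 1], [1]), (3, [1, 32, 1], [1]), (3, [1], [2, 11, 1, 26, 1]), (3, [1, 32, 1], [1]), (4, [1], [1]), (5, [1], [1])],
      [(13, [1], [1], [(0, [1, 30, 1]), (9, [3, 20, 1, 25, 1])]), (4, [1, 32, 1], [1], [(5, [14, 7, 2, 11, 1, 12, 1, 19, 3, 22, 4, 25, 2, 29, 1]), (2, [1, 30, 1])]), (3, [4, 4, 1, 6, 1, 18, 1, 28, 1], [1], [])])] [1, 31, 1])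
    (.leaf [(1, [([0, 0, 0, 0, 0, 0, 0, 0, 0], [2, 0, 0, 0, 0, 0, 0, 0, 0], [1]), ([1, 1, 0, 0, 0, 0, 0, 0, 0], [2, 2, 2, 0, 0, 0, 0, 0, 0], [1]), ([1, 1, 1, 1, 0, 0, 0, 0, 0], [2, 2, 2, 1, 1, 1, 1, 0, 0], [1]), ([2, 2, 1, 1, 1, 1, 1, 1, 0], [2, 2, 2, 2, 2, 2, 2, 1, 1], [1]), ([2, 2, 2, 2, 2, 2, 2, 2, 0], [2, 2, 2, 2, 2, 2, 2, 2, 2], [1])],
      [(0, [1], [1]), (1, [1], [1]), (2, [1], [1]), (2, [1], [1]), (2, [1], [4, 7, 1, 14, 1, 28, 1, 29, 1]), (1, [1], [1]), (2, [1], [1]), (2, [1], [1]), (3, [1], [1]), (3, [4, 10, 1, 18, 1, 20, 1, 29, 1], [1]), (3, [1, 32, 1], [1]), (3, [1], [1]), (3, [1, 32, 1], [1]), (3, [1], [1]), (4, [1], [1])],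
      [(13, [1], [1], [(9, [1, 33, 1])]), (4, [1, 32, 1], [1], [(5, [14, 7, 2, 11, 1, 12, 1, 19, 3, 22, 4, 25, 2, 29, 1]), (2, [1, 30, 1])]), (3, [4, 4, 1, 6, 1, 18, 1, 28, 1], [1], [])])] [1, 31, 1, 33, 1])))

def cert21 : Cert :=
  (.split [1, 1, 0, 0, -1, -1, 0, 0, 0]
   (.leaf [(1, [([0, 0, 0, 0, 0, 0, 0, 0, 0], [2, 0, 0, 0, 0, 0, 0, 0, 0], [1]), ([1, 1, 0, 0, 0, 0, 0, 0, 0], [2, 2, 2, 0, 0, 0, 0, 0, 0], [1]), ([1, 1, 1, 1, 0, 0, 0, 0, 0], [2, 1, 1, 1, 1, 0, 0, 0, 0], [1]), ([2, 2, 1, 1, 0, 0, 0, 0, 0], [2, 2, 2, 1, 1, 1, 1, 0, 0], [1]), ([2, 2, 1, 1, 1, 1, 1, 1, 0], [2, 2, 2, 2, 2, 2, 2, 1, 1], [1]), ([2, 2, 2, 2, 2, 2, 2, 2, 0], [2, 2, 2, 2, 2, 2, 2, 2, 2], [1])],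
     [(0, [1], [1]), (1, [1], [1]), (2, [1], [1]), (3, [1, 32, 1], [1]), (3, [1, 32, 1], [4, 7, 1, 14, 1, 28, 1, 29, 1]), (1, [1], [1]), (3, [1], [1]), (3, [1], [1]), (4, [1], [1]), (4, [4, 10, 1, 18, 1, 20, 1, 29, 1], [1]), (4, [3, 15, 1, 18, 1, 20, 1], [1]), (4, [1], [1]), (4, [2, 10, 1, 28, 1], [1]), (4, [1], [1]), (5, [1], [1])],
     [(13, [1], [1], [(7, [2, 11, 1, 22, 1, 25, 1, 31, 1])]), (4, [2, 15, 1, 18, 1], [1], [(5, [14, 7, 2, 11, 1, 12, 1, 19, 3, 22, 4, 25, 2, 29, 1]), (2, [1, 30, 1]), (6, [3, 20, 1, 25, 1])]), (3, [4, 6, 1, 15, 1, 23, 1, 28, 1], [1], [])])] [1, 31, 1, 32, 1])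
   (.split [0, 0, 0, 1, 0, 0, -1, -1, -1]
    (.leaf [(1, [([0, 0, 0, 0, 0, 0, 0, 0, 0], [2, 0, 0, 0, 0, 0, 0, 0, 0], [1]), ([1, 1, 0, 0, 0, 0, 0, 0, 0], [2, 2, 2, 0, 0, 0, 0, 0, 0], [1]), ([1, 1, 1, 1, 0, 0, 0, 0, 0], [2, 2, 2, 2, 2, 2, 2, 1, 1], [1]), ([2, 2, 2, 2, 2, 2, 2, 2, 0], [2, 2, 2, 2, 2, 2, 2, 2, 2], [1])],
      [(0, [1], [1]), (1, [1], [1]), (2, [1], [1]), (2, [1], [1]), (2, [1], [1]), (1, [1], [1]), (2, [1], [1]), (2, [1], [1]), (2, [1], [1]), (2, [1], [1]), (2, [1], [1]), (2, [1], [1]), (2, [1], [1]), (2, [1], [1]), (3, [1], [1])],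
      [(13, [1], [1], [(9, [2, 15, 2, 20, 1, 33, 3]), (4, [1, 33, 1]), (5, [14, 7, 2, 11, 1, 12, 1, 19, 3, 22, 4, 25, 2, 29, 1]), (2, [1, 30, 1])]), (3, [4, 4, 1, 6, 1, 18, 1, 28, 1], [1], [])])] [1, 15, 1])
    (.split [0, 0, 0, 0, 0, 0, 1, -1, 0]
     (.leaf [(1, [([0, 0, 0, 0, 0, 0, 0, 0, 0], [2, 0, 0, 0, 0, 0, 0, 0, 0], [1]), ([1, 1, 0, 0, 0, 0, 0, 0, 0], [2, 2, 2, 0, 0, 0, 0, 0, 0], [1]), ([1, 1, 1, 1, 0, 0, 0, 0, 0], [2, 1, 1, 1, 1, 0, 0, 0, 0], [1]), ([1, 1, 1, 1, 1, 1, 0, 0, 0], [2, 2, 2, 1, 1, 1, 1, 0, 0], [1]), ([2, 2, 1, 1, 1, 1, 1, 1, 0], [2, 2, 2, 2, 2, 2, 2, 0, 0], [1, 15, 1]), ([2, 2, 2, 2, 2, 2, 1, 1, 0], [2, 2, 2, 2, 2, 2, 2, 1, 1], [1]), ([2, 2, 2, 2, 2, 2, 2, 2, 0], [2, 2, 2, 2, 2, 2, 2, 2, 2], [1])],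
       [(0, [1], [1]), (1, [1], [1]), (2, [1], [1]), (3, [1], [1]), (3, [1], [4, 7, 1, 14, 1, 28, 1, 29, 1]), (1, [1], [1]), (3, [1, 32, 1], [1]), (3, [1], [1]), (4, [1], [1, 15, 1]), (4, [4, 10, 1, 18, 1, 20, 1, 29, 1], [1]), (4, [1, 33, 1], [1]), (4, [1], [2, 11, 1, 26, 1]), (4, [1, 33, 1], [1]), (5, [1], [1]), (6, [1], [1])],
       [(13, [1], [1], [(7, [2, 11, 1, 22, 1, 25, 1, 31, 1]), (9, [2, 11, 1, 26, 1])]), (4, [1, 33, 1], [1], [(5, [14, 7, 2, 11, 1, 12, 1, 19, 3, 22, 4, 25, 2, 29, 1]), (2, [1, 30, 1])]), (3, [4, 4, 1, 6, 1, 18, 1, 28, 1], [1], [])])] [1, 31, 1, 34, 1])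
     (.leaf [(1, [([0, 0, 0, 0, 0, 0, 0, 0, 0], [2, 0, 0, 0, 0, 0, 0, 0, 0], [1]), ([1, 1, 0, 0, 0, 0, 0, 0, 0], [2, 2, 2, 0, 0, 0, 0, 0, 0], [1]), ([1, 1, 1, 1, 0, 0, 0, 0, 0], [2, 1, 1, 1, 1, 0, 0, 0, 0], [1]), ([1, 1, 1, 1, 1, 1, 0, 0, 0], [2, 2, 2, 1, 1, 1, 1, 0, 0], [1]), ([2, 2, 1, 1, 1, 1, 1, 1, 0], [2, 2, 2, 2, 2, 2, 2, 1, 1], [1]), ([2, 2, 2, 2, 2, 2, 2, 2, 0], [2, 2, 2, 2, 2, 2, 2, 2, 2], [1])],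
       [(0, [1], [1]), (1, [1], [1]), (2, [1], [1]), (3, [1], [1]), (3, [1], [4, 7, 1, 14, 1, 28, 1, 29, 1]), (1, [1], [1]), (3, [1, 32, 1], [1]), (3, [1], [1]), (4, [1], [1]), (4, [4, 10, 1, 18, 1, 20, 1, 29, 1], [1]), (4, [1, 33, 1], [1]), (4, [1], [1]), (4, [1, 33, 1], [1]), (4, [1], [1]), (5, [1], [1])],
       [(13, [1], [1], [(9, [1, 34, 1])]), (4, [1, 33, 1], [1], [(5, [14, 7, 2, 11, 1, 12, 1, 19, 3, 22, 4, 25, 2, 29, 1]), (2, [1, 30, 1])]), (3, [4, 4, 1, 6, 1, 18, 1, 28, 1], [1], [])])] [1, 31, 1]))))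

def cert22 : Cert :=
  (.split [0, 0, 0, 0, 0, -1, 1, 0, 0]
   (.split [0, 0, 1, 0, 0, 0, 0, -1, 0]
    (.leaf [(16, [([0, 0, 0, 0, 0, 0, 0, 0, 0], [2, 0, 0, 0, 0, 0, 0, 0, 0], [1]), ([1, 1, 0, 0, 0, 0, 0, 0, 0], [2, 2, 2, 0, 0, 0, 0, 0, 0], [1]), ([1, 1, 1, 1, 0, 0, 0, 0, 0], [2, 1, 1, 1, 1, 0, 0, 0, 0], [1]), ([2, 2, 1, 1, 0, 0, 0, 0, 0], [2, 2, 2, 1, 1, 1, 1, 0, 0], [1]), ([2, 2, 1, 1, 1, 1, 1, 1, 0], [2, 2, 2, 2, 2, 0, 0, 0, 0], [2, 12, 1, 28, 1]), ([2, 2, 2, 2, 1, 1, 0, 0, 0], [2, 2, 2, 2, 2, 1, 1, 0, 0], [1]), ([2, 2, 2, 2, 2, 2, 0, 0, 0], [2, 2, 2, 2, 2, 2, 2, 0, 0], [1]), ([2, 2, 2, 2, 2, 2, 1, 1, 0], [2, 2, 2, 2, 2, 2, 2, 1, 1], [1]), ([2, 2, 2, 2, 2, 2, 2, 2, 0], [2, 2, 2, 2, 2, 2, 2, 2, 2], [1])],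
      [(0, [1], [1]), (1, [1], [1]), (2, [1], [1]), (3, [11, 7, 1, 12, 5, 16, 5, 19, 1, 21, 1, 22, 1, 32, 14], [1]), (3, [2, 8, 1, 15, 1], [4, 7, 1, 14, 1, 28, 1, 29, 1]), (1, [1], [1]), (3, [1], [1]), (3, [1], [1]), (4, [1], [2, 12, 1, 28, 1]), (4, [4, 10, 1, 18, 1, 20, 1, 29, 1], [1]), (5, [1], [1]), (6, [1, 10, 1, 25, 1], [2, 11, 1, 26, 1]), (6, [1], [1]), (7, [1], [1]), (8, [1], [1])],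
      [(11, [1], [1], [(7, [14, 7, 2, 11, 1, 12, 1, 19, 3, 22, 4, 25, 2, 29, 1])]), (4, [2, 15, 1, 18, 1], [1], [(5, [14, 7, 2, 11, 1, 12, 1, 19, 3, 22, 4, 25, 2, 29, 1]), (2, [1, 30, 1]), (6, [3, 20, 1, 25, 1])]), (3, [4, 6, 1, 15, 1, 23, 1, 28, 1], [1], [])])] [1, 6, 2, 8, 1, 9, 7, 12, 2, 18, 1, 28, 3, 31, 12, 32, 36])
    (.leaf [(6, [([0, 0, 0, 0, 0, 0, 0, 0, 0], [2, 2, 2, 0, 0, 0, 0, 0, 0], [1]), ([1, 1, 1, 1, 0, 0, 0, 0, 0], [2, 2, 2, 2, 2, 0, 0, 0, 0], [1]), ([2, 2, 2, 2, 1, 1, 0, 0, 0], [2, 2, 2, 2, 2, 1, 1, 0, 0], [1]), ([2, 2, 2, 2, 2, 2, 0, 0, 0], [2, 2, 2, 2, 2, 2, 2, 0, 0], [1]), ([2, 2, 2, 2, 2, 2, 1, 1, 0], [2, 2, 2, 2, 2, 2, 2, 1, 1], [1]), ([2, 2, 2, 2, 2, 2, 2, 2, 0], [2, 2, 2, 2, 2, 2, 2, 2, 2], [1])],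
      [(0, [1], [1]), (0, [1], [1]), (1, [1], [1]), (1, [1], [2, 10, 1, 22, 1]), (1, [1], [2, 12, 1, 28, 1]), (0, [1], [1]), (1, [1], [1]), (1, [1], [2, 12, 1, 28, 1]), (1, [1], [2, 12, 1, 28, 1]), (1, [1], [1]), (2, [1], [1]), (3, [1, 10, 1, 25, 1], [2, 11, 1, 26, 1]), (3, [1], [1]), (4, [1], [1]), (5, [1], [1])],
      [(11, [1], [1], [(7, [14, 7, 2, 11, 1, 12, 1, 19, 3, 22, 4, 25, 2, 29, 1])]), (4, [2, 15, 1, 18, 1], [1], [(5, [14, 7, 2, 11, 1, 12, 1, 19, 3, 22, 4, 25, 2, 29, 1]), (2, [1, 30, 1])]), (3, [4, 4, 1, 6, 1, 18, 1, 28, 1], [1], [])]),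
     (26, [([0, 0, 0, 0, 0, 0, 0, 0, 0], [2, 0, 0, 0, 0, 0, 0, 0, 0], [1]), ([1, 1, 0, 0, 0, 0, 0, 0, 0], [2, 2, 2, 0, 0, 0, 0, 0, 0], [1]), ([1, 1, 1, 1, 0, 0, 0, 0, 0], [2, 1, 1, 1, 1, 0, 0, 0, 0], [1]), ([2, 2, 1, 1, 0, 0, 0, 0, 0], [2, 2, 2, 2, 2, 0, 0, 0, 0], [1]), ([2, 2, 2, 2, 1, 1, 0, 0, 0], [2, 2, 2, 2, 2, 1, 1, 0, 0], [1]), ([2, 2, 2, 2, 2, 2, 0, 0, 0], [2, 2, 2, 2, 2, 2, 2, 0, 0], [1]), ([2, 2, 2, 2, 2, 2, 1, 1, 0], [2, 2, 2, 2, 2, 2, 2, 1, 1], [1]), ([2, 2, 2, 2, 2, 2, 2, 2, 0], [2, 2, 2, 2, 2, 2, 2, 2, 2], [1])],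
      [(0, [1], [1]), (1, [1], [1]), (2, [1], [1]), (3, [11, 7, 1, 12, 5, 16, 5, 19, 1, 21, 1, 22, 1, 32, 14], [2, 10, 1, 22, 1]), (3, [2, 8, 1, 15, 1], [2, 12, 1, 28, 1]), (1, [1], [1]), (3, [1], [1]), (3, [1], [2, 12, 1, 28, 1]), (3, [1], [2, 12, 1, 28, 1]), (3, [1], [1]), (4, [1], [1]), (5, [1, 10, 1, 25, 1], [2, 11, 1, 26, 1]), (5, [1], [1]), (6, [1], [1]), (7, [1], [1])],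
      [(11, [1], [1], [(0, [2, 13, 1, 21, 1])]), (4, [2, 10, 1, 15, 1], [1], [(5, [14, 7, 2, 11, 1, 12, 1, 19, 3, 22, 4, 25, 2, 29, 1]), (6, [1, 33, 1])]), (3, [4, 6, 1, 15, 1, 23, 1, 28, 1], [1], [])])] [1, 18, 3, 19, 15, 20, 2, 25, 9, 29, 1, 31, 14, 32, 80]))
   (.split [1, 1, 0, 0, -1, -1, 0, 0, 0]
    (.split [0, 0, 1, 0, 0, 0, 0, -1, 0]
     (.split [0, 0, 0, 0, 0, 0, 1, -1, 0]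
      (.leaf [(1, [([0, 0, 0, 0, 0, 0, 0, 0, 0], [2, 0, 0, 0, 0, 0, 0, 0, 0], [1]), ([1, 1, 0, 0, 0, 0, 0, 0, 0], [2, 2, 2, 0, 0, 0, 0, 0, 0], [1]), ([1, 1, 1, 1, 0, 0, 0, 0, 0], [2, 1, 1, 1, 1, 0, 0, 0, 0], [1]), ([2, 2, 1, 1, 0, 0, 0, 0, 0], [2, 2, 2, 1, 1, 1, 1, 0, 0], [1]), ([2, 2, 1, 1, 1, 1, 1, 1, 0], [2, 2, 2, 2, 2, 0, 0, 0, 0], [2, 12, 1, 28, 1]), ([2, 2, 2, 2, 1, 1, 0, 0, 0], [2, 2, 2, 2, 2, 2, 2, 0, 0], [1]), ([2, 2, 2, 2, 2, 2, 1, 1, 0], [2, 2, 2, 2, 2, 2, 2, 1, 1], [1]), ([2, 2, 2, 2, 2, 2, 2, 2, 0], [2, 2, 2, 2, 2, 2, 2, 2, 2], [1])],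
        [(0, [1], [1]), (1, [1], [1]), (2, [1], [1]), (3, [1, 33, 1], [1]), (3, [1, 33, 1], [4, 7, 1, 14, 1, 28, 1, 29, 1]), (1, [1], [1]), (3, [1], [1]), (3, [1], [1]), (4, [1], [2, 12, 1, 28, 1]), (4, [4, 10, 1, 18, 1, 20, 1, 29, 1], [1]), (5, [1], [1]), (5, [1], [2, 11, 1, 26, 1]), (5, [1], [1]), (6, [1], [1]), (7, [1], [1])],
        [(11, [1], [1], [(0, [2, 13, 1, 21, 1]), (9, [3, 20, 1, 25, 1])]), (4, [2, 10, 1, 21, 1, 28, 1, 31, 1], [1], [(5, [14, 7, 2, 11, 1, 12, 1, 19, 3, 22, 4, 25, 2, 29, 1]), (2, [1, 30, 1]), (6, [3, 20, 1, 25, 1])]), (3, [4, 6, 1, 15, 1, 23, 1, 28, 1], [1], [])]),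
       (1, [([0, 0, 0, 0, 0, 0, 0, 0, 0], [2, 0, 0, 0, 0, 0, 0, 0, 0], [1]), ([1, 1, 0, 0, 0, 0, 0, 0, 0], [2, 2, 2, 0, 0, 0, 0, 0, 0], [1]), ([1, 1, 1, 1, 0, 0, 0, 0, 0], [2, 1, 1, 1, 1, 0, 0, 0, 0], [1]), ([2, 2, 1, 1, 0, 0, 0, 0, 0], [2, 2, 2, 1, 1, 1, 1, 0, 0], [1]), ([2, 2, 1, 1, 1, 1, 1, 1, 0], [2, 2, 2, 2, 2, 0, 0, 0, 0], [2, 12, 1, 28, 1]), ([2, 2, 2, 2, 1, 1, 0, 0, 0], [2, 2, 2, 2, 2, 2, 2, 1, 1], [1]), ([2, 2, 2, 2, 2, 2, 2, 2, 0], [2, 2, 2, 2, 2, 2, 2, 2, 2], [1])],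
        [(0, [1], [1]), (1, [1], [1]), (2, [1], [1]), (3, [1, 33, 1], [1]), (3, [1, 33, 1], [4, 7, 1, 14, 1, 28, 1, 29, 1]), (1, [1], [1]), (3, [1], [1]), (3, [1], [1]), (4, [1], [2, 12, 1, 28, 1]), (4, [4, 10, 1, 18, 1, 20, 1, 29, 1], [1]), (5, [1], [1]), (5, [1], [1]), (5, [1], [1]), (5, [1], [1]), (6, [1], [1])],
        [(13, [1], [1], [(7, [1, 32, 1])]), (4, [2, 15, 1, 18, 1], [1], [(5, [14, 7, 2, 11, 1, 12, 1, 19, 3, 22, 4, 25, 2, 29, 1]), (2, [1, 30, 1])]), (3, [4, 4, 1, 6, 1, 18, 1, 28, 1], [1], [])])] [1, 31, 2, 35, 1])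
      (.leaf [(1, [([0, 0, 0, 0, 0, 0, 0, 0, 0], [2, 0, 0, 0, 0, 0, 0, 0, 0], [1]), ([1, 1, 0, 0, 0, 0, 0, 0, 0], [2, 2, 2, 0, 0, 0, 0, 0, 0], [1]), ([1, 1, 1, 1, 0, 0, 0, 0, 0], [2, 1, 1, 1, 1, 0, 0, 0, 0], [1]), ([2, 2, 1, 1, 0, 0, 0, 0, 0], [2, 2, 2, 1, 1, 1, 1, 0, 0], [1]), ([2, 2, 1, 1, 1, 1, 1, 1, 0], [2, 2, 2, 2, 2, 0, 0, 0, 0], [2, 12, 1, 28, 1]), ([2, 2, 2, 2, 1, 1, 0, 0, 0], [2, 2, 2, 2, 2, 2, 2, 1, 1], [1]), ([2, 2, 2, 2, 2, 2, 2, 2, 0], [2, 2, 2, 2, 2, 2, 2, 2, 2], [1])],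
        [(0, [1], [1]), (1, [1], [1]), (2, [1], [1]), (3, [1, 33, 1], [1]), (3, [1, 33, 1], [4, 7, 1, 14, 1, 28, 1, 29, 1]), (1, [1], [1]), (3, [1], [1]), (3, [1], [1]), (4, [1], [2, 12, 1, 28, 1]), (4, [4, 10, 1, 18, 1, 20, 1, 29, 1], [1]), (5, [1], [1]), (5, [1], [1]), (5, [1], [1]), (5, [1], [1]), (6, [1], [1])],
        [(13, [1], [1], [(7, [1, 32, 1])]), (4, [2, 15, 1, 18, 1], [1], [(5, [14, 7, 2, 11, 1, 12, 1, 19, 3, 22, 4, 25, 2, 29, 1]), (2, [1, 30, 1])]), (3, [4, 4, 1, 6, 1, 18, 1, 28, 1], [1], [])]),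
       (1, [([0, 0, 0, 0, 0, 0, 0, 0, 0], [2, 0, 0, 0, 0, 0, 0, 0, 0], [1]), ([1, 1, 0, 0, 0, 0, 0, 0, 0], [2, 2, 2, 0, 0, 0, 0, 0, 0], [1]), ([1, 1, 1, 1, 0, 0, 0, 0, 0], [2, 1, 1, 1, 1, 0, 0, 0, 0], [1]), ([2, 2, 1, 1, 0, 0, 0, 0, 0], [2, 2, 2, 1, 1, 1, 1, 0, 0], [1]), ([2, 2, 1, 1, 1, 1, 1, 1, 0], [2, 2, 2, 2, 2, 0, 0, 0, 0], [2, 12, 1, 28, 1]), ([2, 2, 2, 2, 1, 1, 0, 0, 0], [2, 2, 2, 2, 2, 2, 2, 1, 1], [1]), ([2, 2, 2, 2, 2, 2, 2, 2, 0], [2, 2, 2, 2, 2, 2, 2, 2, 2], [1])],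
        [(0, [1], [1]), (1, [1], [1]), (2, [1], [1]), (3, [1, 33, 1], [1]), (3, [1, 33, 1], [4, 7, 1, 14, 1, 28, 1, 29, 1]), (1, [1], [1]), (3, [1], [1]), (3, [1], [1]), (4, [1], [2, 12, 1, 28, 1]), (4, [4, 10, 1, 18, 1, 20, 1, 29, 1], [1]), (5, [1], [1]), (5, [1], [1]), (5, [1], [1]), (5, [1], [1]), (6, [1], [1])],
        [(13, [1], [1], [(9, [1, 35, 1])]), (4, [2, 10, 1, 21, 1, 28, 1, 31, 1], [1], [(5, [14, 7, 2, 11, 1, 12, 1, 19, 3, 22, 4, 25, 2, 29, 1]), (2, [1, 30, 1]), (6, [3, 20, 1, 25, 1])]), (3, [4, 6, 1, 15, 1, 23, 1, 28, 1], [1], [])])] [1, 31, 2]))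
     (.leaf [(1, [([0, 0, 0, 0, 0, 0, 0, 0, 0], [2, 0, 0, 0, 0, 0, 0, 0, 0], [1]), ([1, 1, 0, 0, 0, 0, 0, 0, 0], [2, 2, 2, 0, 0, 0, 0, 0, 0], [1]), ([1, 1, 1, 1, 0, 0, 0, 0, 0], [2, 1, 1, 1, 1, 0, 0, 0, 0], [1]), ([2, 2, 1, 1, 0, 0, 0, 0, 0], [2, 2, 2, 2, 2, 0, 0, 0, 0], [1]), ([2, 2, 2, 2, 1, 1, 0, 0, 0], [2, 2, 2, 2, 2, 2, 2, 1, 1], [1]), ([2, 2, 2, 2, 2, 2, 2, 2, 0], [2, 2, 2, 2, 2, 2, 2, 2, 2], [1])],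
       [(0, [1], [1]), (1, [1], [1]), (2, [1], [1]), (3, [1, 33, 1], [2, 10, 1, 22, 1]), (3, [1, 33, 1], [2, 12, 1, 28, 1]), (1, [1], [1]), (3, [1], [1]), (3, [1], [2, 12, 1, 28, 1]), (3, [1], [2, 12, 1, 28, 1]), (3, [1], [1]), (4, [1], [1]), (4, [1], [1]), (4, [1], [1]), (4, [1], [1]), (5, [1], [1])],
       [(13, [1], [1], [(7, [1, 32, 1])]), (4, [2, 15, 1, 18, 1], [1], [(5, [14, 7, 2, 11, 1, 12, 1, 19, 3, 22, 4, 25, 2, 29, 1]), (6, [1, 34, 1])]), (3, [4, 6, 1, 15, 1, 23, 1, 28, 1], [1], [])])] [1, 31, 1, 33, 1, 34, 1]))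
    (.split [0, 0, 0, 0, 0, 0, 1, -1, 0]
     (.leaf [(1, [([0, 0, 0, 0, 0, 0, 0, 0, 0], [2, 0, 0, 0, 0, 0, 0, 0, 0], [1]), ([1, 1, 0, 0, 0, 0, 0, 0, 0], [2, 2, 2, 0, 0, 0, 0, 0, 0], [1]), ([1, 1, 1, 1, 0, 0, 0, 0, 0], [2, 1, 1, 1, 1, 0, 0, 0, 0], [1]), ([1, 1, 1, 1, 1, 1, 0, 0, 0], [2, 2, 2, 1, 1, 1, 1, 0, 0], [1]), ([2, 2, 1, 1, 1, 1, 1, 1, 0], [2, 2, 2, 2, 2, 0, 0, 0, 0], [2, 12, 1, 28, 1]), ([2, 2, 2, 2, 1, 1, 0, 0, 0], [2, 2, 2, 2, 2, 2, 2, 0, 0], [1]), ([2, 2, 2, 2, 2, 2, 1, 1, 0], [2, 2, 2, 2, 2, 2, 2, 1, 1], [1]), ([2, 2, 2, 2, 2, 2, 2, 2, 0], [2, 2, 2, 2, 2, 2, 2, 2, 2], [1])],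
       [(0, [1], [1]), (1, [1], [1]), (2, [1], [1]), (3, [1], [1]), (3, [1], [4, 7, 1, 14, 1, 28, 1, 29, 1]), (1, [1], [1]), (3, [1, 33, 1], [1]), (3, [1], [1]), (4, [1], [2, 12, 1, 28, 1]), (4, [4, 10, 1, 18, 1, 20, 1, 29, 1], [1]), (5, [1], [1]), (5, [1], [2, 11, 1, 26, 1]), (5, [1], [1]), (6, [1], [1]), (7, [1], [1])],
       [(13, [1], [1], [(7, [1, 32, 1]), (9, [2, 11, 1, 26, 1])]), (4, [2, 10, 1, 21, 1, 28, 1, 31, 1], [1], [(5, [14, 7, 2, 11, 1, 12, 1, 19, 3, 22, 4, 25, 2, 29, 1]), (2, [1, 30, 1])]), (3, [4, 4, 1, 6, 1, 18, 1, 28, 1], [1], [])])] [1, 31, 1, 34, 1])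
     (.leaf [(1, [([0, 0, 0, 0, 0, 0, 0, 0, 0], [2, 0, 0, 0, 0, 0, 0, 0, 0], [1]), ([1, 1, 0, 0, 0, 0, 0, 0, 0], [2, 2, 2, 0, 0, 0, 0, 0, 0], [1]), ([1, 1, 1, 1, 0, 0, 0, 0, 0], [2, 1, 1, 1, 1, 0, 0, 0, 0], [1]), ([1, 1, 1, 1, 1, 1, 0, 0, 0], [2, 2, 2, 1, 1, 1, 1, 0, 0], [1]), ([2, 2, 1, 1, 1, 1, 1, 1, 0], [2, 2, 2, 2, 2, 0, 0, 0, 0], [2, 12, 1, 28, 1]), ([2, 2, 2, 2, 1, 1, 0, 0, 0], [2, 2, 2, 2, 2, 2, 2, 1, 1], [1]), ([2, 2, 2, 2, 2, 2, 2, 2, 0], [2, 2, 2, 2, 2, 2, 2, 2, 2], [1])],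
       [(0, [1], [1]), (1, [1], [1]), (2, [1], [1]), (3, [1], [1]), (3, [1], [4, 7, 1, 14, 1, 28, 1, 29, 1]), (1, [1], [1]), (3, [1, 33, 1], [1]), (3, [1], [1]), (4, [1], [2, 12, 1, 28, 1]), (4, [4, 10, 1, 18, 1, 20, 1, 29, 1], [1]), (5, [1], [1]), (5, [1], [1]), (5, [1], [1]), (5, [1], [1]), (6, [1], [1])],
       [(13, [1], [1], [(9, [1, 34, 1])]), (4, [2, 10, 1, 21, 1, 28, 1, 31, 1], [1], [(5, [14, 7, 2, 11, 1, 12, 1, 19, 3, 22, 4, 25, 2, 29, 1]), (2, [1, 30, 1])]), (3, [4, 4, 1, 6, 1, 18, 1, 28, 1], [1], [])])] [1, 31, 1]))))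

def cert23 : Cert :=
  (.split [0, 0, 1, 0, 0, 0, 0, -1, 0]
   (.split [0, 0, 0, 0, 0, 0, 1, -1, 0]
    (.leaf [(1, [([0, 0, 0, 0, 0, 0, 0, 0, 0], [2, 2, 2, 0, 0, 0, 0, 0, 0], [1]), ([1, 1, 1, 1, 0, 0, 0, 0, 0], [2, 2, 2, 1, 1, 1, 1, 0, 0], [1]), ([2, 2, 1, 1, 1, 1, 1, 1, 0], [2, 2, 2, 2, 2, 2, 2, 0, 0], [1, 15, 1]), ([2, 2, 2, 2, 2, 2, 1, 1, 0], [2, 2, 2, 2, 2, 2, 2, 1, 1], [1]), ([2, 2, 2, 2, 2, 2, 2, 2, 0], [2, 2, 2, 2, 2, 2, 2, 2, 2], [1])],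
      [(0, [1], [1]), (0, [1], [1]), (1, [1], [1]), (1, [1], [1]), (1, [1], [4, 7, 1, 14, 1, 28, 1, 29, 1]), (0, [1], [1]), (1, [1], [1]), (1, [1], [1]), (2, [1], [1, 15, 1]), (2, [4, 10, 1, 18, 1, 20, 1, 29, 1], [1]), (2, [1, 20, 1, 32, 1], [1]), (2, [1], [2, 11, 1, 26, 1]), (2, [2, 10, 1, 28, 1], [1]), (3, [1], [1]), (4, [1], [1])],
      [(13, [1], [1], [(7, [4, 7, 1, 12, 1, 25, 2, 29, 1, 31, 1, 32, 1])]), (8, [2, 10, 1, 24, 1], [1], [(4, [2, 9, 1, 27, 1]), (5, [14, 7, 2, 11, 1, 12, 1, 19, 3, 22, 4, 25, 2, 29, 1]), (2, [1, 30, 1]), (6, [3, 20, 1, 25, 1])]), (3, [4, 6, 1, 15, 1, 23, 1, 28, 1], [1], [])])] [1, 31, 1, 32, 1, 33, 1])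
    (.leaf [(1, [([0, 0, 0, 0, 0, 0, 0, 0, 0], [2, 2, 2, 0, 0, 0, 0, 0, 0], [1]), ([1, 1, 1, 1, 0, 0, 0, 0, 0], [2, 2, 2, 1, 1, 1, 1, 0, 0], [1]), ([2, 2, 1, 1, 1, 1, 1, 1, 0], [2, 2, 2, 2, 2, 2, 2, 1, 1], [1]), ([2, 2, 2, 2, 2, 2, 2, 2, 0], [2, 2, 2, 2, 2, 2, 2, 2, 2], [1])],
      [(0, [1], [1]), (0, [1], [1]), (1, [1], [1]), (1, [1], [1]), (1, [1], [4, 7, 1, 14, 1, 28, 1, 29, 1]), (0, [1], [1]), (1, [1], [1]), (1, [1], [1]), (2, [1], [1]), (2, [4, 10, 1, 18, 1, 20, 1, 29, 1], [1]), (2, [1, 20, 1, 32, 1], [1]), (2, [1], [1]), (2, [2, 10, 1, 28, 1], [1]), (2, [1], [1]), (3, [1], [1])],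
      [(13, [1], [1], [(7, [4, 7, 1, 12, 1, 25, 2, 29, 1, 31, 1, 32, 1])]), (8, [2, 10, 1, 24, 1], [1], [(4, [2, 9, 1, 27, 1]), (5, [14, 7, 2, 11, 1, 12, 1, 19, 3, 22, 4, 25, 2, 29, 1]), (2, [1, 30, 1]), (6, [3, 20, 1, 25, 1])]), (3, [4, 6, 1, 15, 1, 23, 1, 28, 1], [1], [])])] [1, 31, 1, 32, 1]))
   (.split [0, 0, 0, 0, 0, -1, 1, 0, 0]
    (.leaf [(1, [([0, 0, 0, 0, 0, 0, 0, 0, 0], [2, 2, 2, 0, 0, 0, 0, 0, 0], [1]), ([1, 1, 1, 1, 0, 0, 0, 0, 0], [2, 2, 2, 2, 2, 0, 0, 0, 0], [1]), ([2, 2, 2, 2, 1, 1, 0, 0, 0], [2, 2, 2, 2, 2, 2, 2, 1, 1], [1]), ([2, 2, 2, 2, 2, 2, 2, 2, 0], [2, 2, 2, 2, 2, 2, 2, 2, 2], [1])],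
      [(0, [1], [1]), (0, [1], [1]), (1, [1], [1]), (1, [1], [2, 10, 1, 22, 1]), (1, [1], [2, 12, 1, 28, 1]), (0, [1], [1]), (1, [1], [1]), (1, [1], [2, 12, 1, 28, 1]), (1, [1], [2, 12, 1, 28, 1]), (1, [1], [1]), (2, [1], [1]), (2, [1], [1]), (2, [1], [1]), (2, [1], [1]), (3, [1], [1])],
      [(11, [1], [1], [(7, [14, 7, 2, 11, 1, 12, 1, 19, 3, 22, 4, 25, 2, 29, 1])]), (4, [2, 15, 1, 18, 1], [1], [(5, [14, 7, 2, 11, 1, 12, 1, 19, 3, 22, 4, 25, 2, 29, 1]), (6, [1, 32, 1])]), (3, [4, 6, 1, 15, 1, 23, 1, 28, 1], [1], [])])] [1, 5, 1, 24, 1, 25, 1, 31, 2, 33, 2])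
    (.split [0, 0, 0, -1, 0, 0, 1, 1, 1]
     (.split [0, 0, 0, 0, 0, 0, 1, -1, 0]
      (.leaf [(1, [([0, 0, 0, 0, 0, 0, 0, 0, 0], [2, 2, 2, 0, 0, 0, 0, 0, 0], [1]), ([1, 1, 1, 1, 0, 0, 0, 0, 0], [2, 2, 2, 2, 2, 2, 2, 0, 0], [1]), ([2, 2, 2, 2, 2, 2, 1, 1, 0], [2, 2, 2, 2, 2, 2, 2, 1, 1], [1]), ([2, 2, 2, 2, 2, 2, 2, 2, 0], [2, 2, 2, 2, 2, 2, 2, 2, 2], [1])],
        [(0, [1], [1]), (0, [1], [1]), (1, [1], [1]), (1, [1], [1]), (1, [1], [1, 15, 1]), (0, [1], [1]), (1, [1], [1]), (1, [1], [1]), (1, [1], [1, 15, 1]), (1, [1], [1]), (1, [1], [1]), (1, [1], [2, 11, 1, 26, 1]), (1, [1], [1]), (2, [1], [1]), (3, [1], [1])],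
        [(11, [1], [1], [(7, [14, 7, 2, 11, 1, 12, 1, 19, 3, 22, 4, 25, 2, 29, 1])]), (8, [2, 10, 1, 24, 1], [1], [(4, [2, 9, 1, 27, 1]), (5, [14, 7, 2, 11, 1, 12, 1, 19, 3, 22, 4, 25, 2, 29, 1]), (6, [1, 32, 1])]), (3, [4, 6, 1, 15, 1, 23, 1, 28, 1], [1], [])])] [1, 31, 1, 35, 1])
      (.leaf [(1, [([0, 0, 0, 0, 0, 0, 0, 0, 0], [2, 2, 2, 0, 0, 0, 0, 0, 0], [1]), ([1, 1, 1, 1, 0, 0, 0, 0, 0], [2, 2, 2, 2, 2, 2, 2, 1, 1], [1]), ([2, 2, 2, 2, 2, 2, 2, 2, 0], [2, 2, 2, 2, 2, 2, 2, 2, 2], [1])],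
        [(0, [1], [1]), (0, [1], [1]), (1, [1], [1]), (1, [1], [1]), (1, [1], [1]), (0, [1], [1]), (1, [1], [1]), (1, [1], [1]), (1, [1], [1]), (1, [1], [1]), (1, [1], [1]), (1, [1], [1]), (1, [1], [1]), (1, [1], [1]), (2, [1], [1])],
        [(11, [1], [1], [(7, [14, 7, 2, 11, 1, 12, 1, 19, 3, 22, 4, 25, 2, 29, 1])]), (8, [2, 10, 1, 24, 1], [1], [(4, [2, 9, 1, 27, 1]), (5, [14, 7, 2, 11, 1, 12, 1, 19, 3, 22, 4, 25, 2, 29, 1]), (6, [1, 32, 1])]), (3, [4, 6, 1, 15, 1, 23, 1, 28, 1], [1], [])])] [1, 31, 1]))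
     (.leaf [(2, [([0, 0, 0, 0, 0, 0, 0, 0, 0], [2, 2, 2, 0, 0, 0, 0, 0, 0], [1]), ([1, 1, 1, 1, 0, 0, 0, 0, 0], [2, 2, 2, 2, 2, 2, 2, 1, 1], [1]), ([2, 2, 2, 2, 2, 2, 2, 2, 0], [2, 2, 2, 2, 2, 2, 2, 2, 2], [1])],
       [(0, [1], [1]), (0, [1], [1]), (1, [1], [1]), (1, [1], [1]), (1, [1], [1]), (0, [1], [1]), (1, [1], [1]), (1, [1], [1]), (1, [1], [1]), (1, [1], [1]), (1, [1], [1]), (1, [1], [1]), (1, [1], [1]), (1, [1], [1]), (2, [1], [1])],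
       [(13, [1], [1], [(9, [1, 15, 1, 32, 1, 34, 1]), (4, [1, 34, 1]), (5, [14, 7, 2, 11, 1, 12, 1, 19, 3, 22, 4, 25, 2, 29, 1]), (6, [1, 32, 1])]), (3, [4, 6, 1, 15, 1, 23, 1, 28, 1], [1], [])])] [1, 8, 1, 15, 1, 18, 1, 24, 1, 31, 2]))))

def cert24 : Cert :=
  (.split [0, 0, 1, 0, 0, 0, 0, -1, 0]
   (.leaf [(1, [([0, 0, 0, 0, 0, 0, 0, 0, 0], [2, 0, 0, 0, 0, 0, 0, 0, 0], [1]), ([1, 1, 0, 0, 0, 0, 0, 0, 0], [2, 2, 2, 0, 0, 0, 0, 0, 0], [1]), ([1, 1, 1, 1, 0, 0, 0, 0, 0], [2, 2, 2, 1, 1, 1, 1, 0, 0], [1]), ([2, 2, 1, 1, 1, 1, 1, 1, 0], [2, 2, 2, 2, 2, 2, 2, 1, 1], [1]), ([2, 2, 2, 2, 2, 2, 2, 2, 0], [2, 2, 2, 2, 2, 2, 2, 2, 2], [1])],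
     [(0, [1], [1]), (1, [1], [1]), (2, [1], [1]), (2, [1], [1]), (2, [1], [4, 7, 1, 14, 1, 28, 1, 29, 1]), (1, [1], [1]), (2, [1], [1]), (2, [1], [1]), (3, [1], [1]), (3, [4, 10, 1, 18, 1, 20, 1, 29, 1], [1]), (3, [1, 20, 1, 32, 1], [1]), (3, [1], [1]), (3, [2, 10, 1, 28, 1], [1]), (3, [1], [1]), (4, [1], [1])],
     [(13, [1], [1], [(7, [2, 10, 1, 25, 2, 31, 1])]), (8, [2, 10, 1, 24, 1], [1], [(4, [2, 9, 1, 27, 1]), (5, [14, 7, 2, 11, 1, 12, 1, 19, 3, 22, 4, 25, 2, 29, 1]), (2, [1, 30, 1]), (6, [3, 20, 1, 25, 1])]), (3, [4, 6, 1, 15, 1, 23, 1, 28, 1], [1], [])])] [1, 31, 1, 32, 1])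
   (.leaf [(1, [([0, 0, 0, 0, 0, 0, 0, 0, 0], [2, 0, 0, 0, 0, 0, 0, 0, 0], [1]), ([1, 1, 0, 0, 0, 0, 0, 0, 0], [2, 2, 2, 0, 0, 0, 0, 0, 0], [1]), ([1, 1, 1, 1, 0, 0, 0, 0, 0], [2, 2, 2, 2, 2, 2, 2, 1, 1], [1]), ([2, 2, 2, 2, 2, 2, 2, 2, 0], [2, 2, 2, 2, 2, 2, 2, 2, 2], [1])],
     [(0, [1], [1]), (1, [1], [1]), (2, [1], [1]), (2, [1], [1]), (2, [1], [1]), (1, [1], [1]), (2, [1], [1]), (2, [1], [1]), (2, [1], [1]), (2, [1], [1]), (2, [1], [1]), (2, [1], [1]), (2, [1], [1]), (2, [1], [1]), (3, [1], [1])],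
     [(11, [1], [1], [(7, [14, 7, 2, 11, 1, 12, 1, 19, 3, 22, 4, 25, 2, 29, 1])]), (8, [2, 10, 1, 24, 1], [1], [(4, [2, 9, 1, 27, 1]), (5, [14, 7, 2, 11, 1, 12, 1, 19, 3, 22, 4, 25, 2, 29, 1]), (6, [1, 32, 1])]), (3, [4, 6, 1, 15, 1, 23, 1, 28, 1], [1], [])])] [1, 31, 1]))

def cert25 : Cert :=
  (.split [0, 0, 1, 0, 0, 0, 0, -1, 0]
   (.split [0, 0, 0, 0, 0, -1, 1, 0, 0]
    (.leaf [(1, [([0, 0, 0, 0, 0, 0, 0, 0, 0], [2, 0, 0, 0, 0, 0, 0, 0, 0], [1]), ([1, 1, 0, 0, 0, 0, 0, 0, 0], [2, 2, 2, 0, 0, 0, 0, 0, 0], [1]), ([1, 1, 1, 1, 0, 0, 0, 0, 0], [2, 2, 2, 1, 1, 1, 1, 0, 0], [1]), ([2, 2, 1, 1, 1, 1, 1, 1, 0], [2, 2, 2, 2, 2, 0, 0, 0, 0], [2, 12, 1, 28, 1]), ([2, 2, 2, 2, 1, 1, 0, 0, 0], [2, 2, 2, 2, 2, 1, 1, 0, 0], [1]), ([2, 2, 2, 2, 2, 2, 0,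 0, 0], [2, 2, 2, 2, 2, 2, 2, 0, 0], [1]), ([2, 2, 2, 2, 2, 2, 1, 1, 0], [2, 2, 2, 2, 2, 2, 2, 1, 1], [1]), ([2, 2, 2, 2, 2, 2, 2, 2, 0], [2, 2, 2, 2, 2, 2, 2, 2, 2], [1])],
      [(0, [1], [1]), (1, [1], [1]), (2, [1], [1]), (2, [1], [1]), (2, [1], [4, 7, 1, 14, 1, 28, 1, 29, 1]), (1, [1], [1]), (2, [1], [1]), (2, [1], [1]), (3, [1], [2, 12, 1, 28, 1]), (3, [4, 10, 1, 18, 1, 20, 1, 29, 1], [1]), (4, [1], [1]), (5, [1, 10, 1, 25, 1], [2, 11, 1, 26, 1]), (5, [1], [1]), (6, [1], [1]), (7, [1], [1])],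
      [(11, [1], [1], [(7, [14, 7, 2, 11, 1, 12, 1, 19, 3, 22, 4, 25, 2, 29, 1])]), (4, [2, 15, 1, 18, 1], [1], [(5, [14, 7, 2, 11, 1, 12, 1, 19, 3, 22, 4, 25, 2, 29, 1]), (2, [1, 30, 1])]), (3, [4, 4, 1, 6, 1, 18, 1, 28, 1], [1], [])])] [1, 16, 1, 32, 2, 33, 3])
    (.leaf [(1, [([0, 0, 0, 0, 0, 0, 0, 0, 0], [2, 0, 0, 0, 0, 0, 0, 0, 0], [1]), ([1, 1, 0, 0, 0, 0, 0, 0, 0], [2, 2, 2, 0, 0, 0, 0, 0, 0], [1]), ([1, 1, 1, 1, 0, 0, 0, 0, 0], [2, 2, 2, 1, 1, 1, 1, 0, 0], [1]), ([2, 2, 1, 1, 1, 1, 1, 1, 0], [2, 2, 2, 2, 2, 0, 0, 0, 0], [2, 12, 1, 28, 1]), ([2, 2, 2, 2, 1, 1, 0, 0, 0], [2, 2, 2, 2, 2, 2, 2, 0, 0], [1]), ([2, 2, 2, 2, 2, 2, 1, 1, 0], [2, 2, 2, 2, 2, 2, 2, 1, 1], [1]), ([2, 2, 2, 2, 2, 2, 2, 2, 0], [2, 2, 2, 2, 2, 2, 2, 2, 2], [1])],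
      [(0, [1], [1]), (1, [1], [1]), (2, [1], [1]), (2, [1], [1]), (2, [1], [4, 7, 1, 14, 1, 28, 1, 29, 1]), (1, [1], [1]), (2, [1], [1]), (2, [1], [1]), (3, [1], [2, 12, 1, 28, 1]), (3, [4, 10, 1, 18, 1, 20, 1, 29, 1], [1]), (4, [1], [1]), (4, [1], [2, 11, 1, 26, 1]), (4, [1], [1]), (5, [1], [1]), (6, [1], [1])],
      [(11, [1], [1], [(7, [14, 7, 2, 11, 1, 12, 1, 19, 3, 22, 4, 25, 2, 29, 1])]), (8, [2, 10, 1, 24, 1], [1], [(4, [2, 9, 1, 27, 1]), (5, [14, 7, 2, 11, 1, 12, 1, 19, 3, 22, 4, 25, 2, 29, 1]), (2, [1, 30, 1]), (6, [3, 20, 1, 25, 1])]), (3, [4, 6, 1, 15, 1, 23, 1, 28, 1], [1], [])])] [1, 31, 1, 32, 1]))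
   (.leaf [(1, [([0, 0, 0, 0, 0, 0, 0, 0, 0], [2, 0, 0, 0, 0, 0, 0, 0, 0], [1]), ([1, 1, 0, 0, 0, 0, 0, 0, 0], [2, 2, 2, 0, 0, 0, 0, 0, 0], [1]), ([1, 1, 1, 1, 0, 0, 0, 0, 0], [2, 2, 2, 2, 2, 0, 0, 0, 0], [1]), ([2, 2, 2, 2, 1, 1, 0, 0, 0], [2, 2, 2, 2, 2, 2, 2, 0, 0], [1]), ([2, 2, 2, 2, 2, 2, 1, 1, 0], [2, 2, 2, 2, 2, 2, 2, 1, 1], [1]), ([2, 2, 2, 2, 2, 2, 2, 2, 0], [2, 2, 2, 2, 2, 2, 2, 2, 2], [1])],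
     [(0, [1], [1]), (1, [1], [1]), (2, [1], [1]), (2, [1], [2, 10, 1, 22, 1]), (2, [1], [2, 12, 1, 28, 1]), (1, [1], [1]), (2, [1], [1]), (2, [1], [2, 12, 1, 28, 1]), (2, [1], [2, 12, 1, 28, 1]), (2, [1], [1]), (3, [1], [1]), (3, [1], [2, 11, 1, 26, 1]), (3, [1], [1]), (4, [1], [1]), (5, [1], [1])],
     [(11, [1], [1], [(7, [14, 7, 2, 11, 1, 12, 1, 19, 3, 22, 4, 25, 2, 29, 1])]), (8, [2, 10, 1, 24, 1], [1], [(4, [2, 9, 1, 27, 1]), (5, [14, 7, 2, 11, 1, 12, 1, 19, 3, 22, 4, 25, 2, 29, 1]), (6, [1, 32, 1])]), (3, [4, 6, 1, 15, 1, 23, 1, 28, 1], [1], [])])] [1, 31, 1]))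

def cert26 : Cert :=
  (.split [0, 0, 1, 0, 0, 0, 0, -1, 0]
   (.split [0, 0, 0, 0, 0, 0, 1, -1, 0]
    (.split [-1, -1, 0, 0, 1, 1, 0, 0, 0]
     (.leaf [(1, [([0, 0, 0, 0, 0, 0, 0, 0, 0], [2, 0, 0, 0, 0, 0, 0, 0, 0], [1]), ([1, 1, 0, 0, 0, 0, 0, 0, 0], [2, 2, 2, 0, 0, 0, 0, 0, 0], [1]), ([1, 1, 1, 1, 0, 0, 0, 0, 0], [2, 2, 2, 1, 1, 1, 1, 0, 0], [1]), ([2, 2, 1, 1, 1, 1, 1, 1, 0], [2, 2, 2, 2, 2, 2, 2, 0, 0], [1, 15, 1]), ([2, 2, 2, 2, 2, 2, 1, 1, 0], [2, 2, 2, 2, 2, 2, 2, 1, 1], [1]), ([2, 2, 2, 2, 2, 2, 2, 2, 0], [2, 2, 2, 2, 2, 2, 2, 2, 2], [1])],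
       [(0, [1], [1]), (1, [1], [1]), (2, [1], [1]), (2, [1], [1]), (2, [1], [4, 7, 1, 14, 1, 28, 1, 29, 1]), (1, [1], [1]), (2, [1], [1]), (2, [1], [1]), (3, [1], [1, 15, 1]), (3, [4, 10, 1, 18, 1, 20, 1, 29, 1], [1]), (3, [1, 20, 1, 32, 1], [1]), (3, [1], [2, 11, 1, 26, 1]), (3, [2, 10, 1, 28, 1], [1]), (4, [1], [1]), (5, [1], [1])],
       [(11, [1], [1], [(0, [2, 13, 1, 21, 1]), (9, [3, 20, 1, 25, 1])]), (8, [2, 15, 1, 17, 1], [1], [(4, [2, 9, 1, 27, 1]), (5, [14, 7, 2, 11, 1, 12, 1, 19, 3, 22, 4, 25, 2, 29, 1]), (2, [1, 30, 1]), (6, [3, 20, 1, 25, 1])]), (3, [4, 6, 1, 15, 1, 23, 1, 28, 1], [1], [])])] [1, 31, 1, 32, 1])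
     (.leaf [(1, [([0, 0, 0, 0, 0, 0, 0, 0, 0], [2, 0, 0, 0, 0, 0, 0, 0, 0], [1]), ([1, 1, 0, 0, 0, 0, 0, 0, 0], [2, 2, 2, 0, 0, 0, 0, 0, 0], [1]), ([1, 1, 1, 1, 0, 0, 0, 0, 0], [2, 2, 2, 1, 1, 1, 1, 0, 0], [1]), ([2, 2, 1, 1, 1, 1, 1, 1, 0], [2, 2, 2, 2, 2, 2, 2, 0, 0], [1, 15, 1]), ([2, 2, 2, 2, 2, 2, 1, 1, 0], [2, 2, 2, 2, 2, 2, 2, 1, 1], [1]), ([2, 2, 2, 2, 2, 2, 2, 2, 0], [2, 2, 2, 2, 2, 2, 2, 2, 2], [1])],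
       [(0, [1], [1]), (1, [1], [1]), (2, [1], [1]), (2, [1], [1]), (2, [1], [4, 7, 1, 14, 1, 28, 1, 29, 1]), (1, [1], [1]), (2, [1], [1]), (2, [1], [1]), (3, [1], [1, 15, 1]), (3, [4, 10, 1, 18, 1, 20, 1, 29, 1], [1]), (3, [1, 20, 1, 32, 1], [1]), (3, [1], [2, 11, 1, 26, 1]), (3, [2, 10, 1, 28, 1], [1]), (4, [1], [1]), (5, [1], [1])],
       [(11, [1], [1], [(7, [14, 7, 2, 11, 1, 12, 1, 19, 3, 22, 4, 25, 2, 29, 1]), (9, [2, 11, 1, 26, 1])]), (8, [2, 15, 1, 17, 1], [1], [(4, [2, 9, 1, 27, 1]), (5, [14, 7, 2, 11, 1, 12, 1, 19, 3, 22, 4, 25, 2, 29, 1]), (2, [1, 30, 1]), (6, [3, 20, 1, 25, 1])]), (3, [4, 6, 1, 15, 1, 23, 1, 28, 1], [1], [])])] [1, 31, 1, 32, 1]))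
    (.split [1, 1, 0, 0, -1, -1, 0, 0, 0]
     (.leaf [(1, [([0, 0, 0, 0, 0, 0, 0, 0, 0], [2, 0, 0, 0, 0, 0, 0, 0, 0], [1]), ([1, 1, 0, 0, 0, 0, 0, 0, 0], [2, 2, 2, 0, 0, 0, 0, 0, 0], [1]), ([1, 1, 1, 1, 0, 0, 0, 0, 0], [2, 2, 2, 1, 1, 1, 1, 0, 0], [1]), ([2, 2, 1, 1, 1, 1, 1, 1, 0], [2, 2, 2, 2, 2, 2, 2, 1, 1], [1]), ([2, 2, 2, 2, 2, 2, 2, 2, 0], [2, 2, 2, 2, 2, 2, 2, 2, 2], [1])],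
       [(0, [1], [1]), (1, [1], [1]), (2, [1], [1]), (2, [1], [1]), (2, [1], [4, 7, 1, 14, 1, 28, 1, 29, 1]), (1, [1], [1]), (2, [1], [1]), (2, [1], [1]), (3, [1], [1]), (3, [4, 10, 1, 18, 1, 20, 1, 29, 1], [1]), (3, [1, 20, 1, 32, 1], [1]), (3, [1], [1]), (3, [2, 10, 1, 28, 1], [1]), (3, [1], [1]), (4, [1], [1])],
       [(13, [1], [1], [(9, [1, 33, 1])]), (8, [2, 15, 1, 17, 1], [1], [(4, [2, 9, 1, 27, 1]), (5, [14, 7, 2, 11, 1, 12, 1, 19, 3, 22, 4, 25, 2, 29, 1]), (2, [1, 30, 1]), (6, [3, 20, 1, 25, 1])]), (3, [4, 6, 1, 15, 1, 23, 1, 28, 1], [1], [])])] [1, 31, 1, 32, 1, 33, 1])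
     (.leaf [(1, [([0, 0, 0, 0, 0, 0, 0, 0, 0], [2, 0, 0, 0, 0, 0, 0, 0, 0], [1]), ([1, 1, 0, 0, 0, 0, 0, 0, 0], [2, 2, 2, 0, 0, 0, 0, 0, 0], [1]), ([1, 1, 1, 1, 0, 0, 0, 0, 0], [2, 2, 2, 1, 1, 1, 1, 0, 0], [1]), ([2, 2, 1, 1, 1, 1, 1, 1, 0], [2, 2, 2, 2, 2, 2, 2, 1, 1], [1]), ([2, 2, 2, 2, 2, 2, 2, 2, 0], [2, 2, 2, 2, 2, 2, 2, 2, 2], [1])],
       [(0, [1], [1]), (1, [1], [1]), (2, [1], [1]), (2, [1], [1]), (2, [1], [4, 7, 1, 14, 1, 28, 1, 29, 1]), (1, [1], [1]), (2, [1], [1]), (2, [1], [1]), (3, [1], [1]), (3, [4, 10, 1, 18, 1, 20, 1, 29, 1], [1]), (3, [1, 20, 1, 32, 1], [1]), (3, [1], [1]), (3, [2, 10, 1, 28, 1], [1]), (3, [1], [1]), (4, [1], [1])],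
       [(13, [1], [1], [(9, [1, 33, 1])]), (8, [2, 15, 1, 17, 1], [1], [(4, [2, 9, 1, 27, 1]), (5, [14, 7, 2, 11, 1, 12, 1, 19, 3, 22, 4, 25, 2, 29, 1]), (2, [1, 30, 1]), (6, [3, 20, 1, 25, 1])]), (3, [4, 6, 1, 15, 1, 23, 1, 28, 1], [1], [])])] [1, 31, 1, 32, 1, 33, 1])))
   (.split [0, 0, 0, 1, 0, 0, -1, -1, -1]
    (.leaf [(1, [([0, 0, 0, 0, 0, 0, 0, 0, 0], [2, 0, 0, 0, 0, 0, 0, 0, 0], [1]), ([1, 1, 0, 0, 0, 0, 0, 0, 0], [2, 2, 2, 0, 0, 0, 0, 0, 0], [1]), ([1, 1, 1, 1, 0, 0, 0, 0, 0], [2, 2, 2, 2, 2, 2, 2, 1, 1], [1]), ([2, 2, 2, 2, 2, 2, 2, 2, 0], [2, 2, 2, 2, 2, 2, 2, 2, 2], [1])],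
      [(0, [1], [1]), (1, [1], [1]), (2, [1], [1]), (2, [1], [1]), (2, [1], [1]), (1, [1], [1]), (2, [1], [1]), (2, [1], [1]), (2, [1], [1]), (2, [1], [1]), (2, [1], [1]), (2, [1], [1]), (2, [1], [1]), (2, [1], [1]), (3, [1], [1])],
      [(13, [1], [1], [(9, [1, 15, 1, 32, 1, 33, 1]), (4, [1, 33, 1]), (5, [14, 7, 2, 11, 1, 12, 1, 19, 3, 22, 4, 25, 2, 29, 1]), (6, [1, 32, 1])]), (3, [4, 6, 1, 15, 1, 23, 1, 28, 1], [1], [])])] [1, 10, 1])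
    (.split [1, 1, 0, 0, -1, -1, 0, 0, 0]
     (.split [0, 0, 0, 0, 0, 0, 1, -1, 0]
      (.leaf [(1, [([0, 0, 0, 0, 0, 0, 0, 0, 0], [2, 0, 0, 0, 0, 0, 0, 0, 0], [1]), ([1, 1, 0, 0, 0, 0, 0, 0, 0], [2, 2, 2, 0, 0, 0, 0, 0, 0], [1]), ([1, 1, 1, 1, 0, 0, 0, 0, 0], [2, 2, 2, 2, 2, 2, 2, 0, 0], [1]), ([2, 2, 2, 2, 2, 2, 1, 1, 0], [2, 2, 2, 2, 2, 2, 2, 1, 1], [1]), ([2, 2, 2, 2, 2, 2, 2, 2, 0], [2, 2, 2, 2, 2, 2, 2, 2, 2], [1])],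
        [(0, [1], [1]), (1, [1], [1]), (2, [1], [1]), (2, [1], [1]), (2, [1], [1, 15, 1]), (1, [1], [1]), (2, [1], [1]), (2, [1], [1]), (2, [1], [1, 15, 1]), (2, [1], [1]), (2, [1], [1]), (2, [1], [2, 11, 1, 26, 1]), (2, [1], [1]), (3, [1], [1]), (4, [1], [1])],
        [(11, [1], [1], [(9, [1, 32, 1])]), (8, [2, 15, 1, 17, 1], [1], [(4, [2, 9, 1, 27, 1]), (5, [14, 7, 2, 11, 1, 12, 1, 19, 3, 22, 4, 25, 2, 29, 1]), (6, [1, 32, 1])]), (3, [4, 6, 1, 15, 1, 23, 1, 28, 1], [1], [])])] [1, 31, 1])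
      (.leaf [(1, [([0, 0, 0, 0, 0, 0, 0, 0, 0], [2, 0, 0, 0, 0, 0, 0, 0, 0], [1]), ([1, 1, 0, 0, 0, 0, 0, 0, 0], [2, 2, 2, 0, 0, 0, 0, 0, 0], [1]), ([1, 1, 1, 1, 0, 0, 0, 0, 0], [2, 2, 2, 2, 2, 2, 2, 1, 1], [1]), ([2, 2, 2, 2, 2, 2, 2, 2, 0], [2, 2, 2, 2, 2, 2, 2, 2, 2], [1])],
        [(0, [1], [1]), (1, [1], [1]), (2, [1], [1]), (2, [1], [1]), (2, [1], [1]), (1, [1], [1]), (2, [1], [1]), (2, [1], [1]), (2, [1], [1]), (2, [1], [1]), (2, [1], [1]), (2, [1], [1]), (2, [1], [1]), (2, [1], [1]), (3, [1], [1])],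
        [(13, [1], [1], [(9, [1, 35, 1])]), (8, [2, 15, 1, 17, 1], [1], [(4, [2, 9, 1, 27, 1]), (5, [14, 7, 2, 11, 1, 12, 1, 19, 3, 22, 4, 25, 2, 29, 1]), (6, [1, 32, 1])]), (3, [4, 6, 1, 15, 1, 23, 1, 28, 1], [1], [])])] [1, 31, 1, 35, 1]))
     (.leaf [(1, [([0, 0, 0, 0, 0, 0, 0, 0, 0], [2, 0, 0, 0, 0, 0, 0, 0, 0], [1]), ([1, 1, 0, 0, 0, 0, 0, 0, 0], [2, 2, 2, 0, 0, 0, 0, 0, 0], [1]), ([1, 1, 1, 1, 0, 0, 0, 0, 0], [2, 2, 2, 2, 2, 2, 2, 0, 0], [1]), ([2, 2, 2, 2, 2, 2, 1, 1, 0], [2, 2, 2, 2, 2, 2, 2, 1, 1], [1]), ([2, 2, 2, 2, 2, 2, 2, 2, 0], [2, 2, 2, 2, 2, 2, 2, 2, 2], [1])],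
       [(0, [1], [1]), (1, [1], [1]), (2, [1], [1]), (2, [1], [1]), (2, [1], [1, 15, 1]), (1, [1], [1]), (2, [1], [1]), (2, [1], [1]), (2, [1], [1, 15, 1]), (2, [1], [1]), (2, [1], [1]), (2, [1], [2, 11, 1, 26, 1]), (2, [1], [1]), (3, [1], [1]), (4, [1], [1])],
       [(11, [1], [1], [(9, [1, 32, 1])]), (8, [2, 15, 1, 17, 1], [1], [(4, [2, 9, 1, 27, 1]), (5, [14, 7, 2, 11, 1, 12, 1, 19, 3, 22, 4, 25, 2, 29, 1]), (6, [1, 32, 1])]), (3, [4, 6, 1, 15, 1, 23, 1, 28, 1], [1], [])])] [1, 31, 1]))))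

def cert27 : Cert :=
  (.split [0, 0, 1, 0, 0, 0, 0, -1, 0]
   (.split [1, 1, 0, 0, -1, -1, 0, 0, 0]
    (.split [0, 0, 0, 0, 0, 0, 1, -1, 0]
     (.leaf [(1, [([0, 0, 0, 0, 0, 0, 0, 0, 0], [2, 0, 0, 0, 0, 0, 0, 0, 0], [1]), ([1, 1, 0, 0, 0, 0, 0, 0, 0], [2, 2, 2, 0, 0, 0, 0, 0, 0], [1]), ([1, 1, 1, 1, 0, 0, 0, 0, 0], [2, 2, 2, 1, 1, 1, 1, 0, 0], [1]), ([2, 2, 1, 1, 1, 1, 1, 1, 0], [2, 2, 2, 2, 2, 0, 0, 0, 0], [2, 12, 1, 28, 1]), ([2, 2, 2, 2, 1, 1, 0, 0, 0], [2, 2, 2, 2, 2, 2, 2, 0, 0], [1]), ([2, 2, 2, 2, 2, 2, 1, 1, 0], [2, 2, 2, 2, 2, 2, 2, 1, 1], [1]), ([2, 2, 2, 2, 2, 2, 2, 2, 0], [2, 2, 2, 2, 2, 2, 2, 2, 2], [1])],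
       [(0, [1], [1]), (1, [1], [1]), (2, [1], [1]), (2, [1], [1]), (2, [1], [4, 7, 1, 14, 1, 28, 1, 29, 1]), (1, [1], [1]), (2, [1], [1]), (2, [1], [1]), (3, [1], [2, 12, 1, 28, 1]), (3, [4, 10, 1, 18, 1, 20, 1, 29, 1], [1]), (4, [1], [1]), (4, [1], [2, 11, 1, 26, 1]), (4, [1], [1]), (5, [1], [1]), (6, [1], [1])],
       [(13, [1], [1], [(7, [8, 9, 3, 16, 2, 25, 4, 28, 4, 31, 5]), (9, [2, 11, 1, 26, 1])]), (8, [2, 15, 1, 17, 1], [1], [(4, [2, 9, 1, 27, 1]), (5, [14, 7, 2, 11, 1, 12, 1, 19, 3, 22, 4, 25, 2, 29, 1]), (2, [1, 30, 1]), (6, [3, 20, 1, 25, 1])]), (3, [4, 6, 1, 15, 1, 23, 1, 28, 1], [1], [])])] [1, 31, 1, 32, 1, 34, 1])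
     (.leaf [(1, [([0, 0, 0, 0, 0, 0, 0, 0, 0], [2, 0, 0, 0, 0, 0, 0, 0, 0], [1]), ([1, 1, 0, 0, 0, 0, 0, 0, 0], [2, 2, 2, 0, 0, 0, 0, 0, 0], [1]), ([1, 1, 1, 1, 0, 0, 0, 0, 0], [2, 2, 2, 1, 1, 1, 1, 0, 0], [1]), ([2, 2, 1, 1, 1, 1, 1, 1, 0], [2, 2, 2, 2, 2, 0, 0, 0, 0], [2, 12, 1, 28, 1]), ([2, 2, 2, 2, 1, 1, 0, 0, 0], [2, 2, 2, 2, 2, 2, 2, 1, 1], [1]), ([2, 2, 2, 2, 2, 2, 2, 2, 0], [2, 2, 2, 2, 2, 2, 2, 2, 2], [1])],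
       [(0, [1], [1]), (1, [1], [1]), (2, [1], [1]), (2, [1], [1]), (2, [1], [4, 7, 1, 14, 1, 28, 1, 29, 1]), (1, [1], [1]), (2, [1], [1]), (2, [1], [1]), (3, [1], [2, 12, 1, 28, 1]), (3, [4, 10, 1, 18, 1, 20, 1, 29, 1], [1]), (4, [1], [1]), (4, [1], [1]), (4, [1], [1]), (4, [1], [1]), (5, [1], [1])],
       [(13, [1], [1], [(9, [1, 34, 1])]), (8, [2, 15, 1, 17, 1], [1], [(4, [2, 9, 1, 27, 1]), (5, [14, 7, 2, 11, 1, 12, 1, 19, 3, 22, 4, 25, 2, 29, 1]), (2, [1, 30, 1]), (6, [3, 20, 1, 25, 1])]), (3, [4, 6, 1, 15, 1, 23, 1, 28, 1], [1], [])])] [1, 31, 1, 32, 1]))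
    (.split [0, 0, 0, 0, 0, 0, 1, -1, 0]
     (.leaf [(1, [([0, 0, 0, 0, 0, 0, 0, 0, 0], [2, 0, 0, 0, 0, 0, 0, 0, 0], [1]), ([1, 1, 0, 0, 0, 0, 0, 0, 0], [2, 2, 2, 0, 0, 0, 0, 0, 0], [1]), ([1, 1, 1, 1, 0, 0, 0, 0, 0], [2, 2, 2, 1, 1, 1, 1, 0, 0], [1]), ([2, 2, 1, 1, 1, 1, 1, 1, 0], [2, 2, 2, 2, 2, 0, 0, 0, 0], [2, 12, 1, 28, 1]), ([2, 2, 2, 2, 1, 1, 0, 0, 0], [2, 2, 2, 2, 2, 2, 2, 0, 0], [1]), ([2, 2, 2, 2, 2, 2, 1, 1, 0], [2, 2, 2, 2, 2, 2, 2, 1, 1], [1]), ([2, 2, 2, 2, 2, 2, 2, 2, 0], [2, 2, 2, 2, 2, 2, 2, 2, 2], [1])],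
       [(0, [1], [1]), (1, [1], [1]), (2, [1], [1]), (2, [1], [1]), (2, [1], [4, 7, 1, 14, 1, 28, 1, 29, 1]), (1, [1], [1]), (2, [1], [1]), (2, [1], [1]), (3, [1], [2, 12, 1, 28, 1]), (3, [4, 10, 1, 18, 1, 20, 1, 29, 1], [1]), (4, [1], [1]), (4, [1], [2, 11, 1, 26, 1]), (4, [1], [1]), (5, [1], [1]), (6, [1], [1])],
       [(13, [1], [1], [(0, [1, 30, 1]), (9, [3, 20, 1, 25, 1])]), (8, [2, 15, 1, 17, 1], [1], [(4, [2, 9, 1, 27, 1]), (5, [14, 7, 2, 11, 1, 12, 1, 19, 3, 22, 4, 25, 2, 29, 1]), (2, [1, 30, 1]), (6, [3, 20, 1, 25, 1])]), (3, [4, 6, 1, 15, 1, 23, 1, 28, 1], [1], [])])] [1, 31, 1, 32, 1, 34, 1])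
     (.leaf [(1, [([0, 0, 0, 0, 0, 0, 0, 0, 0], [2, 0, 0, 0, 0, 0, 0, 0, 0], [1]), ([1, 1, 0, 0, 0, 0, 0, 0, 0], [2, 2, 2, 0, 0, 0, 0, 0, 0], [1]), ([1, 1, 1, 1, 0, 0, 0, 0, 0], [2, 2, 2, 1, 1, 1, 1, 0, 0], [1]), ([2, 2, 1, 1, 1, 1, 1, 1, 0], [2, 2, 2, 2, 2, 0, 0, 0, 0], [2, 12, 1, 28, 1]), ([2, 2, 2, 2, 1, 1, 0, 0, 0], [2, 2, 2, 2, 2, 2, 2, 1, 1], [1]), ([2, 2, 2, 2, 2, 2, 2, 2, 0], [2, 2, 2, 2, 2, 2, 2, 2, 2], [1])],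
       [(0, [1], [1]), (1, [1], [1]), (2, [1], [1]), (2, [1], [1]), (2, [1], [4, 7, 1, 14, 1, 28, 1, 29, 1]), (1, [1], [1]), (2, [1], [1]), (2, [1], [1]), (3, [1], [2, 12, 1, 28, 1]), (3, [4, 10, 1, 18, 1, 20, 1, 29, 1], [1]), (4, [1], [1]), (4, [1], [1]), (4, [1], [1]), (4, [1], [1]), (5, [1], [1])],
       [(13, [1], [1], [(9, [1, 34, 1])]), (8, [2, 15, 1, 17, 1], [1], [(4, [2, 9, 1, 27, 1]), (5, [14, 7, 2, 11, 1, 12, 1, 19, 3, 22, 4, 25, 2, 29, 1]), (2, [1, 30, 1]), (6, [3, 20, 1, 25, 1])]), (3, [4, 6, 1, 15, 1, 23, 1, 28, 1], [1], [])])] [1, 31, 1, 32, 1])))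
   (.split [0, 0, 0, 0, 0, 0, 1, -1, 0]
    (.split [-1, -1, 0, 0, 1, 1, 0, 0, 0]
     (.leaf [(1, [([0, 0, 0, 0, 0, 0, 0, 0, 0], [2, 0, 0, 0, 0, 0, 0, 0, 0], [1]), ([1, 1, 0, 0, 0, 0, 0, 0, 0], [2, 2, 2, 0, 0, 0, 0, 0, 0], [1]), ([1, 1, 1, 1, 0, 0, 0, 0, 0], [2, 2, 2, 2, 2, 0, 0, 0, 0], [1]), ([2, 2, 2, 2, 1, 1, 0, 0, 0], [2, 2, 2, 2, 2, 2, 2, 1, 1], [1]), ([2, 2, 2, 2, 2, 2, 2, 2, 0], [2, 2, 2, 2, 2, 2, 2, 2, 2], [1])],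
       [(0, [1], [1]), (1, [1], [1]), (2, [1], [1]), (2, [1], [2, 10, 1, 22, 1]), (2, [1], [2, 12, 1, 28, 1]), (1, [1], [1]), (2, [1], [1]), (2, [1], [2, 12, 1, 28, 1]), (2, [1], [2, 12, 1, 28, 1]), (2, [1], [1]), (3, [1], [1]), (3, [1], [1]), (3, [1], [1]), (3, [1], [1]), (4, [1], [1])],
       [(11, [1], [1], [(9, [1, 32, 1])]), (8, [2, 15, 1, 17, 1], [1], [(4, [2, 9, 1, 27, 1]), (5, [14, 7, 2, 11, 1, 12, 1, 19, 3, 22, 4, 25, 2, 29, 1]), (6, [1, 32, 1])]), (3, [4, 6, 1, 15, 1, 23, 1, 28, 1], [1], [])])] [1, 31, 1])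
     (.leaf [(1, [([0, 0, 0, 0, 0, 0, 0, 0, 0], [2, 0, 0, 0, 0, 0, 0, 0, 0], [1]), ([1, 1, 0, 0, 0, 0, 0, 0, 0], [2, 2, 2, 0, 0, 0, 0, 0, 0], [1]), ([1, 1, 1, 1, 0, 0, 0, 0, 0], [2, 2, 2, 2, 2, 0, 0, 0, 0], [1]), ([2, 2, 2, 2, 1, 1, 0, 0, 0], [2, 2, 2, 2, 2, 2, 2, 0, 0], [1]), ([2, 2, 2, 2, 2, 2, 1, 1, 0], [2, 2, 2, 2, 2, 2, 2, 1, 1], [1]), ([2, 2, 2, 2, 2, 2, 2, 2, 0], [2, 2, 2, 2, 2, 2, 2, 2, 2], [1])],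
       [(0, [1], [1]), (1, [1], [1]), (2, [1], [1]), (2, [1], [2, 10, 1, 22, 1]), (2, [1], [2, 12, 1, 28, 1]), (1, [1], [1]), (2, [1], [1]), (2, [1], [2, 12, 1, 28, 1]), (2, [1], [2, 12, 1, 28, 1]), (2, [1], [1]), (3, [1], [1]), (3, [1], [2, 11, 1, 26, 1]), (3, [1], [1]), (4, [1], [1]), (5, [1], [1])],
       [(11, [1], [1], [(9, [1, 32, 1])]), (8, [2, 15, 1, 17, 1], [1], [(4, [2, 9, 1, 27, 1]), (5, [14, 7, 2, 11, 1, 12, 1, 19, 3, 22, 4, 25, 2, 29, 1]), (6, [1, 32, 1])]), (3, [4, 6, 1, 15, 1, 23, 1, 28, 1], [1], [])])] [1, 31, 1, 33, 1]))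
    (.split [1, 1, 0, 0, -1, -1, 0, 0, 0]
     (.leaf [(1, [([0, 0, 0, 0, 0, 0, 0, 0, 0], [2, 0, 0, 0, 0, 0, 0, 0, 0], [1]), ([1, 1, 0, 0, 0, 0, 0, 0, 0], [2, 2, 2, 0, 0, 0, 0, 0, 0], [1]), ([1, 1, 1, 1, 0, 0, 0, 0, 0], [2, 2, 2, 2, 2, 0, 0, 0, 0], [1]), ([2, 2, 2, 2, 1, 1, 0, 0, 0], [2, 2, 2, 2, 2, 2, 2, 1, 1], [1]), ([2, 2, 2, 2, 2, 2, 2, 2, 0], [2, 2, 2, 2, 2, 2, 2, 2, 2], [1])],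
       [(0, [1], [1]), (1, [1], [1]), (2, [1], [1]), (2, [1], [2, 10, 1, 22, 1]), (2, [1], [2, 12, 1, 28, 1]), (1, [1], [1]), (2, [1], [1]), (2, [1], [2, 12, 1, 28, 1]), (2, [1], [2, 12, 1, 28, 1]), (2, [1], [1]), (3, [1], [1]), (3, [1], [1]), (3, [1], [1]), (3, [1], [1]), (4, [1], [1])],
       [(11, [1], [1], [(9, [1, 32, 1])]), (8, [2, 15, 1, 17, 1], [1], [(4, [2, 9, 1, 27, 1]), (5, [14, 7, 2, 11, 1, 12, 1, 19, 3, 22, 4, 25, 2, 29, 1]), (6, [1, 32, 1])]), (3, [4, 6, 1, 15, 1, 23, 1, 28, 1], [1], [])])] [1, 31, 1])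
     (.leaf [(1, [([0, 0, 0, 0, 0, 0, 0, 0, 0], [2, 0, 0, 0, 0, 0, 0, 0, 0], [1]), ([1, 1, 0, 0, 0, 0, 0, 0, 0], [2, 2, 2, 0, 0, 0, 0, 0, 0], [1]), ([1, 1, 1, 1, 0, 0, 0, 0, 0], [2, 2, 2, 2, 2, 0, 0, 0, 0], [1]), ([2, 2, 2, 2, 1, 1, 0, 0, 0], [2, 2, 2, 2, 2, 2, 2, 1, 1], [1]), ([2, 2, 2, 2, 2, 2, 2, 2, 0], [2, 2, 2, 2, 2, 2, 2, 2, 2], [1])],
       [(0, [1], [1]), (1, [1], [1]), (2, [1], [1]), (2, [1], [2, 10, 1, 22, 1]), (2, [1], [2, 12, 1, 28, 1]), (1, [1], [1]), (2, [1], [1]), (2, [1], [2, 12, 1, 28, 1]), (2, [1], [2, 12, 1, 28, 1]), (2, [1], [1]), (3, [1], [1]), (3, [1], [1]), (3, [1], [1]), (3, [1], [1]), (4, [1], [1])],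
       [(13, [1], [1], [(9, [1, 33, 1])]), (8, [2, 15, 1, 17, 1], [1], [(4, [2, 9, 1, 27, 1]), (5, [14, 7, 2, 11, 1, 12, 1, 19, 3, 22, 4, 25, 2, 29, 1]), (6, [1, 32, 1])]), (3, [4, 6, 1, 15, 1, 23, 1, 28, 1], [1], [])])] [1, 31, 1]))))

def cert28 : Cert :=
  (.split [0, 0, 0, 1, 0, 0, -1, -1, -1]
   (.leaf [(1, [([0, 0, 0, 0, 0, 0, 0, 0, 0], [2, 0, 0, 0, 0, 0, 0, 0, 0], [1]), ([1, 1, 0, 0, 0, 0, 0, 0, 0], [2, 2, 2, 0, 0, 0, 0, 0, 0], [1]), ([1, 1, 1, 1, 0, 0, 0, 0, 0], [2, 2, 2, 2, 2, 2, 2, 1, 1], [1]), ([2, 2, 2, 2, 2, 2, 2, 2, 0], [2, 2, 2, 2, 2, 2, 2, 2, 2], [1])],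
     [(0, [1], [1]), (1, [1], [1]), (2, [1], [1]), (2, [1], [1]), (2, [1], [1]), (1, [1], [1]), (2, [1], [1]), (2, [1], [1]), (2, [1], [1]), (2, [1], [1]), (2, [1], [1]), (2, [1], [1]), (2, [1], [1]), (2, [1], [1]), (3, [1], [1])],
     [(13, [1], [1], [(9, [2, 15, 2, 20, 1, 32, 3]), (4, [1, 32, 1]), (5, [14, 7, 2, 11, 1, 12, 1, 19, 3, 22, 4, 25, 2, 29, 1]), (6, [2, 20, 1, 32, 1])]), (3, [4, 6, 1, 15, 1, 23, 1, 28, 1], [1], [])])] [1, 10, 1])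
   (.split [0, 0, 1, 0, 0, 0, 0, -1, 0]
    (.split [1, 1, 0, 0, -1, -1, 0, 0, 0]
     (.split [0, 0, 0, 0, 0, 0, 1, -1, 0]
      (.leaf [(1, [([0, 0, 0, 0, 0, 0, 0, 0, 0], [2, 0, 0, 0, 0, 0, 0, 0, 0], [1]), ([1, 1, 0, 0, 0, 0, 0, 0, 0], [2, 2, 2, 0, 0, 0, 0, 0, 0], [1]), ([1, 1, 1, 1, 0, 0, 0, 0, 0], [2, 2, 2, 1, 1, 1, 1, 0, 0], [1]), ([2, 2, 1, 1, 1, 1, 1, 1, 0], [2, 2, 2, 2, 2, 0, 0, 0, 0], [2, 12, 1, 28, 1]), ([2, 2, 2, 2, 1, 1, 0, 0, 0], [2, 2, 2, 2, 2, 2, 2, 0, 0], [1]), ([2, 2, 2, 2, 2, 2, 1, 1, 0], [2, 2, 2, 2, 2, 2, 2, 1, 1], [1]), ([2, 2, 2, 2, 2, 2, 2, 2, 0], [2, 2, 2, 2, 2, 2, 2, 2, 2], [1])],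
        [(0, [1], [1]), (1, [1], [1]), (2, [1], [1]), (2, [1], [1]), (2, [1], [4, 7, 1, 14, 1, 28, 1, 29, 1]), (1, [1], [1]), (2, [1], [1]), (2, [1], [1]), (3, [1], [2, 12, 1, 28, 1]), (3, [4, 10, 1, 18, 1, 20, 1, 29, 1], [1]), (4, [1], [1]), (4, [1], [2, 11, 1, 26, 1]), (4, [1], [1]), (5, [1], [1]), (6, [1], [1])],
        [(11, [1], [1], [(7, [14, 7, 2, 11, 1, 12, 1, 19, 3, 22, 4, 25, 2, 29, 1]), (9, [2, 11, 1, 26, 1])]), (4, [1, 32, 1], [1], [(5, [14, 7, 2, 11, 1, 12, 1, 19, 3, 22, 4, 25, 2, 29, 1]), (2, [1, 30, 1]), (6, [3, 20, 1, 25, 1])]), (3, [4, 6, 1, 15, 1, 23, 1, 28, 1], [1], [])])] [1, 31, 1, 33, 1, 35, 1])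
      (.leaf [(1, [([0, 0, 0, 0, 0, 0, 0, 0, 0], [2, 0, 0, 0, 0, 0, 0, 0, 0], [1]), ([1, 1, 0, 0, 0, 0, 0, 0, 0], [2, 2, 2, 0, 0, 0, 0, 0, 0], [1]), ([1, 1, 1, 1, 0, 0, 0, 0, 0], [2, 2, 2, 1, 1, 1, 1, 0, 0], [1]), ([2, 2, 1, 1, 1, 1, 1, 1, 0], [2, 2, 2, 2, 2, 0, 0, 0, 0], [2, 12, 1, 28, 1]), ([2, 2, 2, 2, 1, 1, 0, 0, 0], [2, 2, 2, 2, 2, 2, 2, 1, 1], [1]), ([2, 2, 2, 2, 2, 2, 2, 2, 0], [2, 2, 2, 2, 2, 2, 2, 2, 2], [1])],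
        [(0, [1], [1]), (1, [1], [1]), (2, [1], [1]), (2, [1], [1]), (2, [1], [4, 7, 1, 14, 1, 28, 1, 29, 1]), (1, [1], [1]), (2, [1], [1]), (2, [1], [1]), (3, [1], [2, 12, 1, 28, 1]), (3, [4, 10, 1, 18, 1, 20, 1, 29, 1], [1]), (4, [1], [1]), (4, [1], [1]), (4, [1], [1]), (4, [1], [1]), (5, [1], [1])],
        [(13, [1], [1], [(9, [1, 35, 1])]), (4, [1, 32, 1], [1], [(5, [14, 7, 2, 11, 1, 12, 1, 19, 3, 22, 4, 25, 2, 29, 1]), (2, [1, 30, 1]), (6, [3, 20, 1, 25, 1])]), (3, [4, 6, 1, 15, 1, 23, 1, 28, 1], [1], [])])] [1, 31, 1, 33, 1]))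
     (.split [0, 0, 0, 0, 0, 0, 1, -1, 0]
      (.leaf [(1, [([0, 0, 0, 0, 0, 0, 0, 0, 0], [2, 0, 0, 0, 0, 0, 0, 0, 0], [1]), ([1, 1, 0, 0, 0, 0, 0, 0, 0], [2, 2, 2, 0, 0, 0, 0, 0, 0], [1]), ([1, 1, 1, 1, 0, 0, 0, 0, 0], [2, 2, 2, 1, 1, 1, 1, 0, 0], [1]), ([2, 2, 1, 1, 1, 1, 1, 1, 0], [2, 2, 2, 2, 2, 0, 0, 0, 0], [2, 12, 1, 28, 1]), ([2, 2, 2, 2, 1, 1, 0, 0, 0], [2, 2, 2, 2, 2, 2, 2, 0, 0], [1]), ([2, 2, 2, 2, 2, 2, 1, 1, 0], [2, 2, 2, 2, 2, 2, 2, 1, 1], [1]), ([2, 2, 2, 2, 2, 2, 2, 2, 0], [2, 2, 2, 2, 2, 2, 2, 2, 2], [1])],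
        [(0, [1], [1]), (1, [1], [1]), (2, [1], [1]), (2, [1], [1]), (2, [1], [4, 7, 1, 14, 1, 28, 1, 29, 1]), (1, [1], [1]), (2, [1], [1]), (2, [1], [1]), (3, [1], [2, 12, 1, 28, 1]), (3, [4, 10, 1, 18, 1, 20, 1, 29, 1], [1]), (4, [1], [1]), (4, [1], [2, 11, 1, 26, 1]), (4, [1], [1]), (5, [1], [1]), (6, [1], [1])],
        [(11, [1], [1], [(0, [2, 13, 1, 21, 1]), (9, [3, 20, 1, 25, 1])]), (4, [1, 32, 1], [1], [(5, [14, 7, 2, 11, 1, 12, 1, 19, 3, 22, 4, 25, 2, 29, 1]), (2, [1, 30, 1]), (6, [3, 20, 1, 25, 1])]), (3, [4, 6, 1, 15, 1, 23, 1, 28, 1], [1], [])])] [1, 31, 1, 33, 1, 35, 1])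
      (.leaf [(1, [([0, 0, 0, 0, 0, 0, 0, 0, 0], [2, 0, 0, 0, 0, 0, 0, 0, 0], [1]), ([1, 1, 0, 0, 0, 0, 0, 0, 0], [2, 2, 2, 0, 0, 0, 0, 0, 0], [1]), ([1, 1, 1, 1, 0, 0, 0, 0, 0], [2, 2, 2, 1, 1, 1, 1, 0, 0], [1]), ([2, 2, 1, 1, 1, 1, 1, 1, 0], [2, 2, 2, 2, 2, 0, 0, 0, 0], [2, 12, 1, 28, 1]), ([2, 2, 2, 2, 1, 1, 0, 0, 0], [2, 2, 2, 2, 2, 2, 2, 1, 1], [1]), ([2, 2, 2, 2, 2, 2, 2, 2, 0], [2, 2, 2, 2, 2, 2, 2, 2, 2], [1])],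
        [(0, [1], [1]), (1, [1], [1]), (2, [1], [1]), (2, [1], [1]), (2, [1], [4, 7, 1, 14, 1, 28, 1, 29, 1]), (1, [1], [1]), (2, [1], [1]), (2, [1], [1]), (3, [1], [2, 12, 1, 28, 1]), (3, [4, 10, 1, 18, 1, 20, 1, 29, 1], [1]), (4, [1], [1]), (4, [1], [1]), (4, [1], [1]), (4, [1], [1]), (5, [1], [1])],
        [(13, [1], [1], [(9, [1, 35, 1])]), (4, [1, 32, 1], [1], [(5, [14, 7, 2, 11, 1, 12, 1, 19, 3, 22, 4, 25, 2, 29, 1]), (2, [1, 30, 1]), (6, [3, 20, 1, 25, 1])]), (3, [4, 6, 1, 15, 1, 23, 1, 28, 1], [1], [])])] [1, 31, 1, 33, 1])))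
    (.split [-1, -1, 0, 0, 1, 1, 0, 0, 0]
     (.split [0, 0, 0, 0, 0, 0, 1, -1, 0]
      (.leaf [(1, [([0, 0, 0, 0, 0, 0, 0, 0, 0], [2, 0, 0, 0, 0, 0, 0, 0, 0], [1]), ([1, 1, 0, 0, 0, 0, 0, 0, 0], [2, 2, 2, 0, 0, 0, 0, 0, 0], [1]), ([1, 1, 1, 1, 0, 0, 0, 0, 0], [2, 2, 2, 2, 2, 0, 0, 0, 0], [1]), ([2, 2, 2, 2, 1, 1, 0, 0, 0], [2, 2, 2, 2, 2, 2, 2, 0, 0], [1]), ([2, 2, 2, 2, 2, 2, 1, 1, 0], [2, 2, 2, 2, 2, 2, 2, 1, 1], [1]), ([2, 2, 2, 2, 2, 2, 2, 2, 0], [2, 2, 2, 2, 2, 2, 2, 2, 2], [1])],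
        [(0, [1], [1]), (1, [1], [1]), (2, [1], [1]), (2, [1], [2, 10, 1, 22, 1]), (2, [1], [2, 12, 1, 28, 1]), (1, [1], [1]), (2, [1], [1]), (2, [1], [2, 12, 1, 28, 1]), (2, [1], [2, 12, 1, 28, 1]), (2, [1], [1]), (3, [1], [1]), (3, [1], [2, 11, 1, 26, 1]), (3, [1], [1]), (4, [1], [1]), (5, [1], [1])],
        [(11, [1], [1], [(9, [1, 33, 1])]), (4, [1, 32, 1], [1], [(5, [14, 7, 2, 11, 1, 12, 1, 19, 3, 22, 4, 25, 2, 29, 1]), (6, [1, 33, 1])]), (3, [4, 6, 1, 15, 1, 23, 1, 28, 1], [1], [])])] [1, 31, 1, 35, 1])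
      (.leaf [(1, [([0, 0, 0, 0, 0, 0, 0, 0, 0], [2, 0, 0, 0, 0, 0, 0, 0, 0], [1]), ([1, 1, 0, 0, 0, 0, 0, 0, 0], [2, 2, 2, 0, 0, 0, 0, 0, 0], [1]), ([1, 1, 1, 1, 0, 0, 0, 0, 0], [2, 2, 2, 2, 2, 0, 0, 0, 0], [1]), ([2, 2, 2, 2, 1, 1, 0, 0, 0], [2, 2, 2, 2, 2, 2, 2, 1, 1], [1]), ([2, 2, 2, 2, 2, 2, 2, 2, 0], [2, 2, 2, 2, 2, 2, 2, 2, 2], [1])],
        [(0, [1], [1]), (1, [1], [1]), (2, [1], [1]), (2, [1], [2, 10, 1, 22, 1]), (2, [1], [2, 12, 1, 28, 1]), (1, [1], [1]), (2, [1], [1]), (2, [1], [2, 12, 1, 28, 1]), (2, [1], [2, 12, 1, 28, 1]), (2, [1], [1]), (3, [1], [1]), (3, [1], [1]), (3, [1], [1]), (3, [1], [1]), (4, [1], [1])],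
        [(13, [1], [1], [(9, [1, 35, 1])]), (4, [1, 32, 1], [1], [(5, [14, 7, 2, 11, 1, 12, 1, 19, 3, 22, 4, 25, 2, 29, 1]), (6, [1, 33, 1])]), (3, [4, 6, 1, 15, 1, 23, 1, 28, 1], [1], [])])] [1, 31, 1]))
     (.leaf [(1, [([0, 0, 0, 0, 0, 0, 0, 0, 0], [2, 0, 0, 0, 0, 0, 0, 0, 0], [1]), ([1, 1, 0, 0, 0, 0, 0, 0, 0], [2, 2, 2, 0, 0, 0, 0, 0, 0], [1]), ([1, 1, 1, 1, 0, 0, 0, 0, 0], [2, 2, 2, 2, 2, 0, 0, 0, 0], [1]), ([2, 2, 2, 2, 1, 1, 0, 0, 0], [2, 2, 2, 2, 2, 2, 2, 1, 1], [1]), ([2, 2, 2, 2, 2, 2, 2, 2, 0], [2, 2, 2, 2, 2, 2, 2, 2, 2], [1])],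
       [(0, [1], [1]), (1, [1], [1]), (2, [1], [1]), (2, [1], [2, 10, 1, 22, 1]), (2, [1], [2, 12, 1, 28, 1]), (1, [1], [1]), (2, [1], [1]), (2, [1], [2, 12, 1, 28, 1]), (2, [1], [2, 12, 1, 28, 1]), (2, [1], [1]), (3, [1], [1]), (3, [1], [1]), (3, [1], [1]), (3, [1], [1]), (4, [1], [1])],
       [(11, [1], [1], [(9, [1, 33, 1])]), (4, [1, 32, 1], [1], [(5, [14, 7, 2, 11, 1, 12, 1, 19, 3, 22, 4, 25, 2, 29, 1]), (6, [1, 33, 1])]), (3, [4, 6, 1, 15, 1, 23, 1, 28, 1], [1], [])])] [1, 31, 1]))))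

def cert29 : Cert :=
  (.split [0, 0, 1, 0, 0, 0, 0, -1, 0]
   (.split [0, 0, 0, 0, 0, -1, 1, 0, 0]
    (.leaf [(1, [([0, 0, 0, 0, 0, 0, 0, 0, 0], [2, 0, 0, 0, 0, 0, 0, 0, 0], [1]), ([1, 1, 0, 0, 0, 0, 0, 0, 0], [2, 2, 2, 0, 0, 0, 0, 0, 0], [1]), ([1, 1, 1, 1, 0, 0, 0, 0, 0], [2, 2, 2, 1, 1, 1, 1, 0, 0], [1]), ([2, 2, 1, 1, 1, 1, 1, 1, 0], [2, 2, 2, 2, 2, 0, 0, 0, 0], [2, 12, 1, 28, 1]), ([2, 2, 2, 2, 1, 1, 0, 0, 0], [2, 2, 2, 2, 2, 1, 1, 0, 0], [1]), ([2, 2, 2, 2, 2, 2, 0, 0, 0], [2, 2, 2, 2, 2, 2, 2, 0, 0], [1]), ([2, 2, 2, 2, 2, 2, 1, 1, 0], [2, 2, 2, 2, 2, 2, 2, 1, 1], [1]), ([2, 2, 2, 2, 2, 2, 2, 2, 0], [2, 2, 2, 2, 2, 2, 2, 2, 2], [1])],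
      [(0, [1], [1]), (1, [1], [1]), (2, [1], [1]), (2, [1], [1]), (2, [1], [4, 7, 1, 14, 1, 28, 1, 29, 1]), (1, [1], [1]), (2, [1], [1]), (2, [1], [1]), (3, [1], [2, 12, 1, 28, 1]), (3, [4, 10, 1, 18, 1, 20, 1, 29, 1], [1]), (4, [1], [1]), (5, [1, 10, 1, 25, 1], [2, 11, 1, 26, 1]), (5, [1], [1]), (6, [1], [1]), (7, [1], [1])],
      [(11, [1], [1], [(7, [14, 7, 2, 11, 1, 12, 1, 19, 3, 22, 4, 25, 2, 29, 1])]), (4, [2, 15, 1, 18, 1], [1], [(5, [14, 7, 2, 11, 1, 12, 1, 19, 3, 22, 4, 25, 2, 29, 1]), (2, [1, 30, 1])]), (3, [4, 4, 1, 6, 1, 18, 1, 28, 1], [1], [])])] [1, 16, 1, 32, 2, 33, 3])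
    (.leaf [(1, [([0, 0, 0, 0, 0, 0, 0, 0, 0], [2, 0, 0, 0, 0, 0, 0, 0, 0], [1]), ([1, 1, 0, 0, 0, 0, 0, 0, 0], [2, 2, 2, 0, 0, 0, 0, 0, 0], [1]), ([1, 1, 1, 1, 0, 0, 0, 0, 0], [2, 2, 2, 1, 1, 1, 1, 0, 0], [1]), ([2, 2, 1, 1, 1, 1, 1, 1, 0], [2, 2, 2, 2, 2, 2, 2, 0, 0], [1, 15, 1]), ([2, 2, 2, 2, 2, 2, 1, 1, 0], [2, 2, 2, 2, 2, 2, 2, 1, 1], [1]), ([2, 2, 2, 2, 2, 2, 2, 2, 0], [2, 2, 2, 2, 2, 2, 2, 2, 2], [1])],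
      [(0, [1], [1]), (1, [1], [1]), (2, [1], [1]), (2, [1], [1]), (2, [1], [4, 7, 1, 14, 1, 28, 1, 29, 1]), (1, [1], [1]), (2, [1], [1]), (2, [1], [1]), (3, [1], [1, 15, 1]), (3, [4, 10, 1, 18, 1, 20, 1, 29, 1], [1]), (3, [1, 20, 1, 32, 1], [1]), (3, [1], [2, 11, 1, 26, 1]), (3, [2, 10, 1, 28, 1], [1]), (4, [1], [1]), (5, [1], [1])],
      [(13, [1], [1], [(7, [1, 33, 1])]), (4, [2, 15, 1, 18, 1], [1], [(5, [14, 7, 2, 11, 1, 12, 1, 19, 3, 22, 4, 25, 2, 29, 1]), (2, [1, 30, 1]), (6, [3, 20, 1, 25, 1])]), (3, [4, 6, 1, 15, 1, 23, 1, 28, 1], [1], [])])] [1, 31, 1]))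
   (.leaf [(1, [([0, 0, 0, 0, 0, 0, 0, 0, 0], [2, 0, 0, 0, 0, 0, 0, 0, 0], [1]), ([1, 1, 0, 0, 0, 0, 0, 0, 0], [2, 2, 2, 0, 0, 0, 0, 0, 0], [1]), ([1, 1, 1, 1, 0, 0, 0, 0, 0], [2, 2, 2, 2, 2, 2, 2, 0, 0], [1]), ([2, 2, 2, 2, 2, 2, 1, 1, 0], [2, 2, 2, 2, 2, 2, 2, 1, 1], [1]), ([2, 2, 2, 2, 2, 2, 2, 2, 0], [2, 2, 2, 2, 2, 2, 2, 2, 2], [1])],
     [(0, [1], [1]), (1, [1], [1]), (2, [1], [1]), (2, [1], [1]), (2, [1], [1, 15, 1]), (1, [1], [1]), (2, [1], [1]), (2, [1], [1]), (2, [1], [1, 15, 1]), (2, [1], [1]), (2, [1], [1]), (2, [1], [2, 11, 1, 26, 1]), (2, [1], [1]), (3, [1], [1]), (4, [1], [1])],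
     [(11, [1], [1], [(7, [14, 7, 2, 11, 1, 12, 1, 19, 3, 22, 4, 25, 2, 29, 1])]), (4, [2, 15, 1, 18, 1], [1], [(5, [14, 7, 2, 11, 1, 12, 1, 19, 3, 22, 4, 25, 2, 29, 1]), (6, [1, 32, 1])]), (3, [4, 6, 1, 15, 1, 23, 1, 28, 1], [1], [])])] [1, 31, 1, 32, 1]))

def cert30 : Cert :=
  (.split [-1, -1, 0, 0, 1, 1, 0, 0, 0]
   (.split [0, 0, 1, 0, 0, 0, 0, -1, 0]
    (.leaf [(4, [([0, 0, 0, 0, 0, 0, 0, 0, 0], [2, 0, 0, 0, 0, 0, 0, 0, 0], [1]), ([1, 1, 0, 0, 0, 0, 0, 0, 0], [2, 2, 2, 0, 0, 0, 0, 0, 0], [1]), ([1, 1, 1, 1, 0, 0, 0, 0, 0], [2, 1, 1, 1, 1, 0, 0, 0, 0], [1]), ([1, 1, 1, 1, 1, 1, 0, 0, 0], [2, 2, 2, 1, 1, 1, 1, 0, 0], [1]), ([2, 2, 1, 1, 1, 1, 1, 1, 0], [2, 2, 2, 2, 2, 2, 2, 0, 0], [1, 15, 1]), ([2, 2, 2, 2, 2, 2, 1, 1, 0], [2, 2, 2, 2, 2,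 2, 2, 1, 1], [1]), ([2, 2, 2, 2, 2, 2, 2, 2, 0], [2, 2, 2, 2, 2, 2, 2, 2, 2], [1])],
      [(0, [1], [1]), (1, [1], [1]), (2, [1], [1]), (3, [1], [1]), (3, [1], [4, 7, 1, 14, 1, 28, 1, 29, 1]), (1, [1], [1]), (3, [1, 32, 1], [1]), (3, [1], [1]), (4, [1], [1, 15, 1]), (4, [4, 10, 1, 18, 1, 20, 1, 29, 1], [1]), (4, [1, 20, 1, 33, 1], [1]), (4, [1], [2, 11, 1, 26, 1]), (4, [2, 10, 1, 28, 1], [1]), (5, [1], [1]), (6, [1], [1])],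
      [(11, [1], [1], [(0, [2, 13, 1, 21, 1])]), (4, [2, 10, 1, 15, 1], [1], [(5, [14, 7, 2, 11, 1, 12, 1, 19, 3, 22, 4, 25, 2, 29, 1]), (2, [1, 30, 1])]), (3, [4, 4, 1, 6, 1, 18, 1, 28, 1], [1], [])]),
     (2, [([0, 0, 0, 0, 0, 0, 0, 0, 0], [2, 0, 0, 0, 0, 0, 0, 0, 0], [1]), ([1, 1, 0, 0, 0, 0, 0, 0, 0], [2, 2, 2, 0, 0, 0, 0, 0, 0], [1]), ([1, 1, 1, 1, 0, 0, 0, 0, 0], [2, 1, 1, 1, 1, 0, 0, 0, 0], [1]), ([1, 1, 1, 1, 1, 1, 0, 0, 0], [2, 2, 2, 1, 1, 1, 1, 0, 0], [1]), ([2, 2, 1, 1, 1, 1, 1, 1, 0], [2, 2, 2, 2, 2, 2, 2, 0, 0], [1, 15, 1]), ([2, 2, 2, 2, 2, 2, 1, 1, 0], [2, 2, 2, 2, 2, 2, 2, 1, 1], [1]), ([2, 2, 2, 2, 2, 2, 2, 2, 0], [2, 2, 2, 2, 2, 2, 2, 2, 2], [1])],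
      [(0, [1], [1]), (1, [1], [1]), (2, [1], [1]), (3, [1], [1]), (3, [1], [4, 7, 1, 14, 1, 28, 1, 29, 1]), (1, [1], [1]), (3, [1, 32, 1], [1]), (3, [1], [1]), (4, [1], [1, 15, 1]), (4, [4, 10, 1, 18, 1, 20, 1, 29, 1], [1]), (4, [1, 20, 1, 33, 1], [1]), (4, [1], [2, 11, 1, 26, 1]), (4, [2, 10, 1, 28, 1], [1]), (5, [1], [1]), (6, [1], [1])],
      [(11, [1], [1], [(0, [2, 13, 1, 21, 1]), (9, [3, 20, 1, 25, 1])]), (8, [2, 15, 1, 17, 1], [1], [(4, [2, 9, 1, 27, 1]), (5, [14, 7, 2, 11, 1, 12, 1, 19, 3, 22, 4, 25, 2, 29, 1]), (2, [1, 30, 1]), (6, [3, 20, 1, 25, 1])]), (3, [4, 6, 1, 15, 1, 23, 1, 28, 1], [1], [])])] [1, 13, 3, 21, 1, 31, 10, 33, 6])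
    (.leaf [(2, [([0, 0, 0, 0, 0, 0, 0, 0, 0], [2, 0, 0, 0, 0, 0, 0, 0, 0], [1]), ([1, 1, 0, 0, 0, 0, 0, 0, 0], [2, 2, 2, 0, 0, 0, 0, 0, 0], [1]), ([1, 1, 1, 1, 0, 0, 0, 0, 0], [2, 1, 1, 1, 1, 0, 0, 0, 0], [1]), ([1, 1, 1, 1, 1, 1, 0, 0, 0], [2, 2, 2, 1, 1, 1, 1, 0, 0], [1]), ([2, 2, 1, 1, 1, 1, 1, 1, 0], [2, 2, 2, 2, 2, 2, 2, 0, 0], [1, 15, 1]), ([2, 2, 2, 2, 2, 2, 1, 1, 0], [2, 2, 2, 2, 2, 2, 2, 1, 1], [1]), ([2, 2, 2, 2, 2, 2, 2, 2, 0], [2, 2, 2, 2, 2, 2, 2, 2, 2], [1])],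
      [(0, [1], [1]), (1, [1], [1]), (2, [1], [1]), (3, [1], [1]), (3, [1], [4, 7, 1, 14, 1, 28, 1, 29, 1]), (1, [1], [1]), (3, [1, 32, 1], [1]), (3, [1], [1]), (4, [1], [1, 15, 1]), (4, [4, 10, 1, 18, 1, 20, 1, 29, 1], [1]), (4, [3, 15, 1, 18, 1, 20, 1], [1]), (4, [1], [2, 11, 1, 26, 1]), (4, [2, 10, 1, 28, 1], [1]), (5, [1], [1]), (6, [1], [1])],
      [(11, [1], [1], [(0, [2, 13, 1, 21, 1])]), (4, [2, 10, 1, 15, 1], [1], [(5, [14, 7, 2, 11, 1, 12, 1, 19, 3, 22, 4, 25, 2, 29, 1]), (2, [1, 30, 1])]), (3, [4, 4, 1, 6, 1, 18, 1, 28, 1], [1], [])]),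
     (5, [([0, 0, 0, 0, 0, 0, 0, 0, 0], [2, 0, 0, 0, 0, 0, 0, 0, 0], [1]), ([1, 1, 0, 0, 0, 0, 0, 0, 0], [2, 2, 2, 0, 0, 0, 0, 0, 0], [1]), ([1, 1, 1, 1, 0, 0, 0, 0, 0], [2, 1, 1, 1, 1, 0, 0, 0, 0], [1]), ([1, 1, 1, 1, 1, 1, 0, 0, 0], [2, 2, 2, 2, 2, 2, 2, 1, 1], [1]), ([2, 2, 2, 2, 2, 2, 2, 2, 0], [2, 2, 2, 2, 2, 2, 2, 2, 2], [1])],
      [(0, [1], [1]), (1, [1], [1]), (2, [1], [1]), (3, [1], [1]), (3, [1], [1]), (1, [1], [1]), (3, [1, 32, 1], [1]), (3, [1], [1]), (3, [1], [1]), (3, [2, 29, 1], [1]), (3, [1], [1]), (3, [1], [1]), (3, [1], [1]), (3, [1], [1]), (4, [1], [1])],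
      [(11, [1], [1], [(0, [2, 13, 1, 21, 1])]), (4, [2, 10, 1, 15, 1], [1], [(5, [14, 7, 2, 11, 1, 12, 1, 19, 3, 22, 4, 25, 2, 29, 1]), (2, [1, 30, 1])]), (3, [4, 4, 1, 6, 1, 18, 1, 28, 1], [1], [])]),
     (3, [([0, 0, 0, 0, 0, 0, 0, 0, 0], [2, 0, 0, 0, 0, 0, 0, 0, 0], [1]), ([1, 1, 0, 0, 0, 0, 0, 0, 0], [2, 2, 2, 0, 0, 0, 0, 0, 0], [1]), ([1, 1, 1, 1, 0, 0, 0, 0, 0], [2, 1, 1, 1, 1, 0, 0, 0, 0], [1]), ([1, 1, 1, 1, 1, 1, 0, 0, 0], [2, 2, 2, 1, 1, 1, 1, 0, 0], [1]), ([2, 2, 1, 1, 1, 1, 1, 1, 0], [2, 2, 2, 2, 2, 2, 2, 0, 0], [1, 15, 1]), ([2, 2, 2, 2, 2, 2, 1, 1, 0], [2, 2, 2, 2, 2, 2, 2, 1, 1], [1]), ([2, 2, 2, 2, 2, 2, 2, 2, 0], [2, 2, 2, 2, 2, 2, 2, 2, 2], [1])],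
      [(0, [1], [1]), (1, [1], [1]), (2, [1], [1]), (3, [1], [1]), (3, [1], [4, 7, 1, 14, 1, 28, 1, 29, 1]), (1, [1], [1]), (3, [1, 32, 1], [1]), (3, [1], [1]), (4, [1], [1, 15, 1]), (4, [4, 10, 1, 18, 1, 20, 1, 29, 1], [1]), (4, [3, 15, 1, 18, 1, 20, 1], [1]), (4, [1], [2, 11, 1, 26, 1]), (4, [2, 10, 1, 28, 1], [1]), (5, [1], [1]), (6, [1], [1])],
      [(11, [1], [1], [(0, [2, 13, 1, 21, 1]), (9, [1, 33, 1])]), (8, [2, 15, 1, 17, 1], [1], [(4, [2, 9, 1, 27, 1]), (5, [14, 7, 2, 11, 1, 12, 1, 19, 3, 22, 4, 25, 2, 29, 1]), (2, [1, 30, 1]), (6, [1, 33, 1])]), (3, [4, 6, 1, 15, 1, 23, 1, 28, 1], [1], [])]),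
     (1, [([0, 0, 0, 0, 0, 0, 0, 0, 0], [2, 0, 0, 0, 0, 0, 0, 0, 0], [1]), ([1, 1, 0, 0, 0, 0, 0, 0, 0], [2, 2, 2, 0, 0, 0, 0, 0, 0], [1]), ([1, 1, 1, 1, 0, 0, 0, 0, 0], [2, 1, 1, 1, 1, 0, 0, 0, 0], [1]), ([1, 1, 1, 1, 1, 1, 0, 0, 0], [2, 2, 2, 2, 2, 2, 2, 0, 0], [1]), ([2, 2, 2, 2, 2, 2, 1, 1, 0], [2, 2, 2, 2, 2, 2, 2, 1, 1], [1]), ([2, 2, 2, 2, 2, 2, 2, 2, 0], [2, 2, 2, 2, 2, 2, 2, 2, 2], [1])],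
      [(0, [1], [1]), (1, [1], [1]), (2, [1], [1]), (3, [1], [1]), (3, [1], [1, 15, 1]), (1, [1], [1]), (3, [1, 32, 1], [1]), (3, [1], [1]), (3, [1], [1, 15, 1]), (3, [2, 29, 1], [1]), (3, [1], [1]), (3, [1], [2, 11, 1, 26, 1]), (3, [1], [1]), (4, [1], [1]), (5, [1], [1])],
      [(11, [1], [1], [(0, [2, 13, 1, 21, 1])]), (8, [2, 8, 1, 15, 1], [1], [(4, [2, 9, 1, 27, 1]), (5, [14, 7, 2, 11, 1, 12, 1, 19, 3, 22, 4, 25, 2, 29, 1]), (6, [1, 33, 1])]), (3, [4, 6, 1, 15, 1, 23, 1, 28, 1], [1], [])])] [1, 13, 3, 31, 14]))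
   (.split [0, 0, 1, 0, 0, 0, 0, -1, 0]
    (.leaf [(1, [([0, 0, 0, 0, 0, 0, 0, 0, 0], [2, 0, 0, 0, 0, 0, 0, 0, 0], [1]), ([1, 1, 0, 0, 0, 0, 0, 0, 0], [2, 2, 2, 0, 0, 0, 0, 0, 0], [1]), ([1, 1, 1, 1, 0, 0, 0, 0, 0], [2, 1, 1, 1, 1, 0, 0, 0, 0], [1]), ([2, 2, 1, 1, 0, 0, 0, 0, 0], [2, 2, 2, 1, 1, 1, 1, 0, 0], [1]), ([2, 2, 1, 1, 1, 1, 1, 1, 0], [2, 2, 2, 2, 2, 2, 2, 0, 0], [1, 15, 1]), ([2, 2, 2, 2, 2, 2, 1, 1, 0], [2, 2, 2, 2, 2, 2, 2, 1, 1], [1]), ([2, 2, 2, 2, 2, 2, 2, 2, 0], [2, 2, 2, 2, 2, 2, 2, 2, 2], [1])],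
      [(0, [1], [1]), (1, [1], [1]), (2, [1], [1]), (3, [1, 32, 1], [1]), (3, [1, 32, 1], [4, 7, 1, 14, 1, 28, 1, 29, 1]), (1, [1], [1]), (3, [1], [1]), (3, [1], [1]), (4, [1], [1, 15, 1]), (4, [4, 10, 1, 18, 1, 20, 1, 29, 1], [1]), (4, [1, 20, 1, 33, 1], [1]), (4, [1], [2, 11, 1, 26, 1]), (4, [2, 10, 1, 28, 1], [1]), (5, [1], [1]), (6, [1], [1])],
      [(11, [1], [1], [(0, [2, 13, 1, 21, 1])]), (4, [2, 10, 1, 15, 1], [1], [(5, [14, 7, 2, 11, 1, 12, 1, 19, 3, 22, 4, 25, 2, 29, 1]), (2, [1, 30, 1]), (6, [3, 20, 1, 25, 1])]), (3, [4, 6, 1, 15, 1, 23, 1, 28, 1], [1], [])]),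
     (1, [([0, 0, 0, 0, 0, 0, 0, 0, 0], [2, 0, 0, 0, 0, 0, 0, 0, 0], [1]), ([1, 1, 0, 0, 0, 0, 0, 0, 0], [2, 2, 2, 0, 0, 0, 0, 0, 0], [1]), ([1, 1, 1, 1, 0, 0, 0, 0, 0], [2, 1, 1, 1, 1, 0, 0, 0, 0], [1]), ([2, 2, 1, 1, 0, 0, 0, 0, 0], [2, 2, 2, 1, 1, 1, 1, 0, 0], [1]), ([2, 2, 1, 1, 1, 1, 1, 1, 0], [2, 2, 2, 2, 2, 2, 2, 0, 0], [1, 15, 1]), ([2, 2, 2, 2, 2, 2, 1, 1, 0], [2, 2, 2, 2, 2, 2, 2, 1, 1], [1]), ([2, 2, 2, 2, 2, 2, 2, 2, 0], [2, 2, 2, 2, 2, 2, 2, 2, 2], [1])],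
      [(0, [1], [1]), (1, [1], [1]), (2, [1], [1]), (3, [1, 32, 1], [1]), (3, [1, 32, 1], [4, 7, 1, 14, 1, 28, 1, 29, 1]), (1, [1], [1]), (3, [1], [1]), (3, [1], [1]), (4, [1], [1, 15, 1]), (4, [4, 10, 1, 18, 1, 20, 1, 29, 1], [1]), (4, [1, 20, 1, 33, 1], [1]), (4, [1], [2, 11, 1, 26, 1]), (4, [2, 10, 1, 28, 1], [1]), (5, [1], [1]), (6, [1], [1])],
      [(11, [1], [1], [(7, [14, 7, 2, 11, 1, 12, 1, 19, 3, 22, 4, 25, 2, 29, 1])]), (4, [2, 15, 1, 18, 1], [1], [(5, [14, 7, 2, 11, 1, 12, 1, 19, 3, 22, 4, 25, 2, 29, 1]), (2, [1, 30, 1]), (6, [3, 20, 1, 25, 1])]), (3, [4, 6, 1, 15, 1, 23, 1, 28, 1], [1], [])])] [1, 13, 2, 31, 4, 33, 2])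
    (.leaf [(1, [([0, 0, 0, 0, 0, 0, 0, 0, 0], [2, 0, 0, 0, 0, 0, 0, 0, 0], [1]), ([1, 1, 0, 0, 0, 0, 0, 0, 0], [2, 2, 2, 0, 0, 0, 0, 0, 0], [1]), ([1, 1, 1, 1, 0, 0, 0, 0, 0], [2, 1, 1, 1, 1, 0, 0, 0, 0], [1]), ([2, 2, 1, 1, 0, 0, 0, 0, 0], [2, 2, 2, 2, 2, 2, 2, 0, 0], [1]), ([2, 2, 2, 2, 2, 2, 1, 1, 0], [2, 2, 2, 2, 2, 2, 2, 1, 1], [1]), ([2, 2, 2, 2, 2, 2, 2, 2, 0], [2, 2, 2, 2, 2, 2, 2, 2, 2], [1])],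
      [(0, [1], [1]), (1, [1], [1]), (2, [1], [1]), (3, [1, 32, 1], [1]), (3, [1, 32, 1], [1, 15, 1]), (1, [1], [1]), (3, [1], [1]), (3, [1], [1]), (3, [1], [1, 15, 1]), (3, [1], [1]), (3, [1], [1]), (3, [1], [2, 11, 1, 26, 1]), (3, [1], [1]), (4, [1], [1]), (5, [1], [1])],
      [(11, [1], [1], [(0, [2, 13, 1, 21, 1])]), (8, [2, 8, 1, 15, 1], [1], [(4, [2, 9, 1, 27, 1]), (5, [14, 7, 2, 11, 1, 12, 1, 19, 3, 22, 4, 25, 2, 29, 1]), (6, [1, 33, 1])]), (3, [4, 6, 1, 15, 1, 23, 1, 28, 1], [1], [])]),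
     (1, [([0, 0, 0, 0, 0, 0, 0, 0, 0], [2, 0, 0, 0, 0, 0, 0, 0, 0], [1]), ([1, 1, 0, 0, 0, 0, 0, 0, 0], [2, 2, 2, 0, 0, 0, 0, 0, 0], [1]), ([1, 1, 1, 1, 0, 0, 0, 0, 0], [2, 1, 1, 1, 1, 0, 0, 0, 0], [1]), ([2, 2, 1, 1, 0, 0, 0, 0, 0], [2, 2, 2, 2, 2, 2, 2, 0, 0], [1]), ([2, 2, 2, 2, 2, 2, 1, 1, 0], [2, 2, 2, 2, 2, 2, 2, 1, 1], [1]), ([2, 2, 2, 2, 2, 2, 2, 2, 0], [2, 2, 2, 2, 2, 2, 2, 2, 2], [1])],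
      [(0, [1], [1]), (1, [1], [1]), (2, [1], [1]), (3, [1, 32, 1], [1]), (3, [1, 32, 1], [1, 15, 1]), (1, [1], [1]), (3, [1], [1]), (3, [1], [1]), (3, [1], [1, 15, 1]), (3, [1], [1]), (3, [1], [1]), (3, [1], [2, 11, 1, 26, 1]), (3, [1], [1]), (4, [1], [1]), (5, [1], [1])],
      [(11, [1], [1], [(0, [2, 13, 1, 21, 1])]), (4, [2, 10, 1, 15, 1], [1], [(5, [14, 7, 2, 11, 1, 12, 1, 19, 3, 22, 4, 25, 2, 29, 1]), (2, [1, 30, 1])]), (3, [4, 4, 1, 6, 1, 18, 1, 28, 1], [1], [])]),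
     (2, [([0, 0, 0, 0, 0, 0, 0, 0, 0], [2, 0, 0, 0, 0, 0, 0, 0, 0], [1]), ([1, 1, 0, 0, 0, 0, 0, 0, 0], [2, 2, 2, 0, 0, 0, 0, 0, 0], [1]), ([1, 1, 1, 1, 0, 0, 0, 0, 0], [2, 1, 1, 1, 1, 0, 0, 0, 0], [1]), ([2, 2, 1, 1, 0, 0, 0, 0, 0], [2, 2, 2, 2, 2, 2, 2, 0, 0], [1]), ([2, 2, 2, 2, 2, 2, 1, 1, 0], [2, 2, 2, 2, 2, 2, 2, 1, 1], [1]), ([2, 2, 2, 2, 2, 2, 2, 2, 0], [2, 2, 2, 2, 2, 2, 2, 2, 2], [1])],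
      [(0, [1], [1]), (1, [1], [1]), (2, [1], [1]), (3, [1, 32, 1], [1]), (3, [1, 32, 1], [1, 15, 1]), (1, [1], [1]), (3, [1], [1]), (3, [1], [1]), (3, [1], [1, 15, 1]), (3, [1], [1]), (3, [1], [1]), (3, [1], [2, 11, 1, 26, 1]), (3, [1], [1]), (4, [1], [1]), (5, [1], [1])],
      [(11, [1], [1], [(7, [14, 7, 2, 11, 1, 12, 1, 19, 3, 22, 4, 25, 2, 29, 1])]), (4, [2, 15, 1, 18, 1], [1], [(5, [14, 7, 2, 11, 1, 12, 1, 19, 3, 22, 4, 25, 2, 29, 1]), (6, [1, 33, 1])]), (3, [4, 6, 1, 15, 1, 23, 1, 28, 1], [1], [])])] [1, 13, 2, 31, 6])))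

def certs : List Cert := [cert0, cert1, cert2, cert3, cert4, cert5, cert6, cert7, cert8, cert9, cert10, cert11, cert12, cert13, cert14, cert15, cert16, cert17, cert18, cert19, cert20, cert21, cert22, cert23, cert24, cert25, cert26, cert27, cert28, cert29, cert30]

theorem facets_ok : checkFacets K K certs = true := by decide +kernel

end Pool.Agent.P8H51.MSTD
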