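import Mathlib

/-!
A small verified checker: certificates that a configuration of five intervals, whose nine
consecutive differences satisfy given linear inequalities, has sumset of measure at most that of
its difference set.
-/

namespace Pool.Agent.P8H51.MSTD

open MeasureTheory Set
open scoped Pointwise

/-- integer linear forms in the consecutive differences -/
abbrev Form := List ℤ

def fadd : Form → Form → Form
  | [], g => g
  | a :: f, [] => a :: f
  | a :: f, b :: g => (a + b) :: fadd f g

def fsmul (c : ℤ) (f : Form) : Form := f.map (fun a => c * a)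

def fsub (f g : Form) : Form := fadd f (fsmul (-1) g)

def fnonneg (f : Form) : Bool := f.all (fun a => decide (0 ≤ a))

noncomputable def ev : Form → List ℝ → ℝ
  | [], _ => 0
  | _ :: _, [] => 0
  | c :: f, x :: xs => (c : ℝ) * x + ev f xs

theorem ev_nil_right (f : Form) : ev f [] = 0 := by cases f <;> rfl

theorem ev_fadd (f g : Form) (x : List ℝ) : ev (fadd f g) x = ev f x + ev g x := by
  induction f generalizing g x with
  | nil => simp [fadd, ev]
  | cons a f ih =>
    cases g with
    | nil => simp [fadd, ev]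
    | cons b g =>
      cases x with
      | nil => simp [fadd, ev]
      | cons y x => simp only [fadd, ev, ih]; push_cast; ring

theorem ev_fsmul (c : ℤ) (f : Form) (x : List ℝ) : ev (fsmul c f) x = c * ev f x := by
  induction f generalizing x with
  | nil => simp [fsmul, ev]
  | cons a f ih =>
    cases x with
    | nil => simp [fsmul, ev]
    | cons y x =>
      have := ih x
      simp only [fsmul, List.map_cons, ev] at this ⊢
      rw [this]; push_cast; ring

theorem ev_fsub (f g : Form) (x : List ℝ) : ev (fsub f g) x = ev f x - ev g x := by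
  rw [fsub, ev_fadd, ev_fsmul]; push_cast; ring

theorem ev_nonneg_of_fnonneg {f : Form} (hf : fnonneg f = true) {x : List ℝ}
    (hx : ∀ a ∈ x, (0 : ℝ) ≤ a) : 0 ≤ ev f x := by
  induction f generalizing x with
  | nil => simp [ev]
  | cons a f ih =>
    cases x with
    | nil => simp [ev]
    | cons y x =>
      simp only [fnonneg, List.all_cons, Bool.and_eq_true, decide_eq_true_eq] at hf
      have h1 : (0 : ℝ) ≤ a := by exact_mod_cast hf.1
      have h2 : 0 ≤ y := hx y (by simp)
      have h3 := ih (x := x) (by simpa [fnonneg] using hf.2)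
        (fun b hb => hx b (by simp [hb]))
      simp only [ev]
      positivity

/-- nonnegative combination of hypotheses, given by a flat list index, coefficient, ... -/
def comb (H : List Form) : List ℕ → Form
  | i :: c :: m => fadd (fsmul (c : ℤ) (H.getD i [])) (comb H m)
  | _ => []

/-- the hypotheses `H` entail `0 ≤ h`, certified by `e` -/
def ent (H : List Form) (h : Form) : List ℕ → Bool
  | d :: m => decide (1 ≤ d) && fnonneg (fsub (fsmul (d : ℤ) h) (comb H m))
  | [] => false

def Holds (H : List Form) (x : List ℝ) : Prop := ∀ h ∈ H, 0 ≤ ev h x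

theorem comb_nonneg {H : List Form} {x : List ℝ} (hH : Holds H x) :
    ∀ m : List ℕ, 0 ≤ ev (comb H m) x
  | [] => by simp [comb, ev]
  | [_] => by simp [comb, ev]
  | i :: c :: m => by
    have ih := comb_nonneg hH m
    rw [comb, ev_fadd, ev_fsmul]
    have h1 : 0 ≤ ev (H.getD i []) x := by
      rw [List.getD_eq_getElem?_getD]
      rcases hi : H[i]? with _ | f
      · simp [ev]
      · simpa using hH f (List.mem_of_getElem? hi)
    have h2 : (0 : ℝ) ≤ ((c : ℤ) : ℝ) := by positivity
    positivity

theorem ent_sound {H : List Form} {h : Form} {e : List ℕ} (he : ent H h e = true) {x : List ℝ}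
    (hx : ∀ a ∈ x, (0 : ℝ) ≤ a) (hH : Holds H x) : 0 ≤ ev h x := by
  cases e with
  | nil => simp [ent] at he
  | cons d m =>
    simp only [ent, Bool.and_eq_true, decide_eq_true_eq] at he
    have h1 := ev_nonneg_of_fnonneg he.2 hx
    rw [ev_fsub, ev_fsmul] at h1
    have h2 := comb_nonneg hH m
    have h3 : (1 : ℝ) ≤ ((d : ℤ) : ℝ) := by exact_mod_cast he.1
    by_contra hneg
    push Not at hneg
    nlinarith

/-! ### The intervals -/

def A (i : ℕ) : Form := List.replicate (2 * i) 1
def B (i : ℕ) : Form := List.replicate (2 * i + 1) 1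

/-- pairs `i ≤ j < 5` -/
def pairsS : List (ℕ × ℕ) :=
  [(0,0),(0,1),(0,2),(0,3),(0,4),(1,1),(1,2),(1,3),(1,4),(2,2),(2,3),(2,4),(3,3),(3,4),(4,4)]

def pairsD : List (ℕ × ℕ) :=
  [(0,1),(0,2),(0,3),(0,4),(1,2),(1,3),(1,4),(2,3),(2,4),(3,4)]

def SI : List (Form × Form) :=
  pairsS.map (fun p => (fadd (A p.1) (A p.2), fadd (B p.1) (B p.2)))

def DI : List (Form × Form) :=
  pairsD.map (fun p => (fsub (A p.2) (B p.1), fsub (B p.2) (A p.1))) ++
    [0, 1, 2, 3, 4].map (fun i => (([] : Form), fsub (B i) (A i)))

/-- the union of the five intervals, based at `t` -/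
def JS (t : ℝ) (x : List ℝ) : Set ℝ :=
  {y | ∃ i < 5, t + ev (A i) x ≤ y ∧ y ≤ t + ev (B i) x}

def Dg (k : ℕ) : Form × Form := DI.getD k ([], [])

theorem add_mem_SI {t : ℝ} {x : List ℝ} {s : ℝ} (hs : s ∈ JS t x + JS t x) :
    ∃ I ∈ SI, 2 * t + ev I.1 x ≤ s ∧ s ≤ 2 * t + ev I.2 x := by
  obtain ⟨y, ⟨i, hi, hy1, hy2⟩, z, ⟨j, hj, hz1, hz2⟩, rfl⟩ := hs
  have key : ∀ i < 5, ∀ j < 5, ((i, j) ∈ pairsS ∨ (j, i) ∈ pairsS) := by decide
  rcases key i hi j hj with h | h
  · refine ⟨_, List.mem_map.2 ⟨(i, j), h, rfl⟩, ?_, ?_⟩ <;> simp only [ev_fadd] <;> linarith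
  · refine ⟨_, List.mem_map.2 ⟨(j, i), h, rfl⟩, ?_, ?_⟩ <;> simp only [ev_fadd] <;> linarith

theorem Icc_DI_subset {t : ℝ} {x : List ℝ} (hx : ∀ a ∈ x, (0 : ℝ) ≤ a) {I : Form × Form}
    (hI : I ∈ DI) : Icc (ev I.1 x) (ev I.2 x) ⊆ JS t x - JS t x := by
  have hAB : ∀ i, 0 ≤ ev (B i) x - ev (A i) x := by
    intro i
    have : B i = fadd (A i) (List.replicate (2 * i) 0 ++ [1]) := by
      simp only [A, B]
      generalize 2 * i = n
      induction n with
      | zero => rfl
      | succ n ih => simp only [List.replicate_succ, List.cons_append, fadd, ← ih]; simp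
    rw [this, ev_fadd]
    have h2 : fnonneg (List.replicate (2 * i) 0 ++ [1]) = true := by
      simp [fnonneg]
    have := ev_nonneg_of_fnonneg h2 hx
    linarith
  have key : ∀ i j : ℕ, i < 5 → j < 5 → ∀ u, ev (A j) x - ev (B i) x ≤ u →
      u ≤ ev (B j) x - ev (A i) x → u ∈ JS t x - JS t x := by
    intro i j hi hj u h1 h2
    -- choose the point of interval `i`
    have hi' := hAB i
    have hj' := hAB j
    by_cases hc : u + ev (A i) x ≤ ev (A j) x
    · refine ⟨t + ev (A j) x, ⟨j, hj, le_rfl, by linarith⟩, t + ev (A j) x - u,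
        ⟨i, hi, by linarith, by linarith⟩, by simp⟩
    · refine ⟨t + (u + ev (A i) x), ⟨j, hj, by linarith, by linarith⟩, t + ev (A i) x,
        ⟨i, hi, le_rfl, by linarith⟩, by simp only; ring⟩
  intro u hu
  rw [DI, List.mem_append] at hI
  rcases hI with hI | hI
  · obtain ⟨⟨i, j⟩, hp, rfl⟩ := List.mem_map.1 hI
    have : ∀ p ∈ pairsD, p.1 < 5 ∧ p.2 < 5 := by decide
    have h5 := this _ hp
    simp only [ev_fsub, mem_Icc] at hu
    exact key i j h5.1 h5.2 u hu.1 hu.2
  · obtain ⟨i, hp, rfl⟩ := List.mem_map.1 hI
    have : ∀ p ∈ [0, 1, 2, 3, 4], p < 5 := by decide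
    have h5 := this _ hp
    simp only [ev_fsub, mem_Icc, ev] at hu
    exact key i i h5 h5 u (by linarith [hu.1, hAB i]) hu.2

theorem isCompact_JS (t : ℝ) (x : List ℝ) : IsCompact (JS t x) := by
  have : JS t x = ⋃ i ∈ Finset.range 5, Icc (t + ev (A i) x) (t + ev (B i) x) := by
    ext y
    simp only [JS, mem_ofPred_eq, mem_iUnion, Finset.mem_range, mem_Icc, exists_prop]
  rw [this]
  exact (Finset.range 5).isCompact_biUnion (fun i _ => isCompact_Icc)

/-! ### Real-variable measure bounds -/

def rsum : List (ℝ × ℝ) → ℝ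
  | [] => 0
  | I :: l => (I.2 - I.1) + rsum l

theorem volume_cover {S : Set ℝ} (l : List (ℝ × ℝ)) (hl : ∀ I ∈ l, I.1 ≤ I.2)
    (hS : ∀ s ∈ S, ∃ I ∈ l, I.1 ≤ s ∧ s ≤ I.2) :
    0 ≤ rsum l ∧ volume S ≤ ENNReal.ofReal (rsum l) := by
  induction l generalizing S with
  | nil =>
    have : S = ∅ := by
      ext s; constructor
      · intro h; obtain ⟨I, hI, _⟩ := hS s h; simp at hI
      · simp
    simp [this, rsum]
  | cons I l ih =>
    have hI := hl I (by simp)
    obtain ⟨h0, h1⟩ := ih (S := S \ Icc I.1 I.2) (fun I hI => hl I (by simp [hI])) (by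
      rintro s ⟨hs, hn⟩
      obtain ⟨K, hK, h⟩ := hS s hs
      rcases List.mem_cons.1 hK with rfl | hK
      · exact absurd h hn
      · exact ⟨K, hK, h⟩)
    refine ⟨by simp only [rsum]; linarith, ?_⟩
    calc volume S ≤ volume (Icc I.1 I.2 ∪ (S \ Icc I.1 I.2)) := by
          apply measure_mono; intro s hs
          by_cases h : s ∈ Icc I.1 I.2
          · exact Or.inl h
          · exact Or.inr ⟨hs, h⟩
      _ ≤ volume (Icc I.1 I.2) + volume (S \ Icc I.1 I.2) := measure_union_le _ _
      _ ≤ ENNReal.ofReal (I.2 - I.1) + ENNReal.ofReal (rsum l) := by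
          rw [Real.volume_Icc]; gcongr
      _ = ENNReal.ofReal (rsum (I :: l)) := by
          rw [← ENNReal.ofReal_add (by linarith) h0]; rfl

/-- pieces sorted to the right of `c` -/
def Sorted' (c : ℝ) : List (ℝ × ℝ) → Prop
  | [] => True
  | I :: l => c ≤ I.1 ∧ I.1 ≤ I.2 ∧ Sorted' I.2 l

theorem volume_pieces {D : Set ℝ} (l : List (ℝ × ℝ)) (c : ℝ)
    (hs : Sorted' c l) (hD : ∀ I ∈ l, Icc I.1 I.2 ⊆ D) :
    0 ≤ rsum l ∧ ENNReal.ofReal (rsum l) ≤ volume (D ∩ Ioi c) := by
  induction l generalizing c with
  | nil => simp [rsum]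
  | cons I l ih =>
    obtain ⟨h1, h2, h3⟩ := hs
    obtain ⟨h0, h4⟩ := ih I.2 h3 (fun I hI => hD I (by simp [hI]))
    refine ⟨by simp only [rsum]; linarith, ?_⟩
    have hdisj : Disjoint (Ioc I.1 I.2) (D ∩ Ioi I.2) := by
      rw [Set.disjoint_left]
      rintro s ⟨_, h⟩ ⟨_, h'⟩
      exact absurd h (not_le.2 h')
    calc ENNReal.ofReal (rsum (I :: l))
        = ENNReal.ofReal (I.2 - I.1) + ENNReal.ofReal (rsum l) := by
          rw [← ENNReal.ofReal_add (by linarith) h0]; rfl
      _ ≤ volume (Ioc I.1 I.2) + volume (D ∩ Ioi I.2) := by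
          rw [Real.volume_Ioc]; gcongr
      _ = volume (Ioc I.1 I.2 ∪ (D ∩ Ioi I.2)) := (measure_union' hdisj measurableSet_Ioc).symm
      _ ≤ volume (D ∩ Ioi c) := by
          apply measure_mono
          rintro s (⟨ha, hb⟩ | ⟨ha, hb⟩)
          · exact ⟨hD I (by simp) ⟨ha.le, hb⟩, lt_of_le_of_lt h1 ha⟩
          · exact ⟨ha, lt_of_le_of_lt (h1.trans h2) hb⟩

theorem two_mul_volume_pos {D : Set ℝ} (hsymm : ∀ s ∈ D, -s ∈ D) :
    2 * volume (D ∩ Ioi 0) ≤ volume D := by
  have h1 : volume (D ∩ Iio 0) = volume (D ∩ Ioi 0) := by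
    have : D ∩ Iio 0 = -(D ∩ Ioi 0) := by
      ext s
      simp only [mem_inter_iff, mem_Iio, Set.mem_neg, mem_Ioi, Left.neg_pos_iff]
      constructor
      · rintro ⟨h, h'⟩; exact ⟨hsymm s h, h'⟩
      · rintro ⟨h, h'⟩; exact ⟨by simpa using hsymm _ h, h'⟩
    rw [this, Measure.measure_neg]
  calc 2 * volume (D ∩ Ioi 0) = volume (D ∩ Ioi 0) + volume (D ∩ Iio 0) := by rw [h1, two_mul]
    _ ≤ volume (D ∩ Ioi 0) + volume (D \ Ioi 0) := by
        gcongr
        rintro s ⟨h, h'⟩
        exact ⟨h, fun h'' => absurd (lt_trans (mem_Ioi.1 h'') (mem_Iio.1 h')) (lt_irrefl _)⟩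
    _ = volume D := measure_inter_add_sdiff D measurableSet_Ioi

/-! ### The checker -/

/-- cluster containment checks for the sum intervals -/
def chkAsg (H : List Form) (cl : List (Form × Form)) :
    List (Form × Form) → List (ℕ × List ℕ × List ℕ) → Bool
  | [], _ => true
  | _ :: _, [] => false
  | I :: S, (c, e1, e2) :: T =>
    decide (c < cl.length) && ent H (fsub I.1 (cl.getD c ([], [])).1) e1 &&
      ent H (fsub (cl.getD c ([], [])).2 I.2) e2 && chkAsg H cl S T

/-- chain of difference intervals starting from right end `r`; returns the final right end -/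
def chkChain (H : List Form) (r : Form) : List (ℕ × List ℕ) → Option Form
  | [] => some r
  | (j, e) :: rest =>
    if decide (j < DI.length) && ent H (fsub r (Dg j).1) e then chkChain H (Dg j).2 rest else none

/-- list of chains to the right of `c` -/
def chkChains (H : List Form) (c : Form) :
    List (ℕ × List ℕ × List ℕ × List (ℕ × List ℕ)) → Option (List (Form × Form))
  | [] => some []
  | (i, e0, e9, rest) :: T =>
    if decide (i < DI.length) && ent H (fsub (Dg i).1 c) e0 then
      match chkChain H (Dg i).2 rest with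
      | none => none
      | some r =>
        if ent H (fsub r (Dg i).1) e9 then
          match chkChains H r T with
          | none => none
          | some L => some (((Dg i).1, r) :: L)
        else none
    else none

abbrev Struc :=
  ℕ × List (Form × Form × List ℕ) × List (ℕ × List ℕ × List ℕ) ×
    List (ℕ × List ℕ × List ℕ × List (ℕ × List ℕ))

/-- the clusters of a structure, without their certificates -/
def cls (s : Struc) : List (Form × Form) := s.2.1.map (fun a => (a.1, a.2.1))

def fsum : List (Form × Form) → Form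
  | [] => []
  | I :: l => fadd (fsub I.2 I.1) (fsum l)

/-- checks one structure; returns the linear bound for measure of sumset minus that of the
difference set -/
def chkStruc (H : List Form) (s : Struc) : Option Form :=
  if s.2.1.all (fun I => ent H (fsub I.2.1 I.1) I.2.2) && chkAsg H (cls s) SI s.2.2.1 then
    match chkChains H [] s.2.2.2 with
    | none => none
    | some L => some (fsub (fsum (cls s)) (fsmul 2 (fsum L)))
  else none

/-- weighted total of the bounds of a list of structures, and total weight -/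
def total (H : List Form) : List Struc → Option (Form × ℕ)
  | [] => some ([], 0)
  | s :: T =>
    match chkStruc H s, total H T with
    | some f, some (g, n) => some (fadd (fsmul (s.1 : ℤ) f) g, s.1 + n)
    | _, _ => none

inductive Cert
  | leaf (s : List Struc) (fin : List ℕ)
  | split (h : Form) (neg pos : Cert)

def check (H : List Form) : Cert → Bool
  | .leaf s fin =>
    match total H s with
    | none => false
    | some (f, n) => decide (1 ≤ n) && ent H (fsmul (-1) f) fin
  | .split h neg pos => check (H ++ [fsmul (-1) h]) neg && check (H ++ [h]) pos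

/-! ### Soundness -/

section sound

variable {x : List ℝ} {t : ℝ} {H : List Form}

theorem chkAsg_sound (hx : ∀ a ∈ x, (0 : ℝ) ≤ a) (hH : Holds H x) {cl : List (Form × Form)}
    (S : List (Form × Form)) (T : List (ℕ × List ℕ × List ℕ)) (h : chkAsg H cl S T = true) :
    ∀ I ∈ S, ∃ C ∈ cl, ev C.1 x ≤ ev I.1 x ∧ ev I.2 x ≤ ev C.2 x := by
  induction S generalizing T with
  | nil => simp
  | cons I S ih =>
    cases T with
    | nil => simp [chkAsg] at h
    | cons a T =>
      obtain ⟨c, e1, e2⟩ := a
      simp only [chkAsg, Bool.and_eq_true, decide_eq_true_eq] at h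
      obtain ⟨⟨⟨h1, h2⟩, h3⟩, h4⟩ := h
      intro K hK
      rcases List.mem_cons.1 hK with rfl | hK
      · refine ⟨cl.getD c ([], []), ?_, ?_, ?_⟩
        · rw [List.getD_eq_getElem _ _ h1]; exact List.getElem_mem h1
        · have := ent_sound h2 hx hH; rw [ev_fsub] at this; linarith
        · have := ent_sound h3 hx hH; rw [ev_fsub] at this; linarith
      · exact ih T h4 K hK

theorem Dg_mem {j : ℕ} (h : j < DI.length) : Dg j ∈ DI := by
  rw [Dg, List.getD_eq_getElem _ _ h]; exact List.getElem_mem h

theorem chkChain_sound (hx : ∀ a ∈ x, (0 : ℝ) ≤ a) (hH : Holds H x) (rest : List (ℕ × List ℕ))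
    (l r r' : Form) (h : chkChain H r rest = some r')
    (hl : Icc (ev l x) (ev r x) ⊆ JS t x - JS t x) :
    Icc (ev l x) (ev r' x) ⊆ JS t x - JS t x := by
  induction rest generalizing r with
  | nil => simp only [chkChain, Option.some.injEq] at h; rwa [← h]
  | cons a rest ih =>
    obtain ⟨j, e⟩ := a
    simp only [chkChain] at h
    split_ifs at h with hc
    simp only [Bool.and_eq_true, decide_eq_true_eq] at hc
    have h1 := ent_sound hc.2 hx hH
    rw [ev_fsub] at h1
    have h2 := Icc_DI_subset (t := t) hx (Dg_mem hc.1)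
    refine ih _ h ?_
    intro u hu
    rcases le_or_gt u (ev r x) with h3 | h3
    · exact hl ⟨hu.1, h3⟩
    · exact h2 ⟨by linarith, hu.2⟩

theorem chkChains_sound (hx : ∀ a ∈ x, (0 : ℝ) ≤ a) (hH : Holds H x)
    (T : List (ℕ × List ℕ × List ℕ × List (ℕ × List ℕ))) (c : Form) (L : List (Form × Form))
    (h : chkChains H c T = some L) :
    Sorted' (ev c x) (L.map (fun I => (ev I.1 x, ev I.2 x))) ∧
      ∀ I ∈ L, Icc (ev I.1 x) (ev I.2 x) ⊆ JS t x - JS t x := by
  induction T generalizing c L with
  | nil =>
    simp only [chkChains, Option.some.injEq] at h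
    subst h
    simp [Sorted']
  | cons a T ih =>
    obtain ⟨i, e0, e9, rest⟩ := a
    simp only [chkChains] at h
    split_ifs at h with hc
    simp only [Bool.and_eq_true, decide_eq_true_eq] at hc
    have h0 := ent_sound hc.2 hx hH
    rw [ev_fsub] at h0
    rcases hr : chkChain H (Dg i).2 rest with _ | r
    · rw [hr] at h; simp at h
    · rw [hr] at h
      simp only at h
      split_ifs at h with hc2
      rcases hL : chkChains H r T with _ | L'
      · rw [hL] at h; simp at h
      · rw [hL] at h
        simp only [Option.some.injEq] at h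
        subst h
        have h9 := ent_sound hc2 hx hH
        rw [ev_fsub] at h9
        obtain ⟨h5, h6⟩ := ih _ _ hL
        refine ⟨⟨by simp only; linarith, by simp only; linarith, h5⟩, ?_⟩
        intro I hI
        rcases List.mem_cons.1 hI with rfl | hI
        · exact chkChain_sound hx hH rest _ _ _ hr (Icc_DI_subset hx (Dg_mem hc.1))
        · exact h6 I hI

theorem ev_fsum (L : List (Form × Form)) :
    ev (fsum L) x = rsum (L.map (fun I => (ev I.1 x, ev I.2 x))) := by
  induction L with
  | nil => simp [fsum, rsum, ev]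
  | cons I L ih => simp only [fsum, ev_fadd, ev_fsub, List.map_cons, rsum, ih]

/-- measure of the sumset minus measure of the difference set -/
noncomputable def gap (t : ℝ) (x : List ℝ) : ℝ :=
  volume.real (JS t x + JS t x) - volume.real (JS t x - JS t x)

theorem chkStruc_sound (hx : ∀ a ∈ x, (0 : ℝ) ≤ a) (hH : Holds H x) (s : Struc) (f : Form)
    (h : chkStruc H s = some f) : gap t x ≤ ev f x := by
  simp only [chkStruc] at h
  split_ifs at h with hc
  simp only [Bool.and_eq_true] at hc
  obtain ⟨hc1, hc2⟩ := hc
  rcases hL : chkChains H [] s.2.2.2 with _ | L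
  · rw [hL] at h; simp at h
  · rw [hL] at h
    simp only [Option.some.injEq] at h
    subst h
    -- upper bound
    have hU : volume.real (JS t x + JS t x) ≤ ev (fsum (cls s)) x := by
      have h1 := volume_cover (S := JS t x + JS t x)
        ((cls s).map (fun I => (2 * t + ev I.1 x, 2 * t + ev I.2 x))) (by
          intro I hI
          obtain ⟨C, hC, rfl⟩ := List.mem_map.1 hI
          obtain ⟨C', hC', rfl⟩ := List.mem_map.1 hC
          have := ent_sound (List.all_eq_true.1 hc1 C' hC') hx hH
          rw [ev_fsub] at this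
          simp only; linarith) (by
          intro u hu
          obtain ⟨I, hI, h2, h3⟩ := add_mem_SI hu
          obtain ⟨C, hC, h4, h5⟩ := chkAsg_sound hx hH _ _ hc2 I hI
          exact ⟨_, List.mem_map.2 ⟨C, hC, rfl⟩, by simp only; linarith, by simp only; linarith⟩)
      have h2 : ∀ M : List (Form × Form),
          rsum (M.map (fun I => (2 * t + ev I.1 x, 2 * t + ev I.2 x))) = ev (fsum M) x := by
        intro M
        induction M with
        | nil => simp [fsum, rsum, ev]
        | cons I M ih =>
          simp only [fsum, ev_fadd, ev_fsub, List.map_cons, rsum, ih]; ring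
      rw [h2] at h1
      exact ENNReal.toReal_le_of_le_ofReal h1.1 h1.2
    have hLo : 2 * ev (fsum L) x ≤ volume.real (JS t x - JS t x) := by
      obtain ⟨h1, h2⟩ := chkChains_sound (t := t) hx hH _ _ _ hL
      have h3 := volume_pieces (D := JS t x - JS t x) _ _ h1 (by
        intro I hI
        obtain ⟨C, hC, rfl⟩ := List.mem_map.1 hI
        exact h2 C hC)
      rw [← ev_fsum] at h3
      have h4 := two_mul_volume_pos (D := JS t x - JS t x) (by
        rintro s ⟨y, hy, z, hz, rfl⟩
        exact ⟨z, hz, y, hy, by simp⟩)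
      have hfin : volume (JS t x - JS t x) ≠ ⊤ := by
        have hc := isCompact_JS t x
        rw [sub_eq_add_neg]
        exact (hc.add hc.neg).measure_lt_top.ne
      have h5 : ENNReal.ofReal (2 * ev (fsum L) x) ≤ volume (JS t x - JS t x) := by
        calc ENNReal.ofReal (2 * ev (fsum L) x) = 2 * ENNReal.ofReal (ev (fsum L) x) := by
              rw [ENNReal.ofReal_mul (by norm_num)]; simp
          _ ≤ 2 * volume ((JS t x - JS t x) ∩ Ioi 0) := by
              gcongr
              simpa [ev] using h3.2
          _ ≤ _ := h4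
      exact (ENNReal.ofReal_le_iff_le_toReal hfin).1 h5
    rw [ev_fsub, ev_fsmul, gap]
    push_cast
    linarith

theorem total_sound (hx : ∀ a ∈ x, (0 : ℝ) ≤ a) (hH : Holds H x) (S : List Struc) (f : Form)
    (n : ℕ) (h : total H S = some (f, n)) : n * gap t x ≤ ev f x := by
  induction S generalizing f n with
  | nil =>
    simp only [total, Option.some.injEq, Prod.mk.injEq] at h
    rw [← h.1, ← h.2]; simp [ev]
  | cons s S ih =>
    simp only [total] at h
    rcases h1 : chkStruc H s with _ | f1
    · rw [h1] at h; simp at h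
    · rcases h2 : total H S with _ | ⟨g, m⟩
      · rw [h1, h2] at h; simp at h
      · rw [h1, h2] at h
        simp only [Option.some.injEq, Prod.mk.injEq] at h
        rw [← h.1, ← h.2, ev_fadd, ev_fsmul]
        have h3 := ih g m h2
        have h4 := chkStruc_sound (t := t) hx hH s f1 h1
        have h5 : ((s.1 : ℕ) : ℝ) * gap t x ≤ s.1 * ev f1 x := by gcongr
        push_cast
        linarith

theorem check_sound (hx : ∀ a ∈ x, (0 : ℝ) ≤ a) (c : Cert) (H : List Form) (hH : Holds H x)
    (h : check H c = true) : gap t x ≤ 0 := by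
  induction c generalizing H with
  | leaf s fin =>
    simp only [check] at h
    rcases h1 : total H s with _ | ⟨f, n⟩
    · rw [h1] at h; simp at h
    · rw [h1] at h
      simp only [Bool.and_eq_true, decide_eq_true_eq] at h
      have h2 := ent_sound h.2 hx hH
      rw [ev_fsmul] at h2
      have h3 := total_sound (t := t) hx hH s f n h1
      have h4 : (1 : ℝ) ≤ n := by exact_mod_cast h.1
      push_cast at h2
      by_contra hneg
      push Not at hneg
      nlinarith
  | split f neg pos ih1 ih2 =>
    simp only [check, Bool.and_eq_true] at h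
    rcases le_total 0 (ev f x) with h1 | h1
    · refine ih2 _ ?_ h.2
      intro g hg
      rcases List.mem_append.1 hg with hg | hg
      · exact hH g hg
      · rw [List.mem_singleton.1 hg]; exact h1
    · refine ih1 _ ?_ h.1
      intro g hg
      rcases List.mem_append.1 hg with hg | hg
      · exact hH g hg
      · rw [List.mem_singleton.1 hg, ev_fsmul]; push_cast; linarith

/-- facet checks: on each facet of the region the gap is nonpositive -/
def checkFacets (K : List Form) : List Form → List Cert → Bool
  | [], _ => true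
  | _ :: _, [] => false
  | k :: ks, c :: cs => check (K ++ [fsmul (-1) k]) c && checkFacets K ks cs

theorem checkFacets_sound (hx : ∀ a ∈ x, (0 : ℝ) ≤ a) (K : List Form) (hK : Holds K x)
    (ks : List Form) (cs : List Cert) (h : checkFacets K ks cs = true) (hg : 0 < gap t x) :
    ∀ k ∈ ks, 0 < ev k x := by
  induction ks generalizing cs with
  | nil => simp
  | cons k ks ih =>
    cases cs with
    | nil => simp [checkFacets] at h
    | cons c cs =>
      simp only [checkFacets, Bool.and_eq_true] at h
      intro k' hk'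
      rcases List.mem_cons.1 hk' with rfl | hk'
      · by_contra hneg
        push Not at hneg
        have : gap t x ≤ 0 := by
          refine check_sound hx c _ ?_ h.1
          intro g hg
          rcases List.mem_append.1 hg with hg | hg
          · exact hK g hg
          · rw [List.mem_singleton.1 hg, ev_fsmul]; push_cast; linarith
        linarith
      · exact ih cs h.2 k' hk'

end sound

end Pool.Agent.P8H51.MSTD
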